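import Pool.Agent.TH699.TS.Up

/-!
Tree-like refutations as blackboard refutations of small space.
-/

set_option autoImplicit false

namespace Pool.Agent.TH699.TS

open Finset Pool.Agent.TH699.TD

variable {V : Type} {A P : Line V → Prop} {s : ℕ}

/-- sequences of boards from `c` to `c'` -/
def Reach (A P : Line V → Prop) (s l : ℕ) (c c' : List (Line V)) : Prop :=
  ∃ cfg : ℕ → List (Line V), cfg 0 = c ∧ cfg l = c' ∧
    (∀ i ≤ l, (cfg i).length ≤ s ∧ ∀ L ∈ cfg i, P L) ∧
    ∀ i < l, ∃ a, A a ∧ ∀ x, a x = true → (∀ L ∈ cfg i, L x = true) →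
      ∀ L ∈ cfg (i + 1), L x = true

lemma Reach.single {c c' : List (Line V)} (h1 : c.length ≤ s) (h2 : c'.length ≤ s)
    (h3 : ∀ L ∈ c, P L) (h4 : ∀ L ∈ c', P L) {a : Line V} (ha : A a)
    (h : ∀ x, a x = true → (∀ L ∈ c, L x = true) → ∀ L ∈ c', L x = true) :
    Reach A P s 1 c c' := by
  refine ⟨fun i => if i = 0 then c else c', rfl, rfl, fun i _ => ?_, fun i hi => ?_⟩
  · by_cases h0 : i = 0
    · simp only [h0, if_true]
      exact ⟨h1, h3⟩
    · simp only [h0, if_false]
      exact ⟨h2, h4⟩
  · obtain rfl : i = 0 := by omega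
    exact ⟨a, ha, h⟩

lemma Reach.trans {l l' : ℕ} {c c' c'' : List (Line V)} (h : Reach A P s l c c')
    (h' : Reach A P s l' c' c'') : Reach A P s (l + l') c c'' := by
  obtain ⟨f, f0, fl, f1, f2⟩ := h
  obtain ⟨g, g0, gl, g1, g2⟩ := h'
  refine ⟨fun i => if i ≤ l then f i else g (i - l), ?_, ?_, fun i hi => ?_, fun i hi => ?_⟩
  · simp only [Nat.zero_le, if_true]
    exact f0
  · by_cases h0 : l + l' ≤ l
    · obtain rfl : l' = 0 := by omega
      simp only [add_zero, le_refl, if_true]
      rw [fl, ← gl, g0]
    · simp only [h0, if_false, Nat.add_sub_cancel_left]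
      exact gl
  · by_cases h0 : i ≤ l
    · simp only [h0, if_true]
      exact f1 i h0
    · simp only [h0, if_false]
      exact g1 _ (by omega)
  · by_cases h0 : i + 1 ≤ l
    · have h1 : i ≤ l := by omega
      simp only [h0, h1, if_true]
      exact f2 i (by omega)
    · by_cases h1 : i ≤ l
      · obtain rfl : i = l := by omega
        simp only [h0, le_refl, if_true, if_false, Nat.add_sub_cancel_left]
        rw [fl, ← g0]
        exact g2 0 (by omega)
      · simp only [h0, h1, if_false]
        rw [show i + 1 - l = i - l + 1 by omega]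
        exact g2 _ (by omega)

lemma tree_reach {a : Line V} (ha : A a) : ∀ (t : Der V), t.Sound A → t.All P →
    ∀ c : List (Line V), c.length + peb t ≤ s → (∀ L ∈ c, P L) →
      Reach A P s (nodes t) c (t.line :: c)
  | .ax L, hs, hp, c, hc, hP => by
    have hc' : c.length + 1 ≤ s := hc
    refine Reach.single (by omega) hc' hP ?_ hs ?_
    · intro L' hL'
      rcases List.mem_cons.1 hL' with rfl | h
      · exact hp
      · exact hP _ h
    · intro x hx h L' hL'
      rcases List.mem_cons.1 hL' with rfl | h'
      · exact hx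
      · exact h _ h'
  | .triv L, hs, hp, c, hc, hP => by
    have hc' : c.length + 1 ≤ s := hc
    refine Reach.single (by omega) hc' hP ?_ ha ?_
    · intro L' hL'
      rcases List.mem_cons.1 hL' with rfl | h
      · exact hp
      · exact hP _ h
    · intro x _ h L' hL'
      rcases List.mem_cons.1 hL' with rfl | h'
      · exact hs x
      · exact h _ h'
  | .inf L l r, hs, hp, c, hc, hP => by
    have hc' : c.length + max (peb l) (peb r + 1) ≤ s := hc
    obtain ⟨hs1, hs2, hs3⟩ := hs
    obtain ⟨hp1, hp2, hp3⟩ := hp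
    have hpl : ∀ t : Der V, t.All P → P t.line := by
      intro t ht
      cases t with
      | ax L => exact ht
      | triv L => exact ht
      | inf L l r => exact ht.1
    have hpos : ∀ t : Der V, 1 ≤ peb t := by
      intro t
      cases t with
      | ax L => exact le_rfl
      | triv L => exact le_rfl
      | inf L l r => exact (Nat.succ_le_succ (Nat.zero_le _)).trans (le_max_right _ _)
    have h1 := tree_reach ha l hs2 hp2 c (by omega) hP
    have hP1 : ∀ L' ∈ l.line :: c, P L' := by
      intro L' hL'
      rcases List.mem_cons.1 hL' with rfl | h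
      · exact hpl l hp2
      · exact hP _ h
    have hP2 : ∀ L' ∈ r.line :: l.line :: c, P L' := by
      intro L' hL'
      rcases List.mem_cons.1 hL' with rfl | h
      · exact hpl r hp3
      · exact hP1 _ h
    have hP3 : ∀ L' ∈ L :: c, P L' := by
      intro L' hL'
      rcases List.mem_cons.1 hL' with rfl | h
      · exact hp1
      · exact hP _ h
    have h2 := tree_reach ha r hs3 hp3 (l.line :: c) (by
      rw [List.length_cons]
      omega) hP1
    have hr := hpos r
    have h3 : Reach A P s 1 (r.line :: l.line :: c) (L :: c) := by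
      refine Reach.single ?_ ?_ hP2 hP3 ha ?_
      · simp only [List.length_cons]
        omega
      · simp only [List.length_cons]
        omega
      · intro x _ h L' hL'
        rcases List.mem_cons.1 hL' with rfl | h'
        · exact hs1 x (h _ (List.mem_cons_of_mem _ List.mem_cons_self)) (h _ List.mem_cons_self)
        · exact h _ (List.mem_cons_of_mem _ (List.mem_cons_of_mem _ h'))
    exact (h1.trans h2).trans h3

/-- A tree-like refutation gives a blackboard refutation. -/
lemma tree_board {a : Line V} (ha : A a) {t : Der V} (ht : t.IsRefutation A) (hp : t.All P)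
    (hs : peb t ≤ s) : ∃ cfg : ℕ → List (Line V), IsBoard A s (nodes t) cfg ∧
      ∀ i ≤ nodes t, ∀ L ∈ cfg i, P L := by
  obtain ⟨cfg, h0, h1, h2, h3⟩ := tree_reach (s := s) ha t ht.1 hp [] (by simpa using hs)
    (by simp)
  refine ⟨cfg, ⟨h0, fun i hi => (h2 i hi).1, h3, fun x => ?_⟩, fun i hi => (h2 i hi).2⟩
  rw [h1]
  exact ⟨t.line, List.mem_cons_self, ht.2 x⟩

end Pool.Agent.TH699.TS
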