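import Pool.Agent.TH699.TS.Tse
import Pool.Agent.TH699.TD.NumP

/-!
The CNFs of the lifted Tseitin systems and the lower bounds for refutations with lines of small
norm.
-/

set_option autoImplicit false
set_option synthInstance.maxSize 1000

namespace Pool.Agent.TH699.TS

open Finset Pool.Agent.TH699.TD Pool.Agent.Helper600R2 Pool.Agent.H642R2.Dual

section cnf

variable {p n b : ℕ} (π : Equiv.Perm (Fin n)) (v0 : Fin n)

/-- the variables of the constraint at `v` -/
def vars (v : Fin n) : Finset (Fin p × Wt n b) := univ.filter (fun w => w.2.1 ∈ cut π {v})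

lemma par_eq (v : Fin n) (x : Fin p × Wt n b → Bool) :
    par π v x = ∑ e ∈ cut π {v}, gam x e := by
  have := sum_par (p := p) (b := b) π {v} x
  rwa [Finset.sum_singleton] at this

lemma viol_congr {v : Fin n} {x y : Fin p × Wt n b → Bool} (h : ∀ w ∈ vars π v, x w = y w) :
    viol π v0 v x = viol π v0 v y := by
  have h1 : par π v x = par π v y := by
    rw [par_eq, par_eq]
    refine Finset.sum_congr rfl fun e he => ?_
    unfold gam
    congr 1
    · refine Finset.sum_congr rfl fun i _ => ?_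
      rw [h _ (by simpa [vars] using he)]
    · refine Finset.sum_congr rfl fun j _ => Finset.prod_congr rfl fun i _ => ?_
      rw [h _ (by simpa [vars] using he)]
  unfold viol
  rw [h1]

/-- the clauses of the lifted Tseitin system -/
def cnf : Finset (Clause (Fin p × Wt n b)) :=
  univ.biUnion fun v => (univ.filter fun x => viol π v0 v x = true).image
    fun x => wide x (vars π v)

lemma mem_cnf {C : Clause (Fin p × Wt n b)} :
    C ∈ cnf π v0 ↔ ∃ v x, viol π v0 v x = true ∧ C = wide x (vars π v) := by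
  unfold cnf
  simp only [mem_biUnion, mem_univ, true_and, mem_image, mem_filter]
  constructor
  · rintro ⟨v, x, h1, h2⟩
    exact ⟨v, x, h1, h2.symm⟩
  · rintro ⟨v, x, h1, h2⟩
    exact ⟨v, x, h1, h2.symm⟩

lemma not_sat_wide {V : Type} [DecidableEq V] {x y : V → Bool} {U : Finset V} :
    ¬ Sat (wide x U) y ↔ ∀ w ∈ U, x w = y w := by
  constructor
  · intro h w hw
    by_contra hne
    refine h ⟨(w, !x w), mem_image.2 ⟨w, hw, rfl⟩, ?_⟩
    cases hx : x w <;> cases hy : y w <;> simp_all
  · rintro h ⟨l, hl, hy⟩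
    obtain ⟨w, hw, rfl⟩ := mem_image.1 hl
    rw [← h w hw] at hy
    simp at hy

lemma exists_viol (x : Fin p × Wt n b → Bool) : ∃ v, viol π v0 v x = true := by
  by_contra hne
  push Not at hne
  have h1 : ∀ v, par π v x = if v = v0 then 1 else 0 := by
    intro v
    have := hne v
    unfold viol at this
    rw [ne_eq, decide_eq_true_eq, not_ne_iff] at this
    exact this
  have h2 := sum_par (p := p) (b := b) π univ x
  have h3 : cut π (univ : Finset (Fin n)) = ∅ := by
    ext e
    rw [mem_cut]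
    simp
  rw [h3, Finset.sum_empty, Finset.sum_congr rfl fun v _ => h1 v, Finset.sum_ite_eq' univ v0] at h2
  simp at h2

lemma cnf_unsat (x : Fin p × Wt n b → Bool) : ∃ C ∈ cnf π v0, ¬ Sat C x := by
  obtain ⟨v, hv⟩ := exists_viol π v0 x
  exact ⟨_, (mem_cnf π v0).2 ⟨v, x, hv, rfl⟩, not_sat_wide.2 fun _ _ => rfl⟩

lemma ClauseAx.loc {L : Line (Fin p × Wt n b)} (h : ClauseAx (cnf π v0) L) :
    Local (fun v : Fin n => viol (p := p) (b := b) π v0 v) L := by
  obtain ⟨C, hC, hL⟩ := h
  obtain ⟨v, x, hx, rfl⟩ := (mem_cnf π v0).1 hC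
  refine ⟨v, fun y hy => ?_⟩
  have h1 : ¬ Sat (wide x (vars π v)) y := by
    intro h2
    rw [hL y h2] at hy
    cases hy
  exact (viol_congr π v0 (not_sat_wide.1 h1)).symm.trans hx

lemma card_cut_single (v : Fin n) : (cut π {v}).card ≤ 4 := by
  have h : cut π {v} ⊆
      {(v, false), (v, true), ((finRotate n).symm v, false), (π.symm v, true)} := by
    rintro ⟨i, s⟩ hi
    rw [mem_cut] at hi
    simp only [mem_singleton] at hi
    simp only [mem_insert, mem_singleton, Prod.mk.injEq]
    by_contra hcon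
    push Not at hcon
    apply hi
    have hiv : i ≠ v := by
      rintro rfl
      cases s
      · exact hcon.1 rfl rfl
      · exact hcon.2.1 rfl rfl
    have hh : hd π (i, s) ≠ v := by
      cases s
      · rw [hd_false]
        intro hh
        refine hcon.2.2.1 ?_ rfl
        rw [← hh, Equiv.symm_apply_apply]
      · rw [hd_true]
        intro hh
        refine hcon.2.2.2 ?_ rfl
        rw [← hh, Equiv.symm_apply_apply]
    exact ⟨fun h => absurd h hiv, fun h => absurd h hh⟩
  refine (card_le_card h).trans ?_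
  refine (card_insert_le _ _).trans ?_
  have h2 := card_insert_le (v, true) {((finRotate n).symm v, false), (π.symm v, true)}
  have h3 := card_insert_le ((finRotate n).symm v, false) {(π.symm v, true)}
  rw [card_singleton] at h3
  omega

lemma card_vars (v : Fin n) : (vars (p := p) (b := b) π v).card ≤ 4 * (p * (b + 1)) := by
  have h1 : vars (p := p) (b := b) π v =
      (univ : Finset (Fin p)) ×ˢ ((cut π {v}) ×ˢ (univ : Finset (Option (Fin b)))) := by
    ext w
    simp [vars]
  rw [h1, card_product, card_product, card_univ, card_univ, Fintype.card_option,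
    Fintype.card_fin, Fintype.card_fin]
  calc p * ((cut π {v}).card * (b + 1)) ≤ p * (4 * (b + 1)) :=
        Nat.mul_le_mul_left _ (Nat.mul_le_mul_right _ (card_cut_single π v))
    _ = 4 * (p * (b + 1)) := by ring

lemma card_wide_image {V : Type} [Fintype V] [DecidableEq V] (U : Finset V)
    (X : Finset (V → Bool)) : (X.image fun x => wide x U).card ≤ 2 ^ U.card := by
  rw [← card_powerset]
  have h1 : (X.image fun x => wide x U) ⊆
      U.powerset.image (fun S => wide (fun w => decide (w ∈ S)) U) := by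
    intro C hC
    obtain ⟨x, -, rfl⟩ := mem_image.1 hC
    refine mem_image.2 ⟨U.filter (fun w => x w = true), by simp, ?_⟩
    unfold wide
    refine Finset.image_congr fun w hw => ?_
    have hw' : w ∈ U := hw
    cases hx : x w <;> simp [hw', hx]
  exact (card_le_card h1).trans card_image_le

lemma card_cnf : (cnf (p := p) (b := b) π v0).card ≤ 2 ^ (4 * (p * (b + 1))) * n := by
  unfold cnf
  refine card_biUnion_le.trans ?_
  calc ∑ v : Fin n, ((univ.filter fun x => viol π v0 v x = true).image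
      fun x => wide x (vars (p := p) (b := b) π v)).card ≤
      ∑ _v : Fin n, 2 ^ (4 * (p * (b + 1))) := by
        refine Finset.sum_le_sum fun v _ => (card_wide_image _ _).trans ?_
        exact Nat.pow_le_pow_right (by norm_num) (card_vars π v)
    _ = 2 ^ (4 * (p * (b + 1))) * n := by
        rw [Finset.sum_const, card_univ, Fintype.card_fin, smul_eq_mul, mul_comm]

lemma width_cnf {C : Clause (Fin p × Wt n b)} (hC : C ∈ cnf π v0) :
    C.card ≤ 4 * (p * (b + 1)) := by
  obtain ⟨v, x, -, rfl⟩ := (mem_cnf π v0).1 hC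
  exact card_image_le.trans (card_vars π v)

lemma card_V : Fintype.card (Fin p × Wt n b) = p * (n * 2 * (b + 1)) := by
  rw [Fintype.card_prod, Fintype.card_prod, Fintype.card_prod, Fintype.card_option,
    Fintype.card_fin, Fintype.card_fin, Fintype.card_fin, Fintype.card_bool]

end cnf

/-! ### Numerical part -/

lemma key_leaves2 {n F : ℕ} {g : ℝ} (hg : 1 ≤ g) (h2 : 2 ≤ F)
    (hF : ∀ h : ℕ, F * 2 ^ h ≤ 3 ^ h → (2 : ℝ) ^ n ≤ g * (1 + 2 * g) ^ h) :
    (2 : ℝ) ^ ((n : ℝ) / (6 * Real.logb 2 (1 + 2 * g))) ≤ F := by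
  have hlg : 0 < Real.logb 2 (1 + 2 * g) := Real.logb_pos (by norm_num) (by linarith)
  obtain ⟨y, hy⟩ : ∃ y : ℝ, y = n / Real.logb 2 (1 + 2 * g) := ⟨_, rfl⟩
  have hy0 : 0 ≤ y := by
    rw [hy]
    positivity
  have hyl : y * Real.logb 2 (1 + 2 * g) = n := by
    rw [hy]
    field_simp
  have hpow : (1 + 2 * g) ^ y = (2 : ℝ) ^ n := by
    have h3 : (1 + 2 * g) = 2 ^ Real.logb 2 (1 + 2 * g) :=
      (Real.rpow_logb (by norm_num) (by norm_num) (by linarith)).symm
    rw [h3, ← Real.rpow_mul (by norm_num), mul_comm, hyl, Real.rpow_natCast]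
  have key : (2 : ℝ) ^ (y / 6) ≤ F := by
    by_cases hy2 : y < 2
    · calc (2 : ℝ) ^ (y / 6) ≤ 2 ^ (1 : ℝ) :=
            Real.rpow_le_rpow_of_exponent_le (by norm_num) (by linarith)
        _ = 2 := Real.rpow_one _
        _ ≤ F := by exact_mod_cast h2
    · rw [not_lt] at hy2
      have hfl : 2 ≤ ⌊y⌋₊ := Nat.le_floor (by exact_mod_cast hy2)
      have hfl1 : (⌊y⌋₊ : ℝ) ≤ y := Nat.floor_le hy0
      have hfl2 : y < ⌊y⌋₊ + 1 := Nat.lt_floor_add_one y
      obtain ⟨h, hh⟩ : ∃ h : ℕ, ⌊y⌋₊ = h + 1 := ⟨⌊y⌋₊ - 1, by omega⟩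
      rw [hh] at hfl hfl1 hfl2
      push_cast at hfl1 hfl2
      have h1h : 1 ≤ h := by omega
      have h1h' : (1 : ℝ) ≤ h := by exact_mod_cast h1h
      have hcond : g * (1 + 2 * g) ^ h < 2 ^ n := by
        calc g * (1 + 2 * g) ^ h < (1 + 2 * g) * (1 + 2 * g) ^ h :=
              mul_lt_mul_of_pos_right (by linarith) (by positivity)
          _ = (1 + 2 * g) ^ ((h : ℝ) + 1) := by
              rw [← pow_succ', ← Real.rpow_natCast]
              push_cast
              rfl
          _ ≤ (1 + 2 * g) ^ y := Real.rpow_le_rpow_of_exponent_le (by linarith) hfl1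
          _ = 2 ^ n := hpow
      have hgen : (3 / 2 : ℝ) ^ h < F := by
        by_contra hne
        rw [not_lt] at hne
        have h5 : (F : ℝ) * 2 ^ h ≤ 3 ^ h := by
          have h6 := mul_le_mul_of_nonneg_right hne (show (0 : ℝ) ≤ 2 ^ h by positivity)
          rw [← mul_pow] at h6
          norm_num at h6
          exact h6
        have h6 : F * 2 ^ h ≤ 3 ^ h := by exact_mod_cast h5
        exact absurd (hF h h6) (not_le.2 hcond)
      refine le_trans ?_ ((two_rpow_half_le h).trans hgen.le)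
      refine Real.rpow_le_rpow_of_exponent_le (by norm_num) ?_
      linarith
  have e : (n : ℝ) / (6 * Real.logb 2 (1 + 2 * g)) = y / 6 := by
    rw [hy]
    field_simp
  rw [e]
  exact key

section final

variable {p n : ℕ} {π : Equiv.Perm (Fin n)} {v0 : Fin n}

lemma leaves_lower (hp : 2 ≤ p) (hn : 25 ≤ n)
    (hπ : ∀ U : Finset (Fin n), U.card + 1 = n / 2 → n ≤ 60 * (cut π U).card) {g : ℝ}
    (hg : 1 ≤ g) {t : Der (Fin p × Wt n (60 * 4 ^ p))}
    (ht : t.IsRefutation (Local (fun v : Fin n => viol (p := p) (b := 60 * 4 ^ p) π v0 v)))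
    (hl : t.All (NofLine g)) :
    (2 : ℝ) ^ ((n : ℝ) / (6 * Real.logb 2 (1 + 2 * g))) ≤ t.leaves := by
  have : Nonempty (Fin n) := ⟨v0⟩
  refine key_leaves2 hg ?_ (fun h hle =>
    dec_lower v0 hp (by omega) (by omega) hπ (tree_dec ht hl hle))
  by_contra hlt
  obtain ⟨i, hi⟩ := (Sound.oks ht.1).one (by omega)
  have h4 : Dec (fun v : Fin n => viol (p := p) (b := 60 * 4 ^ p) π v0 v) (fun _ => 1) 1 := by
    refine Dec.single i NBp.one fun y hy => ?_
    rw [hi _ rfl (ht.2 _)] at hy
    cases hy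
  have h5 := dec_lower v0 hp (by omega) (by omega) hπ h4
  have h6 : (2 : ℝ) ^ 1 ≤ 2 ^ n := pow_le_pow_right₀ (by norm_num) (by omega)
  linarith

lemma board_lower (hp : 2 ≤ p) (hn : 25 ≤ n)
    (hπ : ∀ U : Finset (Fin n), U.card + 1 = n / 2 → n ≤ 60 * (cut π U).card) {g : ℝ}
    (hg : 1 ≤ g) {s l : ℕ} {cfg : ℕ → List (Line (Fin p × Wt n (60 * 4 ^ p)))}
    (hb : IsBoard (Local (fun v : Fin n => viol (p := p) (b := 60 * 4 ^ p) π v0 v)) s l cfg)
    (hl : ∀ i ≤ l, ∀ L ∈ cfg i, NofLine g L) :
    (n : ℝ) ≤ (s + 2) * (Real.logb 2 l + 3) * Real.logb 2 (1 + g) := by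
  have : Nonempty (Fin n) := ⟨v0⟩
  have hl1 : 1 ≤ l := by
    by_contra hl
    obtain rfl : l = 0 := by omega
    obtain ⟨L, hL, -⟩ := hb.final (fun _ => true)
    rw [hb.init] at hL
    simp at hL
  have h5 := (dec_lower v0 hp (by omega) (by omega) hπ (board_dec hb (by linarith) hl
    (Nat.le_pow_clog (by norm_num) l))).trans (board_bound hg s (Nat.clog 2 l))
  have h6 : (n : ℝ) ≤ (s + 2) * (Nat.clog 2 l + 2) * Real.logb 2 (1 + g) := by
    have h7 := Real.logb_le_logb_of_le (b := 2) (by norm_num) (by positivity) h5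
    rw [Real.logb_pow, Real.logb_pow, Real.logb_self_eq_one (by norm_num)] at h7
    push_cast at h7
    linarith
  have h9 := clog_le l hl1
  have hs0 : (0 : ℝ) ≤ s := Nat.cast_nonneg s
  have hlg : 0 ≤ Real.logb 2 (1 + g) := Real.logb_nonneg (by norm_num) (by linarith)
  refine h6.trans ?_
  refine mul_le_mul_of_nonneg_right ?_ hlg
  exact mul_le_mul_of_nonneg_left (by linarith) (by linarith)

end final

end Pool.Agent.TH699.TS
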