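import Pool.Agent.TH699.TS.Dag

/-!
Lines which are Boolean functions of `r` lines of small norm.
-/

set_option autoImplicit false
set_option synthInstance.maxSize 1000

namespace Pool.Agent.TH699.TS

open Finset Pool.Agent.TH699.TD Pool.Agent.Helper600R2 Pool.Agent.H642R2.Dual

/-- `L` is a Boolean function of `r` lines with the property `Q` -/
def Combo {V : Type} (r : ℕ) (Q : Line V → Prop) (L : Line V) : Prop :=
  ∃ (M : Fin r → Line V) (F : (Fin r → Bool) → Bool), (∀ i, Q (M i)) ∧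
    ∀ x, L x = F fun i => M i x

lemma Combo.mono {V : Type} {r : ℕ} {Q Q' : Line V → Prop} (h : ∀ L, Q L → Q' L) {L : Line V}
    (hL : Combo r Q L) : Combo r Q' L := by
  obtain ⟨M, F, h1, h2⟩ := hL
  exact ⟨M, F, fun i => h _ (h1 i), h2⟩

variable {p : ℕ} {W : Type}

lemma cv_true : cv true = 1 := by simp [cv]

lemma cv_false : cv false = 0 := by simp [cv]

/-- the indicator of the values of `r` lines -/
lemma norm_combo {g : ℝ} (hg : 0 ≤ g) : ∀ (r : ℕ) (M : Fin r → Line (Fin p × W))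
    (G : (Fin r → Bool) → Bool), (∀ i, NofLine g (M i)) →
    NBp (fun y : Fin p → (W → Bool) => cv (G fun i => M i fun v => y v.1 v.2)) ((1 + 2 * g) ^ r)
  | 0, M, G, _ => by
    rw [pow_zero]
    cases h : G (fun i => i.elim0) with
    | true =>
      refine NBp.one.congr fun y => ?_
      have h1 : (fun i : Fin 0 => M i fun v => y v.1 v.2) = fun i => i.elim0 :=
        funext fun i => i.elim0
      rw [h1, h, cv_true]
    | false =>
      refine (NBp.zero.mono zero_le_one).congr fun y => ?_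
      have h1 : (fun i : Fin 0 => M i fun v => y v.1 v.2) = fun i => i.elim0 :=
        funext fun i => i.elim0
      rw [h1, h, cv_false]
  | r + 1, M, G, hM => by
    have h1 := norm_combo hg r (fun i => M i.succ) (fun a => G (Fin.cons true a))
      fun i => hM i.succ
    have h2 := norm_combo hg r (fun i => M i.succ) (fun a => G (Fin.cons false a))
      fun i => hM i.succ
    have h3 := (h1.mul (pm_true (hM 0))).add (h2.mul (pm_false (hM 0)))
    refine (h3.mono (le_of_eq (by ring))).congr fun y => ?_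
    have h4 : (fun i => M i fun v => y v.1 v.2) =
        Fin.cons (M 0 fun v => y v.1 v.2) fun i : Fin r => M i.succ fun v => y v.1 v.2 := by
      funext i
      refine Fin.cases ?_ (fun i => ?_) i <;> rfl
    rw [h4]
    unfold pm
    cases h5 : M 0 fun v => y v.1 v.2 with
    | true => simp [cv_true]
    | false => simp [cv_false]

lemma Combo.norm {g : ℝ} (hg : 0 ≤ g) {r : ℕ} {L : Line (Fin p × W)}
    (h : Combo r (NofLine g) L) : NofLine ((1 + 2 * g) ^ r) L := by
  obtain ⟨M, F, h1, h2⟩ := h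
  refine (norm_combo hg r M (fun a => !F a) h1).congr fun y => ?_
  rw [h2]
  cases F (fun i => M i fun v => y v.1 v.2) <;> simp [cv]

lemma logb_combo {g : ℝ} (hg : 1 ≤ g) (r : ℕ) :
    Real.logb 2 (1 + 2 * (1 + 2 * g) ^ r) ≤ (r + 1) * Real.logb 2 (1 + 2 * g) := by
  have h1 : 1 ≤ (1 + 2 * g) ^ r := one_le_pow₀ (by linarith)
  have h2 : 1 + 2 * (1 + 2 * g) ^ r ≤ (1 + 2 * g) ^ (r + 1) := by
    rw [pow_succ]
    nlinarith
  have h3 := Real.logb_le_logb_of_le (b := 2) (by norm_num) (by positivity) h2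
  rw [Real.logb_pow] at h3
  push_cast at h3
  exact h3

/-- the number of lines -/
lemma length_lower_r {n r T : ℕ} {P : ℕ → Finset ℕ} (hlt : ∀ i < T, ∀ j ∈ P i, j < i)
    (htwo : ∀ i < T, (P i).card ≤ 2) {j : ℕ} (hj : j < T)
    (h : ∀ d, Play P (range T) j d → (n : ℝ) ≤ (d + 1) * ((r + 1) * (7 / 3))) :
    (n / (r + 1) : ℝ) * Real.logb 2 (n / (r + 1)) ≤ 250 * T := by
  obtain ⟨ν, hν⟩ : ∃ ν : ℝ, ν = n / (r + 1) := ⟨_, rfl⟩
  have hν0 : 0 ≤ ν := hν ▸ by positivity
  have hT : (1 : ℝ) ≤ T := by exact_mod_cast (show 1 ≤ T by omega)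
  have h' : ∀ d, Play P (range T) j d → ν ≤ (d + 1) * (7 / 3) := by
    intro d hd
    rw [hν, div_le_iff₀ (by positivity)]
    exact (h d hd).trans (le_of_eq (by ring))
  rw [← hν]
  rcases lt_or_ge ν 45 with hs | hs
  · rcases le_or_gt ν 1 with h1 | h1
    · have h2 : Real.logb 2 ν ≤ 0 := Real.logb_nonpos (by norm_num) hν0 h1
      have h3 : ν * Real.logb 2 ν ≤ 0 := mul_nonpos_of_nonneg_of_nonpos hν0 h2
      linarith
    · have h2 : Real.logb 2 ν ≤ 11 / 2 := by
        rw [Real.logb_le_iff_le_rpow (by norm_num) (by linarith)]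
        have h6 : ((45 : ℝ) ^ (2 : ℕ)) ≤ ((2 : ℝ) ^ (11 / 2 : ℝ)) ^ (2 : ℕ) := by
          rw [← Real.rpow_natCast ((2 : ℝ) ^ (11 / 2 : ℝ)), ← Real.rpow_mul (by norm_num)]
          norm_num
        have h7 := le_of_pow_le_pow_left₀ (by norm_num) (by positivity) h6
        linarith
      have h3 : 0 ≤ Real.logb 2 ν := Real.logb_nonneg (by norm_num) h1.le
      have h4 : ν * Real.logb 2 ν ≤ 45 * (11 / 2) :=
        mul_le_mul hs.le h2 h3 (by norm_num)
      linarith
  · obtain ⟨m, hm⟩ : ∃ m, m = Nat.log 4 ⌊ν / 15⌋₊ := ⟨_, rfl⟩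
    have h0 : ⌊ν / 15⌋₊ ≠ 0 := (Nat.floor_pos.2 (by linarith)).ne'
    have h1 : 4 ^ m ≤ ⌊ν / 15⌋₊ := hm ▸ Nat.pow_log_le_self 4 h0
    have h2 : ⌊ν / 15⌋₊ < 4 ^ (m + 1) := hm ▸ Nat.lt_pow_succ_log_self (by norm_num) _
    have h3 : (15 * 4 ^ m : ℝ) ≤ ν := by
      have h4 : ((4 ^ m : ℕ) : ℝ) ≤ ⌊ν / 15⌋₊ := by exact_mod_cast h1
      have h5 := Nat.floor_le (show 0 ≤ ν / 15 by positivity)
      push_cast at h4
      linarith
    have h4 : ν < 15 * 4 ^ (m + 1) := by
      have h5 : ν / 15 < ((4 ^ (m + 1) : ℕ) : ℝ) := (Nat.floor_lt (by positivity)).1 h2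
      push_cast at h5
      linarith
    have h5 : Real.logb 2 ν ≤ 2 * (m + 4) := by
      have h6 : ν ≤ 2 ^ (2 * (m + 4)) := by
        calc ν ≤ 15 * 4 ^ (m + 1) := h4.le
          _ ≤ 4 ^ 3 * 4 ^ (m + 1) := mul_le_mul_of_nonneg_right (by norm_num) (by positivity)
          _ = 2 ^ (2 * (m + 4)) := by
              rw [← pow_add, pow_mul]
              congr 1
              · norm_num
              · ring
      have h7 := Real.logb_le_logb_of_le (b := 2) (by norm_num) (by linarith) h6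
      rw [Real.logb_pow, Real.logb_self_eq_one (by norm_num)] at h7
      push_cast at h7
      linarith
    have h6 := h' _ (play_T hlt htwo m hj)
    have h7 := Nat.floor_le (show (0 : ℝ) ≤ 3 * 4 ^ m + 8 * (T : ℝ) / (m + 4) by positivity)
    have h8 : ν ≤ (3 * 4 ^ m + 8 * (T : ℝ) / (m + 4) + 1) * (7 / 3) := by
      refine h6.trans (mul_le_mul_of_nonneg_right ?_ (by norm_num))
      linarith
    have h9 : ν * (13 / 27) ≤ 56 / 3 * T / (m + 4) := by
      have h10 : 8 * (T : ℝ) / (m + 4) * (7 / 3) = 56 / 3 * T / (m + 4) := by ring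
      nlinarith
    rw [le_div_iff₀ (by positivity)] at h9
    have h10 : ν * Real.logb 2 ν ≤ ν * (2 * (m + 4)) := mul_le_mul_of_nonneg_left h5 hν0
    nlinarith

end Pool.Agent.TH699.TS
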