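import Pool.Agent.TH699.TS.Game

/-!
The search game on graphs with `T` vertices has value `O(T / log T)`.
-/

set_option autoImplicit false

namespace Pool.Agent.TH699.TS

open Finset

variable {P : ℕ → Finset ℕ}

section dag

variable {T : ℕ} (hlt : ∀ i < T, ∀ j ∈ P i, j < i)

include hlt

/-- embedding the lower part -/
lemma Play.low {S1 R : Finset ℕ} {t : ℕ} (h1 : ∀ v ∈ S1, v < t) (h1T : S1 ⊆ range T)
    (hR : ∀ v ∈ R, t ≤ v) {u d : ℕ} (hu : u ∈ S1) (h : Play P S1 u d) : Play P (R ∪ S1) u d := by
  rw [union_comm]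
  refine h.embed (W := fun v => v < t ∧ v < T) (fun v hv => ?_) ⟨h1 u hu, mem_range.1 (h1T hu)⟩
    fun v hv => ⟨h1 v hv, mem_range.1 (h1T hv)⟩
  rw [disjoint_left]
  intro x hx hx'
  have h2 := hlt v hv.2 x hx
  have h3 := hR x hx'
  omega

/-- first the upper part, then the lower part -/
lemma Play.chain (htwo : ∀ i < T, (P i).card ≤ 2) {S1 S2 : Finset ℕ} {t : ℕ}
    (h1 : ∀ v ∈ S1, v < t) (h1T : S1 ⊆ range T) (h2 : ∀ v ∈ S2, t ≤ v) (h2T : S2 ⊆ range T)
    {d1 : ℕ} (hd1 : ∀ u ∈ S1, Play P S1 u d1) {R : Finset ℕ} {j d2 : ℕ} (h : Play P R j d2)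
    (hR : R ⊆ S2) (hj : j ∈ S2) : Play P (R ∪ S1) j (d2 + (d1 + 2)) := by
  induction h with
  | @stop R j d hd =>
    have h3 : Play P (R ∪ S1) j (d1 + (P j ∩ S1).card) := by
      refine Play.asks (P j ∩ S1) (inter_subset_right.trans subset_union_right)
        (Play.stop d1 ?_) fun u hu => ?_
      · rw [disjoint_left] at hd ⊢
        intro x hx hx'
        obtain ⟨h4, h5⟩ := mem_sdiff.1 hx'
        rcases mem_union.1 h4 with h6 | h6
        · exact hd hx h6
        · exact h5 (mem_inter.2 ⟨hx, h6⟩)
      · exact (hd1 u (mem_inter.1 hu).2).low hlt h1 h1T (fun v hv => h2 v (hR hv))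
          (mem_inter.1 hu).2
    refine h3.mono ?_
    have h4 := (card_le_card (inter_subset_left (s₁ := P j) (s₂ := S1))).trans
      (htwo j (mem_range.1 (h2T hj)))
    omega
  | @ask R j d v hv h3 h4 ih1 ih2 =>
    rw [show d + 1 + (d1 + 2) = d + (d1 + 2) + 1 by ring]
    refine Play.ask v (mem_union_left _ hv)
      ((ih1 ((erase_subset _ _).trans hR) hj).anti fun x hx => ?_) (ih2 hR (hR hv))
    obtain ⟨h5, h6⟩ := mem_erase.1 hx
    rcases mem_union.1 h6 with h7 | h7
    · exact mem_union_left _ (mem_erase.2 ⟨h5, h7⟩)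
    · exact mem_union_right _ h7

/-- the number of questions, with a parameter `m` -/
lemma play_param (htwo : ∀ i < T, (P i).card ≤ 2) (m : ℕ) : ∀ (n : ℕ) (S : Finset ℕ),
    S ⊆ range T → edg P S ≤ n → ∀ j ∈ S,
    Play P S j ⌊(3 * 4 ^ m + 4 * (edg P S : ℝ) / (m + 4) : ℝ)⌋₊ := by
  induction m with
  | zero =>
    intro n S hS _ j hj
    refine (play_edg hlt _ S hS le_rfl j hj).mono (Nat.le_floor ?_)
    have h1 : (0 : ℝ) ≤ edg P S := Nat.cast_nonneg _
    simp only [pow_zero, CharP.cast_eq_zero, zero_add]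
    linarith
  | succ m ihm =>
    intro n
    induction n using Nat.strong_induction_on with
    | _ n ihn =>
    intro S hS hn j hj
    obtain ⟨E, hE⟩ : ∃ E : ℝ, E = (edg P S : ℝ) := ⟨_, rfl⟩
    obtain ⟨α, hα⟩ : ∃ α : ℝ, α = 4 ^ m := ⟨_, rfl⟩
    have hα1 : 1 ≤ α := hα ▸ one_le_pow₀ (by norm_num)
    have hm0 : (0 : ℝ) ≤ m := Nat.cast_nonneg m
    have hE0 : 0 ≤ E := hE ▸ Nat.cast_nonneg _
    rw [← hE]
    have e1 : (3 * 4 ^ (m + 1) + 4 * E / ((m + 1 : ℕ) + 4) : ℝ) = 12 * α + 4 * E / (m + 5) := by
      rw [hα]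
      push_cast
      ring
    rw [e1]
    rcases le_or_gt (3 * α + 4 * E / (m + 4)) (12 * α + 4 * E / (m + 5)) with hB | hB
    · refine (ihm (edg P S) S hS le_rfl j hj).mono (Nat.floor_le_floor ?_)
      rw [← hE, ← hα]
      exact hB
    · -- `E` is large
      have hE1 : 9 * α * ((m + 4) * (m + 5)) < 4 * E := by
        have h1 : 4 * E / (m + 4) - 4 * E / (m + 5) = 4 * E / ((m + 4) * (m + 5)) := by
          field_simp
          ring
        have h2 : 9 * α < 4 * E / ((m + 4) * (m + 5)) := by
          rw [← h1]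
          linarith
        rwa [lt_div_iff₀ (by positivity)] at h2
      have hpos : 0 < edg P S := by
        have h1 : 0 < E := by
          have : 0 < 9 * α * ((m + 4) * (m + 5)) := by positivity
          linarith
        rw [hE] at h1
        exact_mod_cast h1
      obtain ⟨t, ht1, ht2⟩ := edg_balance hlt htwo hS hpos
      have hsp := edg_split hlt hS t
      have hS1 : S.filter (· < t) ⊆ range T := (filter_subset _ _).trans hS
      have hS2 : S.filter (fun x => ¬ x < t) ⊆ range T := (filter_subset _ _).trans hS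
      have hU : S.filter (fun x => ¬ x < t) ∪ S.filter (· < t) = S := by
        rw [union_comm]
        exact filter_union_filter_not_eq _ _
      have hl1 : ∀ v ∈ S.filter (· < t), v < t := fun v hv => (mem_filter.1 hv).2
      have hl2 : ∀ v ∈ S.filter (fun x => ¬ x < t), t ≤ v := fun v hv =>
        not_lt.1 (mem_filter.1 hv).2
      obtain ⟨S1, hS1e⟩ : ∃ S1, S1 = S.filter (· < t) := ⟨_, rfl⟩
      obtain ⟨S2, hS2e⟩ : ∃ S2, S2 = S.filter (fun x => ¬ x < t) := ⟨_, rfl⟩
      rw [← hS1e] at hS1 hU hl1 ht1 ht2 hsp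
      rw [← hS2e] at hS2 hU hl2 hsp
      obtain ⟨c, hc⟩ : ∃ c, c = ∑ i ∈ S2, (P i ∩ S1).card := ⟨_, rfl⟩
      rw [← hc] at hsp
      have r1 : 2 * (edg P S1 : ℝ) ≤ E := by
        rw [hE]
        exact_mod_cast ht1
      have r2 : (edg P S2 : ℝ) + c ≤ E / 2 + 3 / 2 := by
        have h1 : (edg P S : ℝ) = edg P S1 + edg P S2 + c := by exact_mod_cast hsp
        have h2 : (edg P S : ℝ) ≤ 2 * edg P S1 + 3 := by exact_mod_cast ht2
        rw [hE]
        linarith
      have r3 : E = edg P S1 + edg P S2 + c := by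
        rw [hE]
        exact_mod_cast hsp
      by_cases hjt : j < t
      · -- everything takes place in the lower part
        have hj1 : j ∈ S1 := by
          rw [hS1e]
          exact mem_filter.2 ⟨hj, hjt⟩
        have h1 := ihn (edg P S1) (by omega) S1 hS1 le_rfl j hj1
        have h2 := h1.low hlt hl1 hS1 hl2 hj1
        rw [hU] at h2
        refine h2.mono (Nat.floor_le_floor ?_)
        have h3 : (edg P S1 : ℝ) ≤ E := by linarith
        have h4 : 4 * (edg P S1 : ℝ) / (m + 5) ≤ 4 * E / (m + 5) := by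
          gcongr
        rw [hα]
        push_cast
        rw [show (m : ℝ) + 1 + 4 = m + 5 by ring]
        rw [hα] at *
        linarith [h4, pow_succ (4 : ℝ) m]
      · have hj2 : j ∈ S2 := by
          rw [hS2e]
          exact mem_filter.2 ⟨hj, hjt⟩
        rcases le_or_gt (c : ℝ) ((12 * α + 2) * (m + 5) / 4) with hκ | hκ
        · -- few crossing edges
          obtain ⟨U, hUe⟩ : ∃ U, U = S2.biUnion (fun i => P i ∩ S1) := ⟨_, rfl⟩
          have hUc : U.card ≤ c := by
            rw [hUe, hc]
            exact card_biUnion_le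
          have hUS : U ⊆ S1 := by
            rw [hUe]
            exact biUnion_subset.2 fun i _ => inter_subset_right
          obtain ⟨M, hM⟩ : ∃ M : ℝ, M = 3 * α + 4 * (E / 2 + 3 / 2) / (m + 4) := ⟨_, rfl⟩
          have hb : ∀ (R : Finset ℕ), (edg P R : ℝ) ≤ E / 2 + 3 / 2 →
              ⌊(3 * 4 ^ m + 4 * (edg P R : ℝ) / (m + 4) : ℝ)⌋₊ ≤ ⌊M⌋₊ := by
            intro R hR
            refine Nat.floor_le_floor ?_
            rw [hM, ← hα]
            have : 4 * (edg P R : ℝ) / (m + 4) ≤ 4 * (E / 2 + 3 / 2) / (m + 4) := by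
              gcongr
            linarith
          have hc0 : (0 : ℝ) ≤ c := Nat.cast_nonneg c
          have h1 : Play P S j (⌊M⌋₊ + U.card) := by
            refine Play.asks U (hUS.trans (hU ▸ subset_union_right)) ?_ fun u hu => ?_
            · have h2 := (ihm (edg P S2) S2 hS2 le_rfl j hj2).mono (hb S2 (by linarith))
              have h3 := h2.embed (W := fun v => v ∈ S2) (Z := S1 \ U) (fun v hv => by
                rw [disjoint_left]
                intro x hx hx'
                obtain ⟨h4, h5⟩ := mem_sdiff.1 hx'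
                refine h5 ?_
                rw [hUe]
                exact mem_biUnion.2 ⟨v, hv, mem_inter.2 ⟨hx, h4⟩⟩) hj2 fun v hv => hv
              refine h3.anti fun x hx => ?_
              obtain ⟨h4, h5⟩ := mem_sdiff.1 hx
              rw [← hU] at h4
              rcases mem_union.1 h4 with h6 | h6
              · exact mem_union_left _ h6
              · exact mem_union_right _ (mem_sdiff.2 ⟨h6, h5⟩)
            · have h2 := (ihm (edg P S1) S1 hS1 le_rfl u (hUS hu)).mono (hb S1 (by linarith))
              have h3 := h2.low hlt hl1 hS1 hl2 (hUS hu)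
              rwa [hU] at h3
          refine h1.mono (Nat.le_floor ?_)
          have hM0 : 0 ≤ M := by
            rw [hM]
            positivity
          have h2 : ((⌊M⌋₊ + U.card : ℕ) : ℝ) ≤ M + c := by
            push_cast
            have h3 := Nat.floor_le hM0
            have h4 : (U.card : ℝ) ≤ c := by exact_mod_cast hUc
            linarith
          refine h2.trans ?_
          -- the numerical inequality
          have h3 : 4 * E / (m + 5) - 4 * (E / 2 + 3 / 2) / (m + 4) =
              (4 * E * (2 * m + 6) / 4 - 6 * (m + 5)) / ((m + 4) * (m + 5)) := by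
            field_simp
            ring
          have h4 : 9 / 2 * α * (m + 3) - 3 / 2 ≤
              4 * E / (m + 5) - 4 * (E / 2 + 3 / 2) / (m + 4) := by
            rw [h3, le_div_iff₀ (by positivity)]
            have h5 : 9 * α * ((m + 4) * (m + 5)) * ((2 * m + 6) / 4) ≤
                4 * E * ((2 * m + 6) / 4) :=
              mul_le_mul_of_nonneg_right hE1.le (by positivity)
            have h6 : 3 / 2 * ((m : ℝ) + 4) * (m + 5) ≥ 6 * (m + 5) := by nlinarith
            nlinarith
          rw [hM]
          have h7 : (12 * α + 2) * (m + 5) / 4 = 3 * α * m + 15 * α + m / 2 + 5 / 2 := by ring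
          have h8 : α * m ≥ m := le_mul_of_one_le_left hm0 hα1
          nlinarith
        · -- many crossing edges
          have hc0 : (0 : ℝ) < c := lt_of_le_of_lt (by positivity) hκ
          have hc0' : 0 < c := by exact_mod_cast hc0
          have h1 : ∀ u ∈ S1, Play P S1 u ⌊(12 * α + 4 * (edg P S1 : ℝ) / (m + 5) : ℝ)⌋₊ := by
            intro u hu
            have h2 := ihn (edg P S1) (by omega) S1 hS1 le_rfl u hu
            refine h2.mono (Nat.floor_le_floor (le_of_eq ?_))
            rw [hα]
            push_cast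
            ring
          have h2 : Play P S2 j ⌊(12 * α + 4 * (edg P S2 : ℝ) / (m + 5) : ℝ)⌋₊ := by
            have h2 := ihn (edg P S2) (by omega) S2 hS2 le_rfl j hj2
            refine h2.mono (Nat.floor_le_floor (le_of_eq ?_))
            rw [hα]
            push_cast
            ring
          have h3 := h2.chain hlt htwo hl1 hS1 hl2 hS2 h1 (Subset.refl _) hj2
          rw [hU] at h3
          refine h3.mono (Nat.le_floor ?_)
          push_cast
          have h4 := Nat.floor_le (show (0 : ℝ) ≤ 12 * α + 4 * (edg P S1 : ℝ) / (m + 5) by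
            positivity)
          have h5 := Nat.floor_le (show (0 : ℝ) ≤ 12 * α + 4 * (edg P S2 : ℝ) / (m + 5) by
            positivity)
          have h6 : 4 * E / (m + 5) = 4 * (edg P S1 : ℝ) / (m + 5) + 4 * (edg P S2 : ℝ) / (m + 5) +
              4 * (c : ℝ) / (m + 5) := by
            rw [r3]
            ring
          have h7 : 12 * α + 2 ≤ 4 * (c : ℝ) / (m + 5) := by
            rw [le_div_iff₀ (by positivity)]
            linarith
          linarith

end dag

end Pool.Agent.TH699.TS
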