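import Pool.Agent.TH699.TS.Fin
import Pool.Agent.TH699.TS.Game2

/-!
Dag-like refutations: the search game on the graph of a refutation with lines of small norm has
large value.
-/

set_option autoImplicit false
set_option synthInstance.maxSize 1000

namespace Pool.Agent.TH699.TS

open Finset Pool.Agent.TH699.TD Pool.Agent.Helper600R2 Pool.Agent.H642R2.Dual

/-- `L 0, …, L (T - 1)` is a dag-like refutation from the axioms `A`: every line is an axiom or
follows from some earlier lines, its premises, whose numbers are the elements of `P i`; and one of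
the lines is contradictory. -/
structure IsDag {V : Type} (A : Line V → Prop) (T : ℕ) (L : ℕ → Line V) (P : ℕ → Finset ℕ) :
    Prop where
  lt : ∀ i < T, ∀ j ∈ P i, j < i
  step : ∀ i < T, A (L i) ∨ ∀ x, (∀ j ∈ P i, L j x = true) → L i x = true
  final : ∃ i < T, ∀ x, L i x = false

lemma IsDag.mono {V : Type} {A B : Line V → Prop} (h : ∀ L, A L → B L) {T : ℕ} {L : ℕ → Line V}
    {P : ℕ → Finset ℕ} (hd : IsDag A T L P) : IsDag B T L P :=
  ⟨hd.lt, fun i hi => (hd.step i hi).imp (h _) id, hd.final⟩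

section dec

variable {p : ℕ} {W ι : Type} [Fintype ι] {K : ι → Line (Fin p × W)}

/-- a strategy in the search game with `d` questions gives a decomposition of norm `2^O(d)` -/
lemma play_dec [Nonempty ι] {T : ℕ} {L : ℕ → Line (Fin p × W)} {P : ℕ → Finset ℕ}
    (hD : IsDag (Local K) T L P) {g : ℝ} (hg : 0 ≤ g) (hL : ∀ i < T, NofLine g (L i))
    {S : Finset ℕ} {j d : ℕ} (h : Play P S j d) : ∀ (r : Line (Fin p × W)) (ρ : ℝ),
    NBp (pm r) ρ → (∀ i < T, i ∉ S → ∀ x, r x = true → L i x = true) → j < T →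
    (∀ i ∈ S, i < T) → Dec K (fun y => pm r y * (1 - pm (L j) y)) (ρ * g * (1 + 2 * g) ^ d) := by
  induction h with
  | @stop S j d h =>
    intro r ρ hr hS hj hT
    have hle : ρ * g ≤ ρ * g * (1 + 2 * g) ^ d :=
      le_mul_of_one_le_right (mul_nonneg hr.nonneg hg) (one_le_pow₀ (by linarith))
    rcases hD.step j hj with ⟨i, hi⟩ | hi
    · exact (dec_const (i := i) (fun x _ hx => hi x hx) hr (hL j hj)).mono hle
    · obtain ⟨i⟩ : Nonempty ι := inferInstance
      refine (dec_const (i := i) (fun x hx hx' => ?_) hr (hL j hj)).mono hle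
      have h1 := hi x fun k hk =>
        hS k ((hD.lt j hj k hk).trans hj) (fun hkS => disjoint_left.1 h hk hkS) x hx
      rw [h1] at hx'
      cases hx'
  | @ask S j d v hv h1 h2 ih1 ih2 =>
    intro r ρ hr hS hj hT
    have hvT := hT v hv
    have hrR : NBp (pm (fun x => r x && L v x)) (ρ * (1 + g)) :=
      (hr.mul (pm_true (hL v hvT))).congr fun y => cv_and _ _
    have e1 := ih1 (fun x => r x && L v x) _ hrR (fun i hi hiS x hx => by
      obtain ⟨h3, h4⟩ := Bool.and_eq_true_iff.1 hx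
      by_cases hiv : i = v
      · rw [hiv]
        exact h4
      · exact hS i hi (fun h5 => hiS (mem_erase.2 ⟨hiv, h5⟩)) x h3) hj
      (fun i hi => hT i (mem_of_mem_erase hi))
    have e2 := ih2 r ρ hr hS hvT hT
    have e3 := e1.add (e2.mul (pm_false (hL j hj)))
    refine (e3.mono (le_of_eq (by ring))).congr fun y => ?_
    have e4 : pm (fun x => r x && L v x) y = pm r y * pm (L v) y := cv_and _ _
    rw [e4]
    ring

lemma dag_dec [Nonempty ι] {T : ℕ} {L : ℕ → Line (Fin p × W)} {P : ℕ → Finset ℕ}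
    (hD : IsDag (Local K) T L P) {g : ℝ} (hg : 0 ≤ g) (hL : ∀ i < T, NofLine g (L i))
    {j d : ℕ} (hj : j < T) (hf : ∀ x, L j x = false) (h : Play P (range T) j d) :
    Dec K (fun _ => 1) (g * (1 + 2 * g) ^ d) := by
  have h1 : NBp (pm (fun _ : Fin p × W → Bool => true)) 1 := by
    refine NBp.one.congr fun y => ?_
    simp [pm, cv]
  refine ((play_dec hD hg hL h _ 1 h1 (fun i hi hiS => absurd (mem_range.2 hi) hiS) hj
    (fun i hi => mem_range.1 hi)).mono (le_of_eq (by ring))).congr fun y => ?_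
  have h2 := hf (fun v => y v.1 v.2)
  simp [pm, cv, h2]

end dec

/-- graphs with `T` vertices -/
lemma play_T {T : ℕ} {P : ℕ → Finset ℕ} (hlt : ∀ i < T, ∀ j ∈ P i, j < i)
    (htwo : ∀ i < T, (P i).card ≤ 2) (m : ℕ) {j : ℕ} (hj : j < T) :
    Play P (range T) j ⌊(3 * 4 ^ m + 8 * (T : ℝ) / (m + 4) : ℝ)⌋₊ := by
  refine (play_param hlt htwo m _ (range T) (Subset.refl _) le_rfl j (mem_range.2 hj)).mono
    (Nat.floor_le_floor ?_)
  have h1 : edg P (range T) ≤ 2 * T := by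
    unfold edg
    calc ∑ i ∈ range T, (P i ∩ range T).card ≤ ∑ _i ∈ range T, 2 :=
          sum_le_sum fun i hi => (card_le_card inter_subset_left).trans (htwo i (mem_range.1 hi))
      _ = 2 * T := by simp [mul_comm]
  have h2 : (edg P (range T) : ℝ) ≤ 2 * T := by exact_mod_cast h1
  have h3 : 4 * (edg P (range T) : ℝ) / (m + 4) ≤ 8 * (T : ℝ) / (m + 4) :=
    div_le_div_of_nonneg_right (by linarith) (by positivity)
  linarith

section lower

variable {p n : ℕ} {π : Equiv.Perm (Fin n)} (v0 : Fin n)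

/-- the value of the search game, for lines of norm at most 2 -/
lemma dag_lower (hp : 2 ≤ p) (hn : 25 ≤ n)
    (hπ : ∀ U : Finset (Fin n), U.card + 1 = n / 2 → n ≤ 60 * (cut π U).card)
    {T : ℕ} {L : ℕ → Line (Fin p × Wt n (60 * 4 ^ p))} {P : ℕ → Finset ℕ}
    (hD : IsDag (Local (fun v : Fin n => viol (p := p) (b := 60 * 4 ^ p) π v0 v)) T L P)
    (hL : ∀ i < T, NofLine 2 (L i)) {j d : ℕ} (hj : j < T) (hf : ∀ x, L j x = false)
    (h : Play P (range T) j d) : 2 * n ≤ 5 * d := by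
  have : Nonempty (Fin n) := ⟨v0⟩
  have h1 := dec_lower v0 hp (by omega) (by omega) hπ
    (dag_dec hD (by norm_num) hL hj hf h)
  have h2 : 2 ^ n ≤ 2 * 5 ^ d := by
    have h3 : ((2 ^ n : ℕ) : ℝ) ≤ ((2 * 5 ^ d : ℕ) : ℝ) := by
      push_cast
      norm_num at h1
      exact h1
    exact_mod_cast h3
  have h3 : 2 ^ (3 * n) ≤ 2 ^ (7 * d + 3) := by
    calc 2 ^ (3 * n) = (2 ^ n) ^ 3 := by rw [← pow_mul, mul_comm]
      _ ≤ (2 * 5 ^ d) ^ 3 := Nat.pow_le_pow_left h2 3
      _ = (5 ^ 3) ^ d * 2 ^ 3 := by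
          rw [mul_pow, ← pow_mul, ← pow_mul, mul_comm d 3]
          ring
      _ ≤ (2 ^ 7) ^ d * 2 ^ 3 :=
          Nat.mul_le_mul_right _ (Nat.pow_le_pow_left (by norm_num) d)
      _ = 2 ^ (7 * d + 3) := by rw [← pow_mul, ← pow_add]
  have h4 := (Nat.pow_le_pow_iff_right (by norm_num)).1 h3
  omega

/-- the value of the search game, for lines of norm at most `g` -/
lemma dag_lower_g (hp : 2 ≤ p) (hn : 25 ≤ n)
    (hπ : ∀ U : Finset (Fin n), U.card + 1 = n / 2 → n ≤ 60 * (cut π U).card) {g : ℝ}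
    (hg : 1 ≤ g) {T : ℕ} {L : ℕ → Line (Fin p × Wt n (60 * 4 ^ p))} {P : ℕ → Finset ℕ}
    (hD : IsDag (Local (fun v : Fin n => viol (p := p) (b := 60 * 4 ^ p) π v0 v)) T L P)
    (hL : ∀ i < T, NofLine g (L i)) {j d : ℕ} (hj : j < T) (hf : ∀ x, L j x = false)
    (h : Play P (range T) j d) : (n : ℝ) ≤ (d + 1) * Real.logb 2 (1 + 2 * g) := by
  have : Nonempty (Fin n) := ⟨v0⟩
  have h1 := dec_lower v0 hp (by omega) (by omega) hπ
    (dag_dec hD (by linarith) hL hj hf h)
  have h2 : (2 : ℝ) ^ n ≤ (1 + 2 * g) ^ (d + 1) := by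
    refine h1.trans ?_
    rw [pow_succ, mul_comm]
    exact mul_le_mul_of_nonneg_left (by linarith) (pow_nonneg (by linarith) _)
  have h3 := Real.logb_le_logb_of_le (b := 2) (by norm_num) (by positivity) h2
  rw [Real.logb_pow, Real.logb_pow, Real.logb_self_eq_one (by norm_num)] at h3
  push_cast at h3
  linarith

/-- the number of lines -/
lemma length_lower {T : ℕ} {P : ℕ → Finset ℕ} (hlt : ∀ i < T, ∀ j ∈ P i, j < i)
    (htwo : ∀ i < T, (P i).card ≤ 2) (hn : 25 ≤ n) {j : ℕ} (hj : j < T)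
    (h : ∀ d, Play P (range T) j d → 2 * n ≤ 5 * d) :
    (n : ℝ) * Real.logb 2 n ≤ 80 * T := by
  obtain ⟨m, hm⟩ : ∃ m, m = Nat.log 4 (n / 15) := ⟨_, rfl⟩
  have h0 : n / 15 ≠ 0 := by omega
  have h1 : 4 ^ m ≤ n / 15 := hm ▸ Nat.pow_log_le_self 4 h0
  have h2 : n / 15 < 4 ^ (m + 1) := hm ▸ Nat.lt_pow_succ_log_self (by norm_num) _
  have h3 : 15 * 4 ^ m ≤ n := by omega
  have h4 : n < 2 ^ (2 * (m + 4)) := by
    have h5 : n < 15 * 4 ^ (m + 1) := by omega
    calc n < 15 * 4 ^ (m + 1) := h5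
      _ ≤ 4 ^ 3 * 4 ^ (m + 1) := Nat.mul_le_mul_right _ (by norm_num)
      _ = 2 ^ (2 * (m + 4)) := by
          rw [← pow_add, pow_mul]
          congr 1
          ring
  have h5 : Real.logb 2 n ≤ 2 * (m + 4) := by
    have hn0 : (0 : ℝ) < n := by exact_mod_cast (show 0 < n by omega)
    have h6 : (n : ℝ) ≤ 2 ^ (2 * (m + 4)) := by exact_mod_cast h4.le
    have h7 := Real.logb_le_logb_of_le (b := 2) (by norm_num) hn0 h6
    rw [Real.logb_pow, Real.logb_self_eq_one (by norm_num)] at h7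
    push_cast at h7
    linarith
  have h6 := h _ (play_T hlt htwo m hj)
  have h7 : (2 * n : ℝ) ≤ 5 * (3 * 4 ^ m + 8 * (T : ℝ) / (m + 4)) := by
    have h8 : (2 * n : ℝ) ≤ 5 * (⌊(3 * 4 ^ m + 8 * (T : ℝ) / (m + 4) : ℝ)⌋₊ : ℝ) := by
      exact_mod_cast h6
    have h9 := Nat.floor_le (show (0 : ℝ) ≤ 3 * 4 ^ m + 8 * (T : ℝ) / (m + 4) by positivity)
    linarith
  have h8 : (15 * 4 ^ m : ℝ) ≤ n := by exact_mod_cast h3
  have h9 : (n : ℝ) ≤ 40 * T / (m + 4) := by
    have : 5 * (8 * (T : ℝ) / (m + 4)) = 40 * T / (m + 4) := by ring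
    linarith
  rw [le_div_iff₀ (by positivity)] at h9
  have h10 : (n : ℝ) * Real.logb 2 n ≤ n * (2 * (m + 4)) :=
    mul_le_mul_of_nonneg_left h5 (Nat.cast_nonneg _)
  linarith

end lower

end Pool.Agent.TH699.TS
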