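import Pool.Agent.TH699.TS.Combo

/-!
Dag-like refutations of the lifted Tseitin systems: all bounds with explicit constants.
-/

set_option autoImplicit false
set_option synthInstance.maxSize 1000

namespace Pool.Agent.TH699.TS

open Finset Pool.Agent.TH699.TD Pool.Agent.Helper600R2 Pool.Agent.H642R2.Dual

/-- The bounds for dag-like refutations of the lifted Tseitin systems. -/
lemma exists_dag {k n : ℕ} (hk : 1 ≤ k) (hn : 25 ≤ n) :
    ∃ (V : Type) (_ : Fintype V) (_ : DecidableEq V) (Φ : Finset (Clause V)),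
      n ≤ Fintype.card V ∧ Fintype.card V ≤ 2 ^ (3 * k + 9) * n ∧ 2 ^ 16 ≤ Fintype.card V ∧
      Φ.card ≤ 2 ^ 2 ^ (3 * k + 10) * n ∧ (∀ C ∈ Φ, C.card ≤ 2 ^ (3 * k + 10)) ∧
      (∀ x, ∃ C ∈ Φ, ¬ Sat C x) ∧
      (∃ t : Der V, t.IsRefutation (ClauseAx Φ) ∧ t.All (Mod2Line (k + 1)) ∧
        nodes t ≤ 2 ^ 2 ^ (3 * k + 13) * n) ∧
      (∀ (r T : ℕ) (L : ℕ → Line V) (P : ℕ → Finset ℕ), IsDag (ClauseAx Φ) T L P →
        (∀ i < T, Combo r (ModLine k) (L i)) →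
        (∀ j < T, (∀ x, L j x = false) → ∀ d, Play P (range T) j d →
          (Fintype.card V : ℝ) / (2 ^ (3 * k + 13) * (r + 1)) ≤ d + 1) ∧
        ((∀ i < T, (P i).card ≤ 2) →
          (n / (r + 1) : ℝ) * Real.logb 2 (n / (r + 1)) ≤ 250 * T)) := by
  obtain ⟨π, hπ⟩ := exists_perm hn
  have v0 : Fin n := ⟨0, by omega⟩
  obtain ⟨N, hN⟩ : ∃ N, N = Fintype.card (Fin (k + 1) × Wt n (60 * 4 ^ (k + 1))) := ⟨_, rfl⟩
  have hN1 := N_upper k n
  have hN2 := N_lower k n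
  have hN3 := N_big hk hn
  have hw : 4 * ((k + 1) * (60 * 4 ^ (k + 1) + 1)) ≤ 2 ^ (3 * k + 10) := by
    calc 4 * ((k + 1) * (60 * 4 ^ (k + 1) + 1)) ≤ 4 * 2 ^ (3 * k + 8) :=
          Nat.mul_le_mul_left _ (base_size k)
      _ = 2 ^ (3 * k + 10) := by
          rw [show 4 = 2 ^ 2 from rfl, ← pow_add]
          congr 1
          ring
  have h2w : 2 ^ (4 * ((k + 1) * (60 * 4 ^ (k + 1) + 1))) * n ≤ 2 ^ 2 ^ (3 * k + 10) * n :=
    Nat.mul_le_mul_right _ (Nat.pow_le_pow_right (by norm_num) hw)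
  have h13 : 2 ^ (3 * k + 13) = 8 * 2 ^ (3 * k + 10) := by
    rw [show 3 * k + 13 = (3 * k + 10) + 3 from rfl, pow_add]
    ring
  have h10 : 1 ≤ 2 ^ (3 * k + 10) := Nat.one_le_two_pow
  have h3w : 2 ^ (4 * ((k + 1) * (60 * 4 ^ (k + 1) + 1)) + 2) * n ≤ 2 ^ 2 ^ (3 * k + 13) * n :=
    Nat.mul_le_mul_right _ (Nat.pow_le_pow_right (by norm_num) (by omega))
  have h4w : 4 * ((k + 1) * (60 * 4 ^ (k + 1) + 1)) + 2 ≤ 2 ^ (3 * k + 13) := by omega
  obtain ⟨t0, ht1, ht2, ht3, ht4⟩ :=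
    tree_short (b := 60 * 4 ^ (k + 1)) π v0 (show 1 ≤ k + 1 by omega)
  -- the norm of inequalities
  obtain ⟨g, hg⟩ : ∃ g : ℝ, g = 1 +
      ((6 * (2 * (Fintype.card (Fin (k + 1) × Wt n (60 * 4 ^ (k + 1))) + 1) ^ k) ^ 3 : ℕ) : ℝ) *
        ((k + 1 : ℕ) * 2 ^ (k + 1)) := ⟨_, rfl⟩
  rw [← hN] at hN1 hN2 hN3
  have hgN : 1 + 2 * g ≤ (N : ℝ) ^ (4 * k) := by
    have h1 := G_upper hk hN3
    have h2 : ((3 + 2 * (6 * (2 * (N + 1) ^ k) ^ 3 * ((k + 1) * 2 ^ (k + 1))) : ℕ) : ℝ) ≤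
        ((N ^ (4 * k) : ℕ) : ℝ) := by exact_mod_cast h1
    rw [hg, ← hN]
    push_cast at h2 ⊢
    linarith
  have hg1 : 1 ≤ g := by
    rw [hg]
    have : (0 : ℝ) ≤
      ((6 * (2 * (Fintype.card (Fin (k + 1) × Wt n (60 * 4 ^ (k + 1))) + 1) ^ k) ^ 3 : ℕ) : ℝ) *
        ((k + 1 : ℕ) * 2 ^ (k + 1)) := by positivity
    linarith
  have hN0 : (0 : ℝ) < N := by
    have : 0 < N := lt_of_lt_of_le (by norm_num) hN3
    exact_mod_cast this
  have hN1' : (N : ℝ) ≤ 2 ^ (3 * k + 9) * n := by exact_mod_cast hN1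
  have hlN : 0 < Real.logb 2 N := by
    refine Real.logb_pos (by norm_num) ?_
    have : 1 < N := lt_of_lt_of_le (by norm_num) hN3
    exact_mod_cast this
  have hk4 : (4 * k : ℝ) ≤ 2 ^ (k + 1) := by exact_mod_cast four_k_le hk
  have hlg2 : Real.logb 2 (1 + 2 * g) ≤ 2 ^ (k + 1) * Real.logb 2 N := by
    calc Real.logb 2 (1 + 2 * g) ≤ Real.logb 2 ((N : ℝ) ^ (4 * k)) :=
          Real.logb_le_logb_of_le (by norm_num) (by linarith) hgN
      _ = (4 * k : ℝ) * Real.logb 2 N := by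
          rw [Real.logb_pow]
          push_cast
          rfl
      _ ≤ _ := mul_le_mul_of_nonneg_right hk4 hlN.le
  have hlg1 : Real.logb 2 (1 + g) ≤ 2 ^ (k + 1) * Real.logb 2 N :=
    (Real.logb_le_logb_of_le (by norm_num) (by linarith) (by linarith)).trans hlg2
  have hlines : ∀ L : Line (Fin (k + 1) × Wt n (60 * 4 ^ (k + 1))),
      PolyLine k L ∨ ModLine k L → NofLine g L := by
    rintro L (hL | hL)
    · have := hL.norm (p := k + 1) (Nat.lt_succ_self k)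
      rw [hg]
      exact this
    · refine NofLine.mono (hL.norm (p := k + 1) (Nat.lt_succ_self k)) ?_
      have h1 : (1 : ℝ) ≤
        ((6 * (2 * (Fintype.card (Fin (k + 1) × Wt n (60 * 4 ^ (k + 1))) + 1) ^ k) ^ 3 : ℕ) : ℝ) *
          ((k + 1 : ℕ) * 2 ^ (k + 1)) := by
        have : 1 ≤ (6 * (2 * (Fintype.card (Fin (k + 1) × Wt n (60 * 4 ^ (k + 1))) + 1) ^ k) ^ 3) *
            ((k + 1) * 2 ^ (k + 1)) := Nat.one_le_iff_ne_zero.2 (by positivity)
        exact_mod_cast this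
      rw [hg]
      linarith
  have hp : 2 ≤ k + 1 := by omega
  have hloc := fun (L : Line (Fin (k + 1) × Wt n (60 * 4 ^ (k + 1))))
    (h : ClauseAx (cnf π v0) L) => ClauseAx.loc π v0 h
  have h8k : (2 : ℝ) ^ (3 * k + 13) = 2 ^ (3 * k + 9) * 16 := by
    rw [show (16 : ℝ) = 2 ^ 4 by norm_num, ← pow_add]
  have hlog5 : Real.logb 2 (1 + 2 * 2) ≤ 7 / 3 := by
    rw [Real.logb_le_iff_le_rpow (by norm_num) (by norm_num)]
    have h6 : ((5 : ℝ) ^ (3 : ℕ)) ≤ ((2 : ℝ) ^ (7 / 3 : ℝ)) ^ (3 : ℕ) := by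
      rw [← Real.rpow_natCast ((2 : ℝ) ^ (7 / 3 : ℝ)), ← Real.rpow_mul (by norm_num)]
      norm_num
    have h7 := le_of_pow_le_pow_left₀ (by norm_num) (by positivity) h6
    linarith
  refine ⟨Fin (k + 1) × Wt n (60 * 4 ^ (k + 1)), inferInstance, inferInstance, cnf π v0, ?_, ?_,
    ?_, (card_cnf π v0).trans h2w, fun C hC => (width_cnf π v0 hC).trans hw, cnf_unsat π v0, ?_,
    ?_⟩
  · rw [← hN]; exact hN2
  · rw [← hN]; exact hN1
  · rw [← hN]; exact hN3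
  · exact ⟨t0, ht1, ht2, ht3.trans h3w⟩
  · intro r T L P hD hL
    rw [← hN]
    have hr0 : (0 : ℝ) < r + 1 := by positivity
    have hlow : ∀ j < T, (∀ x, L j x = false) → ∀ d, Play P (range T) j d →
        (n : ℝ) ≤ (d + 1) * ((r + 1) * (7 / 3)) := by
      intro j hj hf d hd
      have hg5 : (1 : ℝ) ≤ (1 + 2 * 2) ^ r := one_le_pow₀ (by norm_num)
      have key := dag_lower_g v0 hp hn hπ hg5 (IsDag.mono hloc hD)
        (fun i hi => ((hL i hi).mono fun M hM =>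
          hM.norm (p := k + 1) (Nat.lt_succ_self k)).norm (by norm_num)) hj hf hd
      have hd0 : (0 : ℝ) ≤ d + 1 := by positivity
      refine key.trans (mul_le_mul_of_nonneg_left ?_ hd0)
      exact (logb_combo (g := 2) (by norm_num) r).trans
        (mul_le_mul_of_nonneg_left hlog5 hr0.le)
    refine ⟨fun j hj hf d hd => ?_, fun htwo => ?_⟩
    · have key := hlow j hj hf d hd
      have hd0 : (0 : ℝ) ≤ d + 1 := by positivity
      rw [div_le_iff₀ (by positivity), h8k]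
      calc (N : ℝ) ≤ 2 ^ (3 * k + 9) * n := hN1'
        _ ≤ 2 ^ (3 * k + 9) * ((d + 1) * ((r + 1) * 16)) := by
            refine mul_le_mul_of_nonneg_left (key.trans ?_) (by positivity)
            refine mul_le_mul_of_nonneg_left ?_ hd0
            linarith
        _ = _ := by ring
    · obtain ⟨j, hj, hf⟩ := hD.final
      exact length_lower_r hD.lt htwo hj (hlow j hj hf)

end Pool.Agent.TH699.TS
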