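import Pool.Agent.TH699.TD.ProofP

/-!
Refutations of systems of constraints decompose the constant function 1 into functions of small
norm, each supported on the set of assignments which violate one constraint.
-/

set_option autoImplicit false

namespace Pool.Agent.TH699.TS

open Finset Pool.Agent.TH699.TD

section ok

variable {V ι : Type}

/-- soundness on the region `r`; the line of an axiom leaf holds (on `r`) unless one of the
constraints is violated, and `K i x = true` says that `x` violates the `i`-th constraint -/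
def OKs (K : ι → Line V) (r : Line V) : Der V → Prop
  | .ax L => ∃ i, ∀ x, r x = true → L x = false → K i x = true
  | .triv L => ∀ x, r x = true → L x = true
  | .inf L l r' => (∀ x, r x = true → l.line x = true → r'.line x = true → L x = true) ∧
      OKs K r l ∧ OKs K r r'

variable {K : ι → Line V}

lemma OKs.mono {r s : Line V} (hrs : ∀ x, s x = true → r x = true) {t : Der V}
    (h : OKs K r t) : OKs K s t := by
  induction t with
  | ax L =>
    obtain ⟨c, hc⟩ := h
    exact ⟨c, fun x hx => hc x (hrs x hx)⟩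
  | triv L => exact fun x hx => h x (hrs x hx)
  | inf L l r' ihl ihr => exact ⟨fun x hx => h.1 x (hrs x hx), ihl h.2.1, ihr h.2.2⟩

lemma OKs.zero {r : Line V} {t : Der V} (h : OKs K r t) (h0 : t.leaves = 0) :
    ∀ x, r x = true → t.line x = true := by
  induction t with
  | ax L => exact absurd h0 one_ne_zero
  | triv L => exact h
  | inf L l r' ihl ihr =>
    have h1 : l.leaves + r'.leaves = 0 := h0
    intro x hx
    exact h.1 x hx (ihl h.2.1 (by omega) x hx) (ihr h.2.2 (by omega) x hx)

lemma OKs.one [Nonempty ι] {r : Line V} {t : Der V} (h : OKs K r t) (h0 : t.leaves ≤ 1) :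
    ∃ i, ∀ x, r x = true → t.line x = false → K i x = true := by
  induction t with
  | ax L => exact h
  | triv L =>
    obtain ⟨i⟩ : Nonempty ι := inferInstance
    refine ⟨i, fun x hx hL => ?_⟩
    have h2 : L x = true := h x hx
    have h3 : L x = false := hL
    rw [h2] at h3
    cases h3
  | inf L l r' ihl ihr =>
    have h1 : l.leaves + r'.leaves ≤ 1 := h0
    rcases Nat.eq_zero_or_pos l.leaves with hl | hl
    · obtain ⟨c, hc⟩ := ihr h.2.2 (by omega)
      refine ⟨c, fun x hx hL => hc x hx ?_⟩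
      by_contra hne
      rw [Bool.not_eq_false] at hne
      have h2 : L x = true := h.1 x hx (h.2.1.zero hl x hx) hne
      have h3 : L x = false := hL
      rw [h2] at h3
      cases h3
    · obtain ⟨c, hc⟩ := ihl h.2.1 (by omega)
      refine ⟨c, fun x hx hL => hc x hx ?_⟩
      by_contra hne
      rw [Bool.not_eq_false] at hne
      have h2 : L x = true := h.1 x hx hne (h.2.2.zero (by omega) x hx)
      have h3 : L x = false := hL
      rw [h2] at h3
      cases h3

/-- splitting off a subtree -/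
lemma OKs.split {r : Line V} {p : Line V → Prop} {a : ℕ} (ha : 1 ≤ a) {t : Der V}
    (h : OKs K r t) (hp : t.All p) (hat : a < t.leaves) :
    ∃ R t' : Der V, OKs K r R ∧ R.All p ∧ R.leaves ≤ a ∧ a < 2 * R.leaves ∧
      OKs K (fun x => r x && R.line x) t' ∧ t'.All p ∧ t'.line = t.line ∧
      t'.leaves + R.leaves = t.leaves := by
  induction t with
  | ax L =>
    have h1 : a < 1 := hat
    omega
  | triv L =>
    have h1 : a < 0 := hat
    omega
  | inf L l r' ihl ihr =>
    have h1 : a < l.leaves + r'.leaves := hat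
    have hsub : ∀ (R : Der V) (x : V → Bool), (r x && R.line x) = true → r x = true :=
      fun R x hx => (Bool.and_eq_true_iff.1 hx).1
    by_cases hl : a < l.leaves
    · obtain ⟨R, t', h2, h3, h4, h5, h6, h7, h8, h9⟩ := ihl h.2.1 hp.2.1 hl
      refine ⟨R, .inf L t' r', h2, h3, h4, h5, ⟨fun x hx => ?_, h6, h.2.2.mono (hsub R)⟩,
        ⟨hp.1, h7, hp.2.2⟩, rfl, ?_⟩
      · rw [h8]
        exact h.1 x (hsub R x hx)
      · show t'.leaves + r'.leaves + R.leaves = l.leaves + r'.leaves
        omega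
    by_cases hr : a < r'.leaves
    · obtain ⟨R, t', h2, h3, h4, h5, h6, h7, h8, h9⟩ := ihr h.2.2 hp.2.2 hr
      refine ⟨R, .inf L l t', h2, h3, h4, h5, ⟨fun x hx => ?_, h.2.1.mono (hsub R), h6⟩,
        ⟨hp.1, hp.2.1, h7⟩, rfl, ?_⟩
      · rw [h8]
        exact h.1 x (hsub R x hx)
      · show l.leaves + t'.leaves + R.leaves = l.leaves + r'.leaves
        omega
    rcases le_total r'.leaves l.leaves with hle | hle
    · refine ⟨l, .inf L (.triv l.line) r', h.2.1, hp.2.1, by omega, by omega,
        ⟨fun x hx => h.1 x (hsub l x hx), fun x hx => (Bool.and_eq_true_iff.1 hx).2,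
          h.2.2.mono (hsub l)⟩, ⟨hp.1, hp.2.1.line, hp.2.2⟩, rfl, ?_⟩
      show 0 + r'.leaves + l.leaves = l.leaves + r'.leaves
      omega
    · refine ⟨r', .inf L l (.triv r'.line), h.2.2, hp.2.2, by omega, by omega,
        ⟨fun x hx => h.1 x (hsub r' x hx), h.2.1.mono (hsub r'),
          fun x hx => (Bool.and_eq_true_iff.1 hx).2⟩, ⟨hp.1, hp.2.1, hp.2.2.line⟩, rfl, ?_⟩
      show l.leaves + 0 + r'.leaves = l.leaves + r'.leaves
      omega

end ok

/-! ### Decompositions -/

section dec

variable {p : ℕ} {W ι : Type} [Fintype ι]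

/-- `φ` is a sum of functions `h i` of total norm at most `c`, where `h i` vanishes on the
assignments that satisfy the `i`-th constraint -/
def Dec (K : ι → Line (Fin p × W)) (φ : (Fin p → (W → Bool)) → ℂ) (c : ℝ) : Prop :=
  ∃ (h : ι → (Fin p → (W → Bool)) → ℂ) (C : ι → ℝ), (∀ i, NBp (h i) (C i)) ∧ ∑ i, C i ≤ c ∧
    (∀ i y, K i (fun v => y v.1 v.2) = false → h i y = 0) ∧ ∀ y, φ y = ∑ i, h i y

variable {K : ι → Line (Fin p × W)} {φ ψ : (Fin p → (W → Bool)) → ℂ} {c d : ℝ}

lemma Dec.nonneg (h : Dec K φ c) : 0 ≤ c := by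
  obtain ⟨h, C, h1, h2, -, -⟩ := h
  exact le_trans (Finset.sum_nonneg fun i _ => (h1 i).nonneg) h2

lemma Dec.mono (h : Dec K φ c) (hcd : c ≤ d) : Dec K φ d := by
  obtain ⟨h, C, h1, h2, h3, h4⟩ := h
  exact ⟨h, C, h1, h2.trans hcd, h3, h4⟩

lemma Dec.congr (h : Dec K φ c) (he : ∀ y, ψ y = φ y) : Dec K ψ c := by
  obtain ⟨h, C, h1, h2, h3, h4⟩ := h
  exact ⟨h, C, h1, h2, h3, fun y => (he y).trans (h4 y)⟩

lemma Dec.single (i : ι) (h : NBp φ c)
    (hs : ∀ y : Fin p → (W → Bool), K i (fun v => y v.1 v.2) = false → φ y = 0) :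
    Dec K φ c := by
  classical
  refine ⟨fun j => if j = i then φ else fun _ => 0, fun j => if j = i then c else 0, ?_, ?_, ?_,
    ?_⟩
  · intro j
    by_cases hj : j = i
    · simp only [hj, if_true]
      exact h
    · simp only [hj, if_false]
      exact NBp.zero
  · simp
  · intro j y hy
    by_cases hj : j = i
    · simp only [hj, if_true]
      exact hs y (hj ▸ hy)
    · simp only [hj, if_false]
  · intro y
    rw [Finset.sum_eq_single i]
    · simp
    · intro j _ hj
      simp [hj]
    · intro h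
      exact absurd (mem_univ _) h

lemma Dec.add (h : Dec K φ c) (h' : Dec K ψ d) : Dec K (fun y => φ y + ψ y) (c + d) := by
  obtain ⟨h, C, h1, h2, h3, h4⟩ := h
  obtain ⟨h', C', h1', h2', h3', h4'⟩ := h'
  refine ⟨fun i y => h i y + h' i y, fun i => C i + C' i, fun i => (h1 i).add (h1' i), ?_, ?_, ?_⟩
  · rw [Finset.sum_add_distrib]
    exact add_le_add h2 h2'
  · intro i y hy
    simp only
    rw [h3 i y hy, h3' i y hy, add_zero]
  · intro y
    dsimp only
    rw [Finset.sum_add_distrib, h4, h4']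

lemma Dec.mul (h : Dec K φ c) (h' : NBp ψ d) : Dec K (fun y => φ y * ψ y) (c * d) := by
  obtain ⟨h, C, h1, h2, h3, h4⟩ := h
  refine ⟨fun i y => h i y * ψ y, fun i => C i * d, fun i => (h1 i).mul h', ?_, ?_, ?_⟩
  · rw [← Finset.sum_mul]
    exact mul_le_mul_of_nonneg_right h2 h'.nonneg
  · intro i y hy
    simp only
    rw [h3 i y hy, zero_mul]
  · intro y
    dsimp only
    rw [h4, Finset.sum_mul]

lemma dec_const [Nonempty ι] {r L : Line (Fin p × W)} {i : ι}
    (h : ∀ x, r x = true → L x = false → K i x = true) {ρ g : ℝ} (hr : NBp (pm r) ρ)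
    (hL : NofLine g L) :
    Dec K (fun y => pm r y * (1 - pm L y)) (ρ * g) := by
  refine Dec.single i (hr.mul (pm_false hL)) fun y hy => ?_
  unfold pm cv
  cases h1 : r (fun v => y v.1 v.2) <;> cases h2 : L (fun v => y v.1 v.2) <;> simp
  rw [h _ h1 h2] at hy
  cases hy

lemma bals [Nonempty ι] {g : ℝ} (h : ℕ) : ∀ (t : Der (Fin p × W))
    (r : Line (Fin p × W)) (ρ : ℝ),
    OKs K r t → t.All (NofLine g) → NBp (pm r) ρ → t.leaves * 2 ^ h ≤ 3 ^ h →
    Dec K (fun y => pm r y * (1 - pm t.line y)) (ρ * g * (1 + 2 * g) ^ h) := by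
  have base : ∀ (h : ℕ) (t : Der (Fin p × W)) (r : Line (Fin p × W)) (ρ : ℝ),
    OKs K r t → t.All (NofLine g) → NBp (pm r) ρ → t.leaves ≤ 1 →
    Dec K (fun y => pm r y * (1 - pm t.line y)) (ρ * g * (1 + 2 * g) ^ h) := by
    intro h t r ρ ht hp hr h1
    obtain ⟨c, hc⟩ := ht.one h1
    have hg := (pm_false hp.line).nonneg
    refine (dec_const hc hr hp.line).mono ?_
    exact le_mul_of_one_le_right (mul_nonneg hr.nonneg hg) (one_le_pow₀ (by linarith))
  induction h with
  | zero =>
    intro t r ρ ht hp hr hle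
    exact base 0 t r ρ ht hp hr (by simpa using hle)
  | succ h ih =>
    intro t r ρ ht hp hr hle
    by_cases h1 : t.leaves ≤ 1
    · exact base _ t r ρ ht hp hr h1
    · obtain ⟨R, t', h2, h3, h4, h5, h6, h7, h8, h9⟩ :=
        OKs.split (a := 2 * t.leaves / 3) (by omega) ht hp (by omega)
      have hle' : 2 * t.leaves * 2 ^ h ≤ 3 * 3 ^ h := by
        rw [pow_succ, pow_succ] at hle
        calc 2 * t.leaves * 2 ^ h = t.leaves * (2 ^ h * 2) := by ring
          _ ≤ 3 ^ h * 3 := hle
          _ = 3 * 3 ^ h := by ring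
      have hR : R.leaves * 2 ^ h ≤ 3 ^ h := by
        have h10 : 3 * R.leaves ≤ 2 * t.leaves := by omega
        have h11 := Nat.mul_le_mul_right (2 ^ h) h10
        have h12 : 3 * (R.leaves * 2 ^ h) ≤ 3 * 3 ^ h := by
          calc 3 * (R.leaves * 2 ^ h) = 3 * R.leaves * 2 ^ h := by ring
            _ ≤ 2 * t.leaves * 2 ^ h := h11
            _ ≤ _ := hle'
        omega
      have hT : t'.leaves * 2 ^ h ≤ 3 ^ h := by
        have h10 : 3 * t'.leaves ≤ 2 * t.leaves := by omega
        have h11 := Nat.mul_le_mul_right (2 ^ h) h10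
        have h12 : 3 * (t'.leaves * 2 ^ h) ≤ 3 * 3 ^ h := by
          calc 3 * (t'.leaves * 2 ^ h) = 3 * t'.leaves * 2 ^ h := by ring
            _ ≤ 2 * t.leaves * 2 ^ h := h11
            _ ≤ _ := hle'
        omega
      have hrR : NBp (pm (fun x => r x && R.line x)) (ρ * (1 + g)) := by
        exact (hr.mul (pm_true h3.line)).congr fun y => cv_and _ _
      have e1 := ih t' _ _ h6 h7 hrR hT
      have e2 := ih R r ρ h2 h3 hr hR
      have e3 := e1.add (e2.mul (pm_false hp.line))
      refine (e3.mono (le_of_eq (by ring))).congr fun y => ?_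
      rw [h8]
      have e4 : pm (fun x => r x && R.line x) y = pm r y * pm R.line y := cv_and _ _
      rw [e4]
      ring

/-- a line which follows from one constraint -/
def Local {V : Type} (K : ι → Line V) (L : Line V) : Prop :=
  ∃ i, ∀ x, L x = false → K i x = true

omit [Fintype ι] in
lemma Sound.oks {V : Type} {K : ι → Line V} {t : Der V} (h : t.Sound (Local K)) :
    OKs K (fun _ => true) t := by
  induction t with
  | ax L =>
    obtain ⟨i, hi⟩ := h
    exact ⟨i, fun x _ hx => hi x hx⟩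
  | triv L => exact fun x _ => h x
  | inf L l r ihl ihr => exact ⟨fun x _ => h.1 x, ihl h.2.1, ihr h.2.2⟩

/-- tree-like refutations with `(3/2)^h` leaves -/
lemma tree_dec [Nonempty ι] {t : Der (Fin p × W)} (ht : t.IsRefutation (Local K)) {g : ℝ}
    (hp : t.All (NofLine g)) {h : ℕ} (hle : t.leaves * 2 ^ h ≤ 3 ^ h) :
    Dec K (fun _ => 1) (g * (1 + 2 * g) ^ h) := by
  have h1 : NBp (pm (fun _ : Fin p × W → Bool => true)) 1 := by
    refine NBp.one.congr fun y => ?_
    simp [pm, cv]
  refine ((bals h t _ 1 (Sound.oks ht.1) hp h1 hle).mono (le_of_eq (by ring))).congr fun y => ?_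
  have h2 := ht.2 (fun v => y v.1 v.2)
  simp [pm, cv, h2]

/-- the interval lemma -/
lemma board_auxs [Nonempty ι] {s l : ℕ}
    {cfg : ℕ → List (Line (Fin p × W))} (hb : IsBoard (Local K) s l cfg) {g : ℝ}
    (hg : 0 ≤ g) (hp : ∀ i ≤ l, ∀ L ∈ cfg i, NofLine g L) (k : ℕ) :
    ∀ i j, i < j → j ≤ l → j - i ≤ 2 ^ k →
    Dec K (fun y => ((all (cfg i) (fun v => y v.1 v.2) : ℝ) : ℂ) *
      (1 - ((all (cfg j) (fun v => y v.1 v.2) : ℝ) : ℂ)))
      ((1 + g) ^ s * (1 + (1 + g) ^ s) * (1 + 2 * (1 + g) ^ s) ^ k) := by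
  have hM : 1 ≤ (1 + g) ^ s := one_le_pow₀ (by linarith)
  have hall : ∀ i ≤ l, NBp (fun y : Fin p → (W → Bool) =>
      ((TD.all (cfg i) (fun v => y v.1 v.2) : ℝ) : ℂ)) ((1 + g) ^ s) :=
    fun i hi => NBp.all hg (cfg i) (hp i hi) (hb.space i hi)
  have base : ∀ i < l, Dec K (fun y => ((all (cfg i) (fun v => y v.1 v.2) : ℝ) : ℂ) *
      (1 - ((all (cfg (i + 1)) (fun v => y v.1 v.2) : ℝ) : ℂ)))
      ((1 + g) ^ s * (1 + (1 + g) ^ s)) := by
    intro i hi
    obtain ⟨C, ⟨c, hc⟩, hst⟩ := hb.step i hi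
    refine Dec.single c ((hall i hi.le).mul (hall (i + 1) hi).compl) fun y hy => ?_
    rcases all_cases (cfg i) (fun v => y v.1 v.2) with ⟨h1, h1'⟩ | ⟨h1, h1'⟩
    · rcases all_cases (cfg (i + 1)) (fun v => y v.1 v.2) with ⟨h2, h2'⟩ | ⟨h2, h2'⟩
      · rw [h1, h2]
        push_cast
        ring
      · exfalso
        obtain ⟨L, hL, hx⟩ := h2'
        have h3 : C (fun v => y v.1 v.2) = false := by
          by_contra hne
          rw [Bool.not_eq_false] at hne
          rw [hst _ hne h1' L hL] at hx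
          cases hx
        rw [hc _ h3] at hy
        cases hy
    · rw [h1]
      push_cast
      ring
  induction k with
  | zero =>
    intro i j hij hj hle
    obtain rfl : j = i + 1 := by omega
    rw [pow_zero, mul_one]
    exact base i hj
  | succ k ih =>
    intro i j hij hj hle
    by_cases h1 : j = i + 1
    · subst h1
      refine (base i hj).mono ?_
      exact le_mul_of_one_le_right (by positivity) (one_le_pow₀ (by linarith))
    · obtain ⟨m, hm⟩ : ∃ m, m = (i + j) / 2 := ⟨_, rfl⟩
      rw [pow_succ] at hle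
      have e1 := ih i m (by omega) (by omega) (by omega)
      have e2 := ih m j (by omega) hj (by omega)
      have e3 := (e1.mul (hall j hj).compl).add (e2.mul (hall i (by omega)))
      refine (e3.mono (le_of_eq (by ring))).congr fun y => ?_
      ring

/-- blackboard refutations of length `2^k` and space `s` -/
lemma board_dec [Nonempty ι] {s l : ℕ}
    {cfg : ℕ → List (Line (Fin p × W))} (hb : IsBoard (Local K) s l cfg) {g : ℝ}
    (hg : 0 ≤ g) (hp : ∀ i ≤ l, ∀ L ∈ cfg i, NofLine g L) {k : ℕ} (hk : l ≤ 2 ^ k) :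
    Dec K (fun _ => 1) ((1 + g) ^ s * (1 + (1 + g) ^ s) * (1 + 2 * (1 + g) ^ s) ^ k) := by
  have hl : 0 < l := by
    by_contra hl
    obtain rfl : l = 0 := by omega
    obtain ⟨L, hL, -⟩ := hb.final (fun _ => true)
    rw [hb.init] at hL
    simp at hL
  refine (board_auxs hb hg hp k 0 l hl le_rfl (by omega)).congr fun y => ?_
  rw [all_zero (hb.final _), all_one (c := cfg 0)]
  · push_cast
    ring
  · intro L hL
    rw [hb.init] at hL
    simp at hL

end dec

end Pool.Agent.TH699.TS
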