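import Pool.Agent.TH699.TS.Board
import Pool.Agent.TH699.TD.FinP

/-!
The lifted Tseitin systems: all bounds with explicit constants.
-/

set_option autoImplicit false
set_option synthInstance.maxSize 1000

namespace Pool.Agent.TH699.TS

open Finset Pool.Agent.TH699.TD Pool.Agent.Helper600R2 Pool.Agent.H642R2.Dual

lemma Sound.mono {V : Type} {A B : Line V → Prop} (h : ∀ L, A L → B L) :
    ∀ {t : Der V}, t.Sound A → t.Sound B
  | .ax _, ht => h _ ht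
  | .triv _, ht => ht
  | .inf _ _ _, ht => ⟨ht.1, Sound.mono h ht.2.1, Sound.mono h ht.2.2⟩

lemma IsBoard.mono {V : Type} {A B : Line V → Prop} (h : ∀ L, A L → B L) {s l : ℕ}
    {cfg : ℕ → List (Line V)} (hb : IsBoard A s l cfg) : IsBoard B s l cfg := by
  refine ⟨hb.init, hb.space, fun i hi => ?_, hb.final⟩
  obtain ⟨a, ha, h1⟩ := hb.step i hi
  exact ⟨a, h a ha, h1⟩

lemma succ_le_two_pow (k : ℕ) : k + 1 ≤ 2 ^ k := Nat.lt_two_pow_self

lemma base_size (k : ℕ) : (k + 1) * (60 * 4 ^ (k + 1) + 1) ≤ 2 ^ (3 * k + 8) := by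
  calc (k + 1) * (60 * 4 ^ (k + 1) + 1) ≤ 2 ^ k * (64 * 4 ^ (k + 1)) := by
        refine Nat.mul_le_mul (succ_le_two_pow k) ?_
        have : 1 ≤ 4 ^ (k + 1) := Nat.one_le_pow _ _ (by norm_num)
        omega
    _ = 2 ^ (3 * k + 8) := by
        rw [show 64 = 2 ^ 6 from rfl, show 4 = 2 ^ 2 from rfl, ← pow_mul, ← pow_add, ← pow_add]
        congr 1
        ring

/-- the number of variables -/
lemma N_upper (k n : ℕ) : Fintype.card (Fin (k + 1) × Wt n (60 * 4 ^ (k + 1))) ≤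
    2 ^ (3 * k + 9) * n := by
  rw [card_V]
  calc (k + 1) * (n * 2 * (60 * 4 ^ (k + 1) + 1)) =
        ((k + 1) * (60 * 4 ^ (k + 1) + 1)) * 2 * n := by ring
    _ ≤ 2 ^ (3 * k + 8) * 2 * n :=
        Nat.mul_le_mul_right _ (Nat.mul_le_mul_right _ (base_size k))
    _ = 2 ^ (3 * k + 9) * n := by rw [← pow_succ]

lemma N_lower (k n : ℕ) : n ≤ Fintype.card (Fin (k + 1) × Wt n (60 * 4 ^ (k + 1))) := by
  rw [card_V]
  calc n = 1 * (n * 1 * 1) := by ring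
    _ ≤ (k + 1) * (n * 2 * (60 * 4 ^ (k + 1) + 1)) := by
        refine Nat.mul_le_mul (by omega) (Nat.mul_le_mul (Nat.mul_le_mul_left _ (by norm_num)) ?_)
        omega

lemma N_big {k n : ℕ} (hk : 1 ≤ k) (hn : 25 ≤ n) :
    2 ^ 16 ≤ Fintype.card (Fin (k + 1) × Wt n (60 * 4 ^ (k + 1))) := by
  rw [card_V]
  have h4 : 4 ^ 2 ≤ 4 ^ (k + 1) := Nat.pow_le_pow_right (by norm_num) (by omega)
  calc 2 ^ 16 ≤ 2 * (25 * 2 * (60 * 4 ^ 2 + 1)) := by norm_num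
    _ ≤ (k + 1) * (n * 2 * (60 * 4 ^ (k + 1) + 1)) := by
        refine Nat.mul_le_mul (by omega) (Nat.mul_le_mul (Nat.mul_le_mul_right _ hn) ?_)
        omega

/-- the norm of the inequalities -/
lemma G_upper {k N : ℕ} (hk : 1 ≤ k) (hN : 2 ^ 16 ≤ N) :
    3 + 2 * (6 * (2 * (N + 1) ^ k) ^ 3 * ((k + 1) * 2 ^ (k + 1))) ≤ N ^ (4 * k) := by
  obtain ⟨G, hG⟩ : ∃ G, G = 6 * (2 * (N + 1) ^ k) ^ 3 * ((k + 1) * 2 ^ (k + 1)) := ⟨_, rfl⟩
  have hG1 : 1 ≤ G := by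
    rw [hG]
    exact Nat.one_le_iff_ne_zero.2 (by positivity)
  have hNN : N + 1 ≤ 2 * N := by omega
  rw [← hG]
  calc 3 + 2 * G ≤ 5 * G := by omega
    _ ≤ 5 * (6 * (2 * (2 * N) ^ k) ^ 3 * (2 ^ k * 2 ^ (k + 1))) := by
        refine Nat.mul_le_mul_left _ ?_
        rw [hG]
        refine Nat.mul_le_mul (Nat.mul_le_mul_left _ (Nat.pow_le_pow_left ?_ 3))
          (Nat.mul_le_mul_right _ (succ_le_two_pow k))
        exact Nat.mul_le_mul_left _ (Nat.pow_le_pow_left hNN k)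
    _ = 240 * (2 ^ (5 * k + 1) * N ^ (3 * k)) := by
        rw [mul_pow 2 N k, mul_pow 2 (2 ^ k * N ^ k) 3, mul_pow (2 ^ k) (N ^ k) 3, ← pow_mul,
          ← pow_mul, show 5 * k + 1 = k * 3 + (k + (k + 1)) by ring, show 3 * k = k * 3 by ring,
          pow_add 2 (k * 3), pow_add 2 k (k + 1)]
        ring
    _ ≤ 2 ^ 8 * (2 ^ (5 * k + 1) * N ^ (3 * k)) := Nat.mul_le_mul_right _ (by norm_num)
    _ = 2 ^ (5 * k + 9) * N ^ (3 * k) := by
        rw [← mul_assoc, ← pow_add]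
        congr 2
        ring
    _ ≤ N ^ k * N ^ (3 * k) := by
        refine Nat.mul_le_mul_right _ ?_
        calc 2 ^ (5 * k + 9) ≤ 2 ^ (16 * k) := Nat.pow_le_pow_right (by norm_num) (by omega)
          _ = (2 ^ 16) ^ k := pow_mul _ _ _
          _ ≤ N ^ k := Nat.pow_le_pow_left hN k
    _ = N ^ (4 * k) := by
        rw [← pow_add]
        congr 1
        ring

lemma four_k_le {k : ℕ} (hk : 1 ≤ k) : 4 * k ≤ 2 ^ (k + 1) := by
  obtain ⟨j, rfl⟩ : ∃ j, k = j + 1 := ⟨k - 1, by omega⟩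
  have := succ_le_two_pow j
  rw [show j + 1 + 1 = j + 2 from rfl, pow_add]
  omega

/-- All bounds for the lifted Tseitin systems. -/
lemma exists_all {k n : ℕ} (hk : 1 ≤ k) (hn : 25 ≤ n) :
    ∃ (V : Type) (_ : Fintype V) (_ : DecidableEq V) (Φ : Finset (Clause V)),
      n ≤ Fintype.card V ∧ Fintype.card V ≤ 2 ^ (3 * k + 9) * n ∧ 2 ^ 16 ≤ Fintype.card V ∧
      Φ.card ≤ 2 ^ 2 ^ (3 * k + 10) * n ∧ (∀ C ∈ Φ, C.card ≤ 2 ^ (3 * k + 10)) ∧
      (∀ x, ∃ C ∈ Φ, ¬ Sat C x) ∧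
      (∃ t : Der V, t.IsRefutation (ClauseAx Φ) ∧ t.All (Mod2Line (k + 1)) ∧
        nodes t ≤ 2 ^ 2 ^ (3 * k + 13) * n) ∧
      (∃ (l : ℕ) (cfg : ℕ → List (Line V)), l ≤ 2 ^ 2 ^ (3 * k + 13) * n ∧
        IsBoard (ClauseAx Φ) (2 ^ (3 * k + 13)) l cfg ∧
        ∀ i ≤ l, ∀ L ∈ cfg i, Mod2Line (k + 1) L) ∧
      (∀ t : Der V, t.IsRefutation (ClauseAx Φ) → t.All (ModLine k) →
        (2 : ℝ) ^ (Fintype.card V / 2 ^ (3 * k + 13) : ℝ) ≤ t.leaves) ∧
      (∀ t : Der V, t.IsRefutation (ClauseAx Φ) → t.All (fun L => PolyLine k L ∨ ModLine k L) →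
        (2 : ℝ) ^ (Fintype.card V / (2 ^ (4 * k + 13) * Real.logb 2 (Fintype.card V)) : ℝ) ≤
          t.leaves) ∧
      (∀ (s l : ℕ) (cfg : ℕ → List (Line V)), IsBoard (ClauseAx Φ) s l cfg →
        (∀ i ≤ l, ∀ L ∈ cfg i, ModLine k L) →
        (Fintype.card V : ℝ) ≤ 2 ^ (3 * k + 10) * ((s + 2) * (Real.logb 2 l + 3))) ∧
      (∀ (s l : ℕ) (cfg : ℕ → List (Line V)), IsBoard (ClauseAx Φ) s l cfg →
        (∀ i ≤ l, ∀ L ∈ cfg i, PolyLine k L ∨ ModLine k L) →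
        (Fintype.card V : ℝ) ≤ 2 ^ (4 * k + 10) * ((s + 2) * (Real.logb 2 l + 3)) *
          Real.logb 2 (Fintype.card V)) := by
  obtain ⟨π, hπ⟩ := exists_perm hn
  have v0 : Fin n := ⟨0, by omega⟩
  obtain ⟨N, hN⟩ : ∃ N, N = Fintype.card (Fin (k + 1) × Wt n (60 * 4 ^ (k + 1))) := ⟨_, rfl⟩
  have hN1 := N_upper k n
  have hN2 := N_lower k n
  have hN3 := N_big hk hn
  have hw : 4 * ((k + 1) * (60 * 4 ^ (k + 1) + 1)) ≤ 2 ^ (3 * k + 10) := by
    calc 4 * ((k + 1) * (60 * 4 ^ (k + 1) + 1)) ≤ 4 * 2 ^ (3 * k + 8) :=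
          Nat.mul_le_mul_left _ (base_size k)
      _ = 2 ^ (3 * k + 10) := by
          rw [show 4 = 2 ^ 2 from rfl, ← pow_add]
          congr 1
          ring
  have h2w : 2 ^ (4 * ((k + 1) * (60 * 4 ^ (k + 1) + 1))) * n ≤ 2 ^ 2 ^ (3 * k + 10) * n :=
    Nat.mul_le_mul_right _ (Nat.pow_le_pow_right (by norm_num) hw)
  have h13 : 2 ^ (3 * k + 13) = 8 * 2 ^ (3 * k + 10) := by
    rw [show 3 * k + 13 = (3 * k + 10) + 3 from rfl, pow_add]
    ring
  have h10 : 1 ≤ 2 ^ (3 * k + 10) := Nat.one_le_two_pow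
  have h3w : 2 ^ (4 * ((k + 1) * (60 * 4 ^ (k + 1) + 1)) + 2) * n ≤ 2 ^ 2 ^ (3 * k + 13) * n :=
    Nat.mul_le_mul_right _ (Nat.pow_le_pow_right (by norm_num) (by omega))
  have h4w : 4 * ((k + 1) * (60 * 4 ^ (k + 1) + 1)) + 2 ≤ 2 ^ (3 * k + 13) := by omega
  obtain ⟨t0, ht1, ht2, ht3, ht4⟩ :=
    tree_short (b := 60 * 4 ^ (k + 1)) π v0 (show 1 ≤ k + 1 by omega)
  -- the norm of inequalities
  obtain ⟨g, hg⟩ : ∃ g : ℝ, g = 1 +
      ((6 * (2 * (Fintype.card (Fin (k + 1) × Wt n (60 * 4 ^ (k + 1))) + 1) ^ k) ^ 3 : ℕ) : ℝ) *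
        ((k + 1 : ℕ) * 2 ^ (k + 1)) := ⟨_, rfl⟩
  rw [← hN] at hN1 hN2 hN3
  have hgN : 1 + 2 * g ≤ (N : ℝ) ^ (4 * k) := by
    have h1 := G_upper hk hN3
    have h2 : ((3 + 2 * (6 * (2 * (N + 1) ^ k) ^ 3 * ((k + 1) * 2 ^ (k + 1))) : ℕ) : ℝ) ≤
        ((N ^ (4 * k) : ℕ) : ℝ) := by exact_mod_cast h1
    rw [hg, ← hN]
    push_cast at h2 ⊢
    linarith
  have hg1 : 1 ≤ g := by
    rw [hg]
    have : (0 : ℝ) ≤
      ((6 * (2 * (Fintype.card (Fin (k + 1) × Wt n (60 * 4 ^ (k + 1))) + 1) ^ k) ^ 3 : ℕ) : ℝ) *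
        ((k + 1 : ℕ) * 2 ^ (k + 1)) := by positivity
    linarith
  have hN0 : (0 : ℝ) < N := by
    have : 0 < N := lt_of_lt_of_le (by norm_num) hN3
    exact_mod_cast this
  have hN1' : (N : ℝ) ≤ 2 ^ (3 * k + 9) * n := by exact_mod_cast hN1
  have hlN : 0 < Real.logb 2 N := by
    refine Real.logb_pos (by norm_num) ?_
    have : 1 < N := lt_of_lt_of_le (by norm_num) hN3
    exact_mod_cast this
  have hk4 : (4 * k : ℝ) ≤ 2 ^ (k + 1) := by exact_mod_cast four_k_le hk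
  have hlg2 : Real.logb 2 (1 + 2 * g) ≤ 2 ^ (k + 1) * Real.logb 2 N := by
    calc Real.logb 2 (1 + 2 * g) ≤ Real.logb 2 ((N : ℝ) ^ (4 * k)) :=
          Real.logb_le_logb_of_le (by norm_num) (by linarith) hgN
      _ = (4 * k : ℝ) * Real.logb 2 N := by
          rw [Real.logb_pow]
          push_cast
          rfl
      _ ≤ _ := mul_le_mul_of_nonneg_right hk4 hlN.le
  have hlg1 : Real.logb 2 (1 + g) ≤ 2 ^ (k + 1) * Real.logb 2 N :=
    (Real.logb_le_logb_of_le (by norm_num) (by linarith) (by linarith)).trans hlg2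
  have hlines : ∀ L : Line (Fin (k + 1) × Wt n (60 * 4 ^ (k + 1))),
      PolyLine k L ∨ ModLine k L → NofLine g L := by
    rintro L (hL | hL)
    · have := hL.norm (p := k + 1) (Nat.lt_succ_self k)
      rw [hg]
      exact this
    · refine NofLine.mono (hL.norm (p := k + 1) (Nat.lt_succ_self k)) ?_
      have h1 : (1 : ℝ) ≤
        ((6 * (2 * (Fintype.card (Fin (k + 1) × Wt n (60 * 4 ^ (k + 1))) + 1) ^ k) ^ 3 : ℕ) : ℝ) *
          ((k + 1 : ℕ) * 2 ^ (k + 1)) := by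
        have : 1 ≤ (6 * (2 * (Fintype.card (Fin (k + 1) × Wt n (60 * 4 ^ (k + 1))) + 1) ^ k) ^ 3) *
            ((k + 1) * 2 ^ (k + 1)) := Nat.one_le_iff_ne_zero.2 (by positivity)
        exact_mod_cast this
      rw [hg]
      linarith
  have hp : 2 ≤ k + 1 := by omega
  have hloc := fun (L : Line (Fin (k + 1) × Wt n (60 * 4 ^ (k + 1))))
    (h : ClauseAx (cnf π v0) L) => ClauseAx.loc π v0 h
  refine ⟨Fin (k + 1) × Wt n (60 * 4 ^ (k + 1)), inferInstance, inferInstance, cnf π v0, ?_, ?_,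
    ?_, (card_cnf π v0).trans h2w, fun C hC => (width_cnf π v0 hC).trans hw, cnf_unsat π v0, ?_,
    ?_, ?_, ?_, ?_, ?_⟩
  · rw [← hN]; exact hN2
  · rw [← hN]; exact hN1
  · rw [← hN]; exact hN3
  · exact ⟨t0, ht1, ht2, ht3.trans h3w⟩
  · obtain ⟨C, hC, -⟩ := cnf_unsat (p := k + 1) (b := 60 * 4 ^ (k + 1)) π v0 (fun _ => true)
    obtain ⟨cfg, hc1, hc2⟩ := tree_board (s := 2 ^ (3 * k + 13))
      (show ClauseAx (cnf π v0) (fun _ => true) from ⟨C, hC, fun _ _ => rfl⟩) ht1 ht2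
      (ht4.trans h4w)
    exact ⟨nodes t0, cfg, ht3.trans h3w, hc1, hc2⟩
  · intro t ht hl
    rw [← hN]
    have key := leaves_lower hp hn hπ one_le_two (t := t) ⟨Sound.mono hloc ht.1, ht.2⟩
      (hl.imp fun L hL => hL.norm (p := k + 1) (Nat.lt_succ_self k))
    refine le_trans ?_ key
    refine Real.rpow_le_rpow_of_exponent_le (by norm_num) ?_
    obtain ⟨x, hx⟩ : ∃ x, x = Real.logb 2 (1 + 2 * 2) := ⟨_, rfl⟩
    have h5 : x ≤ 7 / 3 := by
      rw [hx, Real.logb_le_iff_le_rpow (by norm_num) (by norm_num)]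
      have h6 : ((5 : ℝ) ^ (3 : ℕ)) ≤ ((2 : ℝ) ^ (7 / 3 : ℝ)) ^ (3 : ℕ) := by
        rw [← Real.rpow_natCast ((2 : ℝ) ^ (7 / 3 : ℝ)), ← Real.rpow_mul (by norm_num)]
        norm_num
      have h7 := le_of_pow_le_pow_left₀ (by norm_num) (by positivity) h6
      linarith
    have h50 : 0 < x := hx ▸ Real.logb_pos (by norm_num) (by norm_num)
    rw [← hx]
    rw [div_le_div_iff₀ (by positivity) (by positivity)]
    have h8 : (2 : ℝ) ^ (3 * k + 13) = 2 ^ (3 * k + 9) * 16 := by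
      rw [show (16 : ℝ) = 2 ^ 4 by norm_num, ← pow_add]
    rw [h8]
    have h9 : (0 : ℝ) ≤ 2 ^ (3 * k + 9) * n := by positivity
    calc (N : ℝ) * (6 * x) ≤ (2 ^ (3 * k + 9) * n) * (6 * x) :=
          mul_le_mul_of_nonneg_right hN1' (by positivity)
      _ ≤ (2 ^ (3 * k + 9) * n) * 16 := by
          refine mul_le_mul_of_nonneg_left ?_ h9
          linarith
      _ = _ := by ring
  · intro t ht hl
    rw [← hN]
    have key := leaves_lower hp hn hπ hg1 (t := t) ⟨Sound.mono hloc ht.1, ht.2⟩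
      (hl.imp hlines)
    refine le_trans ?_ key
    refine Real.rpow_le_rpow_of_exponent_le (by norm_num) ?_
    have h50 : 0 < Real.logb 2 (1 + 2 * g) := Real.logb_pos (by norm_num) (by linarith)
    rw [div_le_div_iff₀ (by positivity) (by positivity)]
    have h8 : (2 : ℝ) ^ (4 * k + 13) = 2 ^ (3 * k + 9) * (8 * 2 ^ (k + 1)) := by
      rw [show (8 : ℝ) = 2 ^ 3 by norm_num, ← pow_add, ← pow_add]
      congr 1
      ring
    rw [h8]
    have h9 : (0 : ℝ) ≤ 2 ^ (3 * k + 9) * n := by positivity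
    calc (N : ℝ) * (6 * Real.logb 2 (1 + 2 * g)) ≤
        (2 ^ (3 * k + 9) * n) * (6 * Real.logb 2 (1 + 2 * g)) :=
          mul_le_mul_of_nonneg_right hN1' (by positivity)
      _ ≤ (2 ^ (3 * k + 9) * n) * (8 * (2 ^ (k + 1) * Real.logb 2 N)) := by
          refine mul_le_mul_of_nonneg_left ?_ h9
          linarith
      _ = _ := by ring
  · intro s l cfg hb hl
    rw [← hN]
    have key := board_lower hp hn hπ one_le_two (IsBoard.mono hloc hb)
      (fun i hi L hL => (hl i hi L hL).norm (p := k + 1) (Nat.lt_succ_self k))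
    have h5 : Real.logb 2 (1 + 2) ≤ 2 := by
      rw [Real.logb_le_iff_le_rpow (by norm_num) (by norm_num)]
      norm_num
    have h50 : 0 < Real.logb 2 (1 + 2) := Real.logb_pos (by norm_num) (by norm_num)
    have hpos : 0 ≤ (s + 2 : ℝ) * (Real.logb 2 l + 3) := by
      have h6 : (0 : ℝ) ≤ n := Nat.cast_nonneg n
      exact nonneg_of_mul_nonneg_left (h6.trans key) h50
    calc (N : ℝ) ≤ 2 ^ (3 * k + 9) * n := hN1'
      _ ≤ 2 ^ (3 * k + 9) * ((s + 2) * (Real.logb 2 l + 3) * 2) := by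
          refine mul_le_mul_of_nonneg_left (key.trans ?_) (by positivity)
          exact mul_le_mul_of_nonneg_left h5 hpos
      _ = _ := by
          rw [show 3 * k + 10 = (3 * k + 9) + 1 from rfl, pow_succ]
          ring
  · intro s l cfg hb hl
    rw [← hN]
    have key := board_lower hp hn hπ hg1 (IsBoard.mono hloc hb)
      (fun i hi L hL => hlines L (hl i hi L hL))
    have h50 : 0 < Real.logb 2 (1 + g) := Real.logb_pos (by norm_num) (by linarith)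
    have hpos : 0 ≤ (s + 2 : ℝ) * (Real.logb 2 l + 3) := by
      have h6 : (0 : ℝ) ≤ n := Nat.cast_nonneg n
      exact nonneg_of_mul_nonneg_left (h6.trans key) h50
    calc (N : ℝ) ≤ 2 ^ (3 * k + 9) * n := hN1'
      _ ≤ 2 ^ (3 * k + 9) * ((s + 2) * (Real.logb 2 l + 3) * (2 ^ (k + 1) * Real.logb 2 N)) := by
          refine mul_le_mul_of_nonneg_left (key.trans ?_) (by positivity)
          exact mul_le_mul_of_nonneg_left hlg1 hpos
      _ = _ := by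
          rw [show 4 * k + 10 = (3 * k + 9) + (k + 1) by ring, pow_add]
          ring

end Pool.Agent.TH699.TS
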