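import Pool.Agent.TH699.TS.Gen
import Pool.Agent.TH699.TS.Fin

/-!
Extension variables.
-/

set_option autoImplicit false
set_option synthInstance.maxSize 1000

namespace Pool.Agent.TH699.TS

open Finset Pool.Agent.TH699.TD Pool.Agent.Helper600R2 Pool.Agent.H642R2.Dual

/-- The line `L` is implied by a clause of `Φ`, or by the definition of one extension variable `w`
as the conjunction of the variables in `D w`. -/
def ExtAx {V W : Type} (Φ : Finset (Clause V)) (D : W → Finset V) (L : Line (V ⊕ W)) : Prop :=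
  (∃ C ∈ Φ, ∀ x : V ⊕ W → Bool, Sat C (fun v => x (Sum.inl v)) → L x = true) ∨
  ∃ w, ∀ x : V ⊕ W → Bool, (x (Sum.inr w) = true ↔ ∀ v ∈ D w, x (Sum.inl v) = true) → L x = true

/-- The line `L` is implied by a clause of `Φ`, or it follows from the definitions of all extension
variables, where the extension variable `e` is the Boolean function `f e` of the variables. -/
def DefAx {V E : Type} (Φ : Finset (Clause V)) (f : E → (V → Bool) → Bool) (L : Line (V ⊕ E)) :
    Prop :=
  (∃ C ∈ Φ, ∀ x : V ⊕ E → Bool, Sat C (fun v => x (Sum.inl v)) → L x = true) ∨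
  ∀ x : V → Bool, L (Sum.elim x (fun e => f e x)) = true

section up

variable {p n b : ℕ} (π : Equiv.Perm (Fin n)) (v0 : Fin n)

/-- the variables of the product number `w.2` of the edge `w.1` -/
def DD (w : (Fin n × Bool) × Fin b) : Finset (Fin p × Wt n b) :=
  univ.image fun i : Fin p => (i, (w.1, some w.2))

lemma card_DD (w : (Fin n × Bool) × Fin b) : (DD (p := p) w).card = p := by
  unfold DD
  rw [card_image_of_injective, card_univ, Fintype.card_fin]
  intro i j h
  exact congrArg Prod.fst h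

lemma mem_DD {w : (Fin n × Bool) × Fin b} {u : Fin p × Wt n b} :
    u ∈ DD (p := p) w ↔ u.2 = (w.1, some w.2) := by
  unfold DD
  rw [mem_image]
  constructor
  · rintro ⟨i, -, rfl⟩
    rfl
  · intro h
    exact ⟨u.1, mem_univ _, by rw [← h]⟩

/-- the linear form of the edge `e` in the extended variables -/
def exl (e : Fin n × Bool) (y : (Fin p × Wt n b) ⊕ ((Fin n × Bool) × Fin b) → Bool) : ZMod 2 :=
  ∑ i : Fin p, bz (y (Sum.inl (i, (e, none)))) + ∑ j : Fin b, bz (y (Sum.inr (e, j)))

lemma polyF_exl (e : Fin n × Bool) : PolyF 1 (exl (p := p) (b := b) e) := by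
  unfold exl
  exact PolyF.add (PolyF.sum _ _ fun i _ => PolyF.bit le_rfl _)
    (PolyF.sum _ _ fun j _ => PolyF.bit le_rfl _)

/-- the extended variables at `v` -/
def evs (v : Fin n) : Finset ((Fin p × Wt n b) ⊕ ((Fin n × Bool) × Fin b)) :=
  (vars π v).disjSum (cut π {v} ×ˢ univ)

lemma card_evs (v : Fin n) : (evs (p := p) (b := b) π v).card ≤ 4 * ((p + 1) * (b + 1)) := by
  unfold evs
  rw [card_disjSum, card_product, card_univ, Fintype.card_fin]
  have h1 := card_vars (p := p) (b := b) π v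
  have h2 : (cut π {v}).card * b ≤ 4 * b := Nat.mul_le_mul_right _ (card_cut_single π v)
  have h3 : 4 * ((p + 1) * (b + 1)) = 4 * (p * (b + 1)) + 4 * b + 4 := by ring
  omega

lemma bz_prod {ι : Type} [Fintype ι] (f : ι → Bool) {c : Bool} (h : c = true ↔ ∀ i, f i = true) :
    bz c = ∏ i, bz (f i) := by
  by_cases h1 : ∀ i, f i = true
  · rw [h.2 h1, Finset.prod_eq_one fun i _ => by rw [h1 i]; rfl]
    rfl
  · have h2 : c = false := by
      rw [← Bool.not_eq_true]
      exact fun h3 => h1 (h.1 h3)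
    push Not at h1
    obtain ⟨i, hi⟩ := h1
    rw [h2, Finset.prod_eq_zero (mem_univ i)]
    · rfl
    · have hi' : f i = false := by
        cases h3 : f i with
        | false => rfl
        | true => exact absurd h3 hi
      rw [hi']
      rfl

lemma gpar_exl {v : Fin n} {x : (Fin p × Wt n b) ⊕ ((Fin n × Bool) × Fin b) → Bool}
    (h : ∀ e ∈ cut π {v}, ∀ j : Fin b, (x (Sum.inr (e, j)) = true ↔
      ∀ u ∈ DD (p := p) (e, j), x (Sum.inl u) = true)) :
    gpar π exl v x = par π v (fun u => x (Sum.inl u)) := by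
  rw [gpar_eq, par_eq]
  refine Finset.sum_congr rfl fun e he => ?_
  unfold exl gam
  congr 1
  refine Finset.sum_congr rfl fun j _ => ?_
  refine bz_prod (fun i : Fin p => x (Sum.inl (i, (e, some j)))) ?_
  rw [h e he j]
  constructor
  · intro h1 i
    exact h1 _ (mem_DD.2 rfl)
  · rintro h1 ⟨i, w⟩ hu
    rw [mem_DD] at hu
    have hw : w = (e, some j) := hu
    rw [hw]
    exact h1 i

lemma gpar_congr {v : Fin n} {x y : (Fin p × Wt n b) ⊕ ((Fin n × Bool) × Fin b) → Bool}
    (h : ∀ w ∈ evs π v, y w = x w) : gpar π exl v y = gpar π exl v x := by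
  rw [gpar_eq, gpar_eq]
  refine Finset.sum_congr rfl fun e he => ?_
  unfold exl
  congr 1
  · refine Finset.sum_congr rfl fun i _ => ?_
    rw [h]
    unfold evs
    rw [inl_mem_disjSum]
    simpa [vars] using he
  · refine Finset.sum_congr rfl fun j _ => ?_
    rw [h]
    unfold evs
    rw [inr_mem_disjSum, mem_product]
    exact ⟨he, mem_univ _⟩

lemma ext_ax {v : Fin n} {x : (Fin p × Wt n b) ⊕ ((Fin n × Bool) × Fin b) → Bool}
    (h : ∃ y, gdl π v0 exl v (evs π v) x y = false) :
    ExtAx (cnf π v0) (DD (p := p) (b := b)) (gdl π v0 exl v (evs π v) x) := by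
  obtain ⟨y, hy⟩ := h
  rw [gdl_false] at hy
  rw [gpar_congr π hy.1] at hy
  have hy2 := hy.2
  clear hy y
  by_cases hc : ∀ e ∈ cut π {v}, ∀ j : Fin b, (x (Sum.inr (e, j)) = true ↔
      ∀ u ∈ DD (p := p) (e, j), x (Sum.inl u) = true)
  · left
    rw [gpar_exl π hc] at hy2
    refine ⟨wide (fun u => x (Sum.inl u)) (vars π v), (mem_cnf π v0).2 ⟨v, _, ?_, rfl⟩, ?_⟩
    · unfold viol
      rw [decide_eq_true_eq]
      exact hy2
    · intro z hz
      by_contra hne
      rw [Bool.not_eq_true, gdl_false] at hne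
      refine not_sat_wide.2 (fun w hw => ?_) hz
      have hw' : (Sum.inl w : (Fin p × Wt n b) ⊕ ((Fin n × Bool) × Fin b)) ∈ evs π v := by
        unfold evs
        rw [inl_mem_disjSum]
        exact hw
      exact (hne.1 _ hw').symm
  · right
    push Not at hc
    obtain ⟨e, he, j, hj⟩ := hc
    refine ⟨(e, j), fun z hz => ?_⟩
    by_contra hne
    rw [Bool.not_eq_true, gdl_false] at hne
    have h1 : z (Sum.inr (e, j)) = x (Sum.inr (e, j)) := by
      refine hne.1 _ ?_
      unfold evs
      rw [inr_mem_disjSum, mem_product]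
      exact ⟨he, mem_univ _⟩
    have h2 : ∀ u ∈ DD (p := p) (e, j), z (Sum.inl u) = x (Sum.inl u) := by
      intro u hu
      refine hne.1 _ ?_
      unfold evs
      rw [inl_mem_disjSum]
      rw [mem_DD] at hu
      unfold vars
      rw [mem_filter]
      refine ⟨mem_univ _, ?_⟩
      rw [hu]
      exact he
    have h3 : x (Sum.inr (e, j)) = true ↔ ∀ u ∈ DD (p := p) (e, j), x (Sum.inl u) = true := by
      rw [← h1, hz]
      refine forall_congr' fun u => forall_congr' fun hu => ?_
      rw [h2 u hu]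
    rcases hj with ⟨h4, h5⟩ | ⟨h4, h5⟩
    · obtain ⟨u, hu, h6⟩ := h5
      exact h6 (h3.1 h4 u hu)
    · exact h4 (h3.2 h5)

/-- short tree-like refutations with extension variables -/
lemma ext_short : ∃ t : Der ((Fin p × Wt n b) ⊕ ((Fin n × Bool) × Fin b)),
    t.IsRefutation (ExtAx (cnf π v0) (DD (p := p) (b := b))) ∧ t.All (Mod2Line 1) ∧
      nodes t ≤ 2 ^ (4 * ((p + 1) * (b + 1)) + 2) * n ∧ peb t ≤ 4 * ((p + 1) * (b + 1)) + 2 :=
  gtree_short π v0 le_rfl polyF_exl (card_evs π) (fun _ _ h => ext_ax π v0 h)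

end up

/-! ### Lower bounds -/

lemma DefAx.pull {V E : Type} {Φ : Finset (Clause V)} {f : E → (V → Bool) → Bool}
    {P : Line (V ⊕ E) → Prop} {Q : Line V → Prop}
    (hPQ : ∀ L, P L → Q (fun x => L (Sum.elim x (fun e => f e x)))) :
    ∀ t : Der (V ⊕ E), t.Sound (DefAx Φ f) → t.All P →
      ∃ t' : Der V, t'.Sound (ClauseAx Φ) ∧ t'.All Q ∧
        t'.line = (fun x => t.line (Sum.elim x (fun e => f e x))) ∧ t'.leaves ≤ t.leaves
  | .ax L, hs, hp => by
    rcases hs with ⟨C, hC, h⟩ | h
    · exact ⟨.ax _, ⟨C, hC, fun x hx => h _ hx⟩, hPQ L hp, rfl, le_rfl⟩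
    · exact ⟨.triv _, h, hPQ L hp, rfl, Nat.zero_le _⟩
  | .triv L, hs, hp => ⟨.triv _, fun x => hs _, hPQ L hp, rfl, Nat.zero_le _⟩
  | .inf L l r, hs, hp => by
    obtain ⟨l', h1, h2, h3, h4⟩ := DefAx.pull hPQ l hs.2.1 hp.2.1
    obtain ⟨r', h5, h6, h7, h8⟩ := DefAx.pull hPQ r hs.2.2 hp.2.2
    refine ⟨.inf (fun x => L (Sum.elim x (fun e => f e x))) l' r', ⟨fun x hx hx' => ?_, h1, h5⟩,
      ⟨hPQ L hp.1, h2, h6⟩, rfl, Nat.add_le_add h4 h8⟩
    rw [h3] at hx
    rw [h7] at hx'
    exact hs.1 _ hx hx'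

section norm

variable {p : ℕ} {W E : Type} [Fintype W] [DecidableEq W] [Fintype E] [DecidableEq E]

lemma ext_norm (hp : 2 ≤ p) {f : E → (Fin p × W → Bool) → Bool}
    (hf : ∀ e, ∃ i : Fin p, ∀ x y : Fin p × W → Bool, (∀ v, v.1 ≠ i → x v = y v) →
      f e x = f e y) {L : Line ((Fin p × W) ⊕ E)} (h : ModLine 1 L) :
    NofLine 2 (fun x => L (Sum.elim x (fun e => f e x))) := by
  classical
  obtain ⟨q, m, a, b, c, hq, ha, hL⟩ := h
  have : NeZero q := ⟨hq.ne'⟩
  obtain ⟨ex, hex⟩ : ∃ ex : (Fin p → (W → Bool)) → ((Fin p × W) ⊕ E → Bool), ex = fun y =>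
      Sum.elim (fun v => y v.1 v.2) (fun e => f e (fun v => y v.1 v.2)) := ⟨_, rfl⟩
  have hmiss : ∀ S : Finset ((Fin p × W) ⊕ E), ∃ i : Fin p, S.card ≤ 1 →
      ∀ (y : Fin p → (W → Bool)) (z : W → Bool), ∀ v ∈ S, ex (Function.update y i z) v = ex y v := by
    intro S
    by_cases hS : S.card ≤ 1
    · have : Nonempty ((Fin p × W) ⊕ E) ∨ S = ∅ := by
        rcases S.eq_empty_or_nonempty with h | ⟨v, -⟩
        · exact Or.inr h
        · exact Or.inl ⟨v⟩
      rcases this with hne | rfl
      swap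
      · exact ⟨⟨0, by omega⟩, fun _ y z v hv => absurd hv (notMem_empty v)⟩
      rcases Finset.card_le_one_iff_subset_singleton.1 hS with ⟨v, hv⟩
      rcases v with v | e
      · obtain ⟨i, hi⟩ : ∃ i : Fin p, v.1 ≠ i := by
          by_cases h0 : v.1 = ⟨0, by omega⟩
          · refine ⟨⟨1, by omega⟩, ?_⟩
            rw [h0]
            intro h1
            have := congrArg Fin.val h1
            simp at this
          · exact ⟨_, h0⟩
        refine ⟨i, fun _ y z u hu => ?_⟩
        have hu' := mem_singleton.1 (hv hu)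
        rw [hu', hex]
        simp only [Sum.elim_inl]
        rw [Function.update_of_ne hi]
      · obtain ⟨i, hi⟩ := hf e
        refine ⟨i, fun _ y z u hu => ?_⟩
        have hu' := mem_singleton.1 (hv hu)
        rw [hu', hex]
        simp only [Sum.elim_inr]
        refine hi _ _ fun v hv => ?_
        rw [Function.update_of_ne hv]
    · exact ⟨⟨0, by omega⟩, fun h => absurd h hS⟩
  choose μ hμ using hmiss
  have h1 := NBp.eq (G := Fin m → ZMod q) (X := W → Bool) (p := p)
    (fun i y j => ∑ S ∈ univ.filter (fun S => μ S = i),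
      a j S * ∏ v ∈ S, (if ex y v then 1 else 0)) (by
      intro i y z
      simp only
      funext j
      refine Finset.sum_congr rfl fun S hS => ?_
      rw [mem_filter] at hS
      by_cases hc : S.card ≤ 1
      · congr 1
        refine Finset.prod_congr rfl fun v hv => ?_
        have := hμ S hc y z v hv
        rw [hS.2] at this
        rw [this]
      · rw [ha j S (by omega), zero_mul, zero_mul]) b
  have hiff : ∀ y : Fin p → (W → Bool), (∑ i, (fun j => ∑ S ∈ univ.filter (fun S => μ S = i),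
      a j S * ∏ v ∈ S, (if ex y v then 1 else 0)) = b) ↔ L (ex y) = c := by
    intro y
    rw [hL, funext_iff]
    refine forall_congr' fun j => ?_
    rw [Finset.sum_apply, Finset.sum_fiberwise]
  show NBp (fun y : Fin p → (W → Bool) => if L (Sum.elim (fun v => y v.1 v.2)
    (fun e => f e (fun v => y v.1 v.2))) = false then (1 : ℂ) else 0) 2
  have h2 : (fun y : Fin p → (W → Bool) => if L (Sum.elim (fun v => y v.1 v.2)
    (fun e => f e (fun v => y v.1 v.2))) = false then (1 : ℂ) else 0) =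
      fun y => if L (ex y) = false then (1 : ℂ) else 0 := by
    rw [hex]
  rw [h2]
  cases c with
  | false =>
    refine (h1.mono one_le_two).congr fun y => ?_
    by_cases hy : L (ex y) = false
    · rw [if_pos hy, if_pos ((hiff y).2 hy)]
    · rw [if_neg hy, if_neg (fun h => hy ((hiff y).1 h))]
  | true =>
    refine (h1.compl.mono (by norm_num)).congr fun y => ?_
    by_cases hy : L (ex y) = true
    · rw [if_neg (by rw [hy]; simp), if_pos ((hiff y).2 hy), sub_self]
    · rw [if_pos (by simpa using hy), if_neg (fun h => hy ((hiff y).1 h)), sub_zero]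

end norm

end Pool.Agent.TH699.TS
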