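import Pool.Agent.TH699.TS.Ext

/-!
The lifted Tseitin systems with extension variables: all bounds with explicit constants.
-/

set_option autoImplicit false
set_option synthInstance.maxSize 1000

namespace Pool.Agent.TH699.TS

open Finset Pool.Agent.TH699.TD Pool.Agent.Helper600R2 Pool.Agent.H642R2.Dual

section low

variable {k n : ℕ} {π : Equiv.Perm (Fin n)} {v0 : Fin n}

lemma nof_lower (hk : 1 ≤ k) (hn : 25 ≤ n)
    (hπ : ∀ U : Finset (Fin n), U.card + 1 = n / 2 → n ≤ 60 * (cut π U).card)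
    {t : Der (Fin (k + 1) × Wt n (60 * 4 ^ (k + 1)))}
    (ht : t.IsRefutation (ClauseAx (cnf π v0))) (hl : t.All (NofLine 2)) :
    (2 : ℝ) ^ (Fintype.card (Fin (k + 1) × Wt n (60 * 4 ^ (k + 1))) / 2 ^ (3 * k + 13) : ℝ) ≤
      t.leaves := by
  obtain ⟨N, hN⟩ : ∃ N, N = Fintype.card (Fin (k + 1) × Wt n (60 * 4 ^ (k + 1))) := ⟨_, rfl⟩
  have hN1 := N_upper k n
  rw [← hN] at hN1 ⊢
  have hN1' : (N : ℝ) ≤ 2 ^ (3 * k + 9) * n := by exact_mod_cast hN1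
  have key := leaves_lower (show 2 ≤ k + 1 by omega) hn hπ one_le_two (t := t)
    ⟨Sound.mono (fun L h => ClauseAx.loc π v0 h) ht.1, ht.2⟩ hl
  refine le_trans ?_ key
  refine Real.rpow_le_rpow_of_exponent_le (by norm_num) ?_
  obtain ⟨x, hx⟩ : ∃ x, x = Real.logb 2 (1 + 2 * 2) := ⟨_, rfl⟩
  have h5 : x ≤ 7 / 3 := by
    rw [hx, Real.logb_le_iff_le_rpow (by norm_num) (by norm_num)]
    have h6 : ((5 : ℝ) ^ (3 : ℕ)) ≤ ((2 : ℝ) ^ (7 / 3 : ℝ)) ^ (3 : ℕ) := by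
      rw [← Real.rpow_natCast ((2 : ℝ) ^ (7 / 3 : ℝ)), ← Real.rpow_mul (by norm_num)]
      norm_num
    have h7 := le_of_pow_le_pow_left₀ (by norm_num) (by positivity) h6
    linarith
  have h50 : 0 < x := hx ▸ Real.logb_pos (by norm_num) (by norm_num)
  rw [← hx]
  rw [div_le_div_iff₀ (by positivity) (by positivity)]
  have h8 : (2 : ℝ) ^ (3 * k + 13) = 2 ^ (3 * k + 9) * 16 := by
    rw [show (16 : ℝ) = 2 ^ 4 by norm_num, ← pow_add]
  rw [h8]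
  have h9 : (0 : ℝ) ≤ 2 ^ (3 * k + 9) * n := by positivity
  calc (N : ℝ) * (6 * x) ≤ (2 ^ (3 * k + 9) * n) * (6 * x) :=
        mul_le_mul_of_nonneg_right hN1' (by positivity)
    _ ≤ (2 ^ (3 * k + 9) * n) * 16 := by
        refine mul_le_mul_of_nonneg_left ?_ h9
        linarith
    _ = _ := by ring

lemma poly_lower (hk : 1 ≤ k) (hn : 25 ≤ n)
    (hπ : ∀ U : Finset (Fin n), U.card + 1 = n / 2 → n ≤ 60 * (cut π U).card)
    {t : Der (Fin (k + 1) × Wt n (60 * 4 ^ (k + 1)))}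
    (ht : t.IsRefutation (ClauseAx (cnf π v0))) (hl : t.All (fun L => PolyLine k L ∨ ModLine k L)) :
    (2 : ℝ) ^ (Fintype.card (Fin (k + 1) × Wt n (60 * 4 ^ (k + 1))) / (2 ^ (4 * k + 13) *
      Real.logb 2 (Fintype.card (Fin (k + 1) × Wt n (60 * 4 ^ (k + 1))))) : ℝ) ≤ t.leaves := by
  obtain ⟨N, hN⟩ : ∃ N, N = Fintype.card (Fin (k + 1) × Wt n (60 * 4 ^ (k + 1))) := ⟨_, rfl⟩
  have hN1 := N_upper k n
  have hN3 := N_big hk hn
  obtain ⟨g, hg⟩ : ∃ g : ℝ, g = 1 +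
      ((6 * (2 * (Fintype.card (Fin (k + 1) × Wt n (60 * 4 ^ (k + 1))) + 1) ^ k) ^ 3 : ℕ) : ℝ) *
        ((k + 1 : ℕ) * 2 ^ (k + 1)) := ⟨_, rfl⟩
  rw [← hN] at hN1 hN3
  have hgN : 1 + 2 * g ≤ (N : ℝ) ^ (4 * k) := by
    have h1 := G_upper hk hN3
    have h2 : ((3 + 2 * (6 * (2 * (N + 1) ^ k) ^ 3 * ((k + 1) * 2 ^ (k + 1))) : ℕ) : ℝ) ≤
        ((N ^ (4 * k) : ℕ) : ℝ) := by exact_mod_cast h1
    rw [hg, ← hN]
    push_cast at h2 ⊢
    linarith
  have hG1 : (1 : ℝ) ≤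
      ((6 * (2 * (Fintype.card (Fin (k + 1) × Wt n (60 * 4 ^ (k + 1))) + 1) ^ k) ^ 3 : ℕ) : ℝ) *
        ((k + 1 : ℕ) * 2 ^ (k + 1)) := by
    have : 1 ≤ (6 * (2 * (Fintype.card (Fin (k + 1) × Wt n (60 * 4 ^ (k + 1))) + 1) ^ k) ^ 3) *
        ((k + 1) * 2 ^ (k + 1)) := Nat.one_le_iff_ne_zero.2 (by positivity)
    exact_mod_cast this
  have hg1 : 1 ≤ g := by
    rw [hg]
    linarith
  have hN0 : (0 : ℝ) < N := by
    have : 0 < N := lt_of_lt_of_le (by norm_num) hN3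
    exact_mod_cast this
  have hN1' : (N : ℝ) ≤ 2 ^ (3 * k + 9) * n := by exact_mod_cast hN1
  have hlN : 0 < Real.logb 2 N := by
    refine Real.logb_pos (by norm_num) ?_
    have : 1 < N := lt_of_lt_of_le (by norm_num) hN3
    exact_mod_cast this
  have hk4 : (4 * k : ℝ) ≤ 2 ^ (k + 1) := by exact_mod_cast four_k_le hk
  have hlg2 : Real.logb 2 (1 + 2 * g) ≤ 2 ^ (k + 1) * Real.logb 2 N := by
    calc Real.logb 2 (1 + 2 * g) ≤ Real.logb 2 ((N : ℝ) ^ (4 * k)) :=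
          Real.logb_le_logb_of_le (by norm_num) (by linarith) hgN
      _ = (4 * k : ℝ) * Real.logb 2 N := by
          rw [Real.logb_pow]
          push_cast
          rfl
      _ ≤ _ := mul_le_mul_of_nonneg_right hk4 hlN.le
  have hlines : ∀ L : Line (Fin (k + 1) × Wt n (60 * 4 ^ (k + 1))),
      PolyLine k L ∨ ModLine k L → NofLine g L := by
    rintro L (hL | hL)
    · have := hL.norm (p := k + 1) (Nat.lt_succ_self k)
      rw [hg]
      exact this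
    · refine NofLine.mono (hL.norm (p := k + 1) (Nat.lt_succ_self k)) ?_
      rw [hg]
      linarith
  rw [← hN]
  have key := leaves_lower (show 2 ≤ k + 1 by omega) hn hπ hg1 (t := t)
    ⟨Sound.mono (fun L h => ClauseAx.loc π v0 h) ht.1, ht.2⟩ (hl.imp hlines)
  refine le_trans ?_ key
  refine Real.rpow_le_rpow_of_exponent_le (by norm_num) ?_
  have h50 : 0 < Real.logb 2 (1 + 2 * g) := Real.logb_pos (by norm_num) (by linarith)
  rw [div_le_div_iff₀ (by positivity) (by positivity)]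
  have h8 : (2 : ℝ) ^ (4 * k + 13) = 2 ^ (3 * k + 9) * (8 * 2 ^ (k + 1)) := by
    rw [show (8 : ℝ) = 2 ^ 3 by norm_num, ← pow_add, ← pow_add]
    congr 1
    ring
  rw [h8]
  have h9 : (0 : ℝ) ≤ 2 ^ (3 * k + 9) * n := by positivity
  calc (N : ℝ) * (6 * Real.logb 2 (1 + 2 * g)) ≤
      (2 ^ (3 * k + 9) * n) * (6 * Real.logb 2 (1 + 2 * g)) :=
        mul_le_mul_of_nonneg_right hN1' (by positivity)
    _ ≤ (2 ^ (3 * k + 9) * n) * (8 * (2 ^ (k + 1) * Real.logb 2 N)) := by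
        refine mul_le_mul_of_nonneg_left ?_ h9
        linarith
    _ = _ := by ring

end low

lemma card_WW (n b : ℕ) : Fintype.card ((Fin n × Bool) × Fin b) = n * 2 * b := by
  rw [Fintype.card_prod, Fintype.card_prod, Fintype.card_fin, Fintype.card_fin, Fintype.card_bool]

lemma WW_le (k n : ℕ) : Fintype.card ((Fin n × Bool) × Fin (60 * 4 ^ (k + 1))) ≤
    Fintype.card (Fin (k + 1) × Wt n (60 * 4 ^ (k + 1))) := by
  rw [card_WW, card_V]
  calc n * 2 * (60 * 4 ^ (k + 1)) ≤ 1 * (n * 2 * (60 * 4 ^ (k + 1) + 1)) := by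
        rw [one_mul]
        exact Nat.mul_le_mul_left _ (Nat.le_succ _)
    _ ≤ _ := Nat.mul_le_mul_right _ (by omega)

lemma ext_size (k : ℕ) : 4 * ((k + 1 + 1) * (60 * 4 ^ (k + 1) + 1)) + 2 ≤ 2 ^ (3 * k + 13) := by
  have h1 : (k + 1 + 1) * (60 * 4 ^ (k + 1) + 1) ≤ 2 ^ (3 * k + 9) := by
    calc (k + 1 + 1) * (60 * 4 ^ (k + 1) + 1) ≤ 2 ^ (k + 1) * (64 * 4 ^ (k + 1)) := by
          refine Nat.mul_le_mul (succ_le_two_pow (k + 1)) ?_
          have : 1 ≤ 4 ^ (k + 1) := Nat.one_le_pow _ _ (by norm_num)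
          omega
      _ = 2 ^ (3 * k + 9) := by
          rw [show 64 = 2 ^ 6 from rfl, show 4 = 2 ^ 2 from rfl, ← pow_mul, ← pow_add, ← pow_add]
          congr 1
          ring
  have h2 : 2 ^ (3 * k + 13) = 16 * 2 ^ (3 * k + 9) := by
    rw [show 3 * k + 13 = (3 * k + 9) + 4 from rfl, pow_add]
    ring
  have h3 : 1 ≤ 2 ^ (3 * k + 9) := Nat.one_le_two_pow
  omega

/-- All bounds for the lifted Tseitin systems with extension variables. -/
lemma exists_ext {k n : ℕ} (hk : 1 ≤ k) (hn : 25 ≤ n) :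
    ∃ (V : Type) (_ : Fintype V) (_ : DecidableEq V) (Φ : Finset (Clause V))
      (blk : V → Fin (k + 1)) (W : Type) (_ : Fintype W) (_ : DecidableEq W) (D : W → Finset V),
      n ≤ Fintype.card V ∧ Fintype.card V ≤ 2 ^ (3 * k + 13) * n ∧
      Φ.card ≤ 2 ^ 2 ^ (3 * k + 13) * n ∧ (∀ C ∈ Φ, C.card ≤ 2 ^ (3 * k + 13)) ∧
      (∀ x, ∃ C ∈ Φ, ¬ Sat C x) ∧ Fintype.card W ≤ Fintype.card V ∧
      (∀ w i, ∃! v, v ∈ D w ∧ blk v = i) ∧ (∀ w, (D w).card = k + 1) ∧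
      (∃ t : Der (V ⊕ W), t.IsRefutation (ExtAx Φ D) ∧ t.All (Mod2Line 1) ∧
        nodes t ≤ 2 ^ 2 ^ (3 * k + 13) * n) ∧
      (∀ (E : Type) (_ : Fintype E) (_ : DecidableEq E) (f : E → (V → Bool) → Bool),
        (∀ e, ∃ i, ∀ x y : V → Bool, (∀ v, blk v ≠ i → x v = y v) → f e x = f e y) →
        ∀ t : Der (V ⊕ E), t.IsRefutation (DefAx Φ f) → t.All (ModLine 1) →
          (2 : ℝ) ^ (Fintype.card V / 2 ^ (3 * k + 13) : ℝ) ≤ t.leaves) ∧
      (∀ t : Der V, t.IsRefutation (ClauseAx Φ) → t.All (fun L => PolyLine k L ∨ ModLine k L) →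
        (2 : ℝ) ^ (Fintype.card V / (2 ^ (4 * k + 13) * Real.logb 2 (Fintype.card V)) : ℝ) ≤
          t.leaves) := by
  obtain ⟨π, hπ⟩ := exists_perm hn
  have v0 : Fin n := ⟨0, by omega⟩
  have hw : 4 * ((k + 1) * (60 * 4 ^ (k + 1) + 1)) ≤ 2 ^ (3 * k + 13) := by
    have h1 := ext_size k
    have h2 : 4 * ((k + 1) * (60 * 4 ^ (k + 1) + 1)) ≤
        4 * ((k + 1 + 1) * (60 * 4 ^ (k + 1) + 1)) :=
      Nat.mul_le_mul_left _ (Nat.mul_le_mul_right _ (Nat.le_succ _))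
    omega
  obtain ⟨t0, ht1, ht2, ht3, ht4⟩ := ext_short (p := k + 1) (b := 60 * 4 ^ (k + 1)) π v0
  refine ⟨Fin (k + 1) × Wt n (60 * 4 ^ (k + 1)), inferInstance, inferInstance, cnf π v0,
    Prod.fst, (Fin n × Bool) × Fin (60 * 4 ^ (k + 1)), inferInstance, inferInstance, DD,
    N_lower k n, (N_upper k n).trans (Nat.mul_le_mul_right _
      (Nat.pow_le_pow_right (by norm_num) (by omega))),
    (card_cnf π v0).trans (Nat.mul_le_mul_right _ (Nat.pow_le_pow_right (by norm_num) hw)),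
    fun C hC => (width_cnf π v0 hC).trans hw, cnf_unsat π v0, WW_le k n, ?_, card_DD,
    ⟨t0, ht1, ht2, ht3.trans (Nat.mul_le_mul_right _
      (Nat.pow_le_pow_right (by norm_num) (ext_size k)))⟩, ?_, ?_⟩
  · intro w i
    refine ⟨(i, (w.1, some w.2)), ⟨mem_DD.2 rfl, rfl⟩, ?_⟩
    rintro ⟨j, u⟩ ⟨h1, h2⟩
    rw [mem_DD] at h1
    have h3 : u = (w.1, some w.2) := h1
    have h4 : j = i := h2
    rw [h3, h4]
  · intro E iE jE f hf t ht hl
    obtain ⟨t', h1, h2, h3, h4⟩ := DefAx.pull (P := ModLine 1) (Q := NofLine 2)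
      (fun L hL => ext_norm (show 2 ≤ k + 1 by omega) hf hL) t ht.1 hl
    refine (nof_lower (π := π) (v0 := v0) hk hn hπ (t := t') ⟨h1, fun x => ?_⟩ h2).trans ?_
    · rw [h3]
      exact ht.2 _
    · exact_mod_cast h4
  · intro t ht hl
    exact poly_lower (π := π) (v0 := v0) hk hn hπ ht hl

end Pool.Agent.TH699.TS
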