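import Pool.Agent.TH699.TS.Thr

/-!
Lower bounds for refutations with linear inequalities in extension variables which miss a block.
-/

set_option autoImplicit false
set_option synthInstance.maxSize 1000

namespace Pool.Agent.TH699.TS

open Finset Pool.Agent.TH699.TD Pool.Agent.Helper600R2 Pool.Agent.H642R2.Dual

section low

variable {k n : ℕ} {π : Equiv.Perm (Fin n)} {v0 : Fin n}

lemma thr_lower (hk : 1 ≤ k) (hn : 25 ≤ n)
    (hπ : ∀ U : Finset (Fin n), U.card + 1 = n / 2 → n ≤ 60 * (cut π U).card)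
    {E : Type} [Fintype E] [DecidableEq E]
    {f : E → (Fin (k + 1) × Wt n (60 * 4 ^ (k + 1)) → Bool) → Bool}
    (hf : ∀ e, ∃ i : Fin (k + 1), ∀ x y : Fin (k + 1) × Wt n (60 * 4 ^ (k + 1)) → Bool,
      (∀ v, v.1 ≠ i → x v = y v) → f e x = f e y)
    {t : Der ((Fin (k + 1) × Wt n (60 * 4 ^ (k + 1))) ⊕ E)}
    (ht : t.IsRefutation (DefAx (cnf π v0) f)) (hl : t.All (fun L => PolyLine 1 L ∨ ModLine 1 L)) :
    (2 : ℝ) ^ (Fintype.card (Fin (k + 1) × Wt n (60 * 4 ^ (k + 1))) / (2 ^ (4 * k + 13) *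
      Real.logb 2 (Fintype.card (Fin (k + 1) × Wt n (60 * 4 ^ (k + 1))) + Fintype.card E)) : ℝ) ≤
      t.leaves := by
  obtain ⟨N, hN⟩ : ∃ N, N = Fintype.card (Fin (k + 1) × Wt n (60 * 4 ^ (k + 1))) := ⟨_, rfl⟩
  obtain ⟨M, hM⟩ : ∃ M, M = Fintype.card ((Fin (k + 1) × Wt n (60 * 4 ^ (k + 1))) ⊕ E) := ⟨_, rfl⟩
  have hMN : M = N + Fintype.card E := by rw [hM, Fintype.card_sum, hN]
  have hN1 := N_upper k n
  have hN3 := N_big hk hn
  rw [← hN] at hN1 hN3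
  have hM3 : 2 ^ 16 ≤ M := by omega
  obtain ⟨g, hg⟩ : ∃ g : ℝ, g = 1 + ((6 * (M + 1) ^ 3 : ℕ) : ℝ) *
      ((k + 1 : ℕ) * 2 ^ (k + 1)) := ⟨_, rfl⟩
  have hgN : 1 + 2 * g ≤ (M : ℝ) ^ (4 * k) := by
    have h1 := thr_G hk hM3
    have h2 : ((3 + 2 * (6 * (M + 1) ^ 3 * ((k + 1) * 2 ^ (k + 1))) : ℕ) : ℝ) ≤
        ((M ^ (4 * k) : ℕ) : ℝ) := by exact_mod_cast h1
    rw [hg]
    push_cast at h2 ⊢
    linarith
  have hG1 : (1 : ℝ) ≤ ((6 * (M + 1) ^ 3 : ℕ) : ℝ) * ((k + 1 : ℕ) * 2 ^ (k + 1)) := by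
    have : 1 ≤ (6 * (M + 1) ^ 3) * ((k + 1) * 2 ^ (k + 1)) :=
      Nat.one_le_iff_ne_zero.2 (by positivity)
    exact_mod_cast this
  have hg1 : 1 ≤ g := by
    rw [hg]
    linarith
  have hN1' : (N : ℝ) ≤ 2 ^ (3 * k + 9) * n := by exact_mod_cast hN1
  have hlM : 0 < Real.logb 2 M := by
    refine Real.logb_pos (by norm_num) ?_
    have : 1 < M := lt_of_lt_of_le (by norm_num) hM3
    exact_mod_cast this
  have hk4 : (4 * k : ℝ) ≤ 2 ^ (k + 1) := by exact_mod_cast four_k_le hk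
  have hlg2 : Real.logb 2 (1 + 2 * g) ≤ 2 ^ (k + 1) * Real.logb 2 M := by
    calc Real.logb 2 (1 + 2 * g) ≤ Real.logb 2 ((M : ℝ) ^ (4 * k)) :=
          Real.logb_le_logb_of_le (by norm_num) (by linarith) hgN
      _ = (4 * k : ℝ) * Real.logb 2 M := by
          rw [Real.logb_pow]
          push_cast
          rfl
      _ ≤ _ := mul_le_mul_of_nonneg_right hk4 hlM.le
  have hlines : ∀ L : Line ((Fin (k + 1) × Wt n (60 * 4 ^ (k + 1))) ⊕ E),
      PolyLine 1 L ∨ ModLine 1 L → NofLine g (fun x => L (Sum.elim x (fun e => f e x))) := by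
    rintro L (hL | hL)
    · have := ext_poly_norm (show 2 ≤ k + 1 by omega) hf hL
      rw [← hM] at this
      rw [hg]
      exact this
    · refine NofLine.mono (ext_norm (show 2 ≤ k + 1 by omega) hf hL) ?_
      rw [hg]
      linarith
  obtain ⟨t', h1, h2, h3, h4⟩ := DefAx.pull (P := fun L => PolyLine 1 L ∨ ModLine 1 L)
    (Q := NofLine g) hlines t ht.1 hl
  have key := leaves_lower (show 2 ≤ k + 1 by omega) hn hπ hg1 (t := t')
    ⟨Sound.mono (fun L h => ClauseAx.loc π v0 h) h1, fun x => by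
      rw [h3]
      exact ht.2 _⟩ h2
  have h4' : (t'.leaves : ℝ) ≤ t.leaves := by exact_mod_cast h4
  refine le_trans ?_ (key.trans h4')
  have hcast : (Fintype.card (Fin (k + 1) × Wt n (60 * 4 ^ (k + 1))) : ℝ) + Fintype.card E = M := by
    rw [hMN, hN]
    push_cast
    rfl
  rw [hcast, ← hN]
  refine Real.rpow_le_rpow_of_exponent_le (by norm_num) ?_
  have h50 : 0 < Real.logb 2 (1 + 2 * g) := Real.logb_pos (by norm_num) (by linarith)
  rw [div_le_div_iff₀ (by positivity) (by positivity)]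
  have h8 : (2 : ℝ) ^ (4 * k + 13) = 2 ^ (3 * k + 9) * (8 * 2 ^ (k + 1)) := by
    rw [show (8 : ℝ) = 2 ^ 3 by norm_num, ← pow_add, ← pow_add]
    congr 1
    ring
  rw [h8]
  have h9 : (0 : ℝ) ≤ 2 ^ (3 * k + 9) * n := by positivity
  calc (N : ℝ) * (6 * Real.logb 2 (1 + 2 * g)) ≤
      (2 ^ (3 * k + 9) * n) * (6 * Real.logb 2 (1 + 2 * g)) :=
        mul_le_mul_of_nonneg_right hN1' (by positivity)
    _ ≤ (2 ^ (3 * k + 9) * n) * (8 * (2 ^ (k + 1) * Real.logb 2 M)) := by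
        refine mul_le_mul_of_nonneg_left ?_ h9
        linarith
    _ = _ := by ring

end low

/-- The lower bound for inequalities together with the upper bound. -/
lemma exists_thr {k n : ℕ} (hk : 1 ≤ k) (hn : 25 ≤ n) :
    ∃ (V : Type) (_ : Fintype V) (_ : DecidableEq V) (Φ : Finset (Clause V))
      (blk : V → Fin (k + 1)),
      n ≤ Fintype.card V ∧ Fintype.card V ≤ 2 ^ (4 * k + 13) * n ∧
      Φ.card ≤ 2 ^ 2 ^ (4 * k + 13) * n ∧ (∀ C ∈ Φ, C.card ≤ 2 ^ (4 * k + 13)) ∧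
      (∀ x, ∃ C ∈ Φ, ¬ Sat C x) ∧
      (∀ (E : Type) (_ : Fintype E) (_ : DecidableEq E) (f : E → (V → Bool) → Bool),
        (∀ e, ∃ i, ∀ x y : V → Bool, (∀ v, blk v ≠ i → x v = y v) → f e x = f e y) →
        ∀ t : Der (V ⊕ E), t.IsRefutation (DefAx Φ f) →
          t.All (fun L => PolyLine 1 L ∨ ModLine 1 L) →
          (2 : ℝ) ^ (Fintype.card V / (2 ^ (4 * k + 13) *
            Real.logb 2 (Fintype.card V + Fintype.card E)) : ℝ) ≤ t.leaves) ∧
      (∃ (W : Type) (_ : Fintype W) (_ : DecidableEq W) (D : W → Finset V),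
        Fintype.card W ≤ Fintype.card V ∧ (∀ w i, ∃! v, v ∈ D w ∧ blk v = i) ∧
        ∃ t : Der (V ⊕ W), t.IsRefutation (ExtAx Φ D) ∧ t.All (Mod2Line 1) ∧
          nodes t ≤ 2 ^ 2 ^ (4 * k + 13) * n) := by
  obtain ⟨π, hπ⟩ := exists_perm hn
  have v0 : Fin n := ⟨0, by omega⟩
  have hext := ext_size k
  have hw : 4 * ((k + 1) * (60 * 4 ^ (k + 1) + 1)) ≤ 2 ^ (3 * k + 13) := by
    have h2 : 4 * ((k + 1) * (60 * 4 ^ (k + 1) + 1)) ≤
        4 * ((k + 1 + 1) * (60 * 4 ^ (k + 1) + 1)) :=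
      Nat.mul_le_mul_left _ (Nat.mul_le_mul_right _ (Nat.le_succ _))
    omega
  have e : 2 ^ (3 * k + 13) ≤ 2 ^ (4 * k + 13) := Nat.pow_le_pow_right (by norm_num) (by omega)
  obtain ⟨t0, ht1, ht2, ht3, ht4⟩ := ext_short (p := k + 1) (b := 60 * 4 ^ (k + 1)) π v0
  refine ⟨Fin (k + 1) × Wt n (60 * 4 ^ (k + 1)), inferInstance, inferInstance, cnf π v0,
    Prod.fst, N_lower k n, (N_upper k n).trans (Nat.mul_le_mul_right _
      (Nat.pow_le_pow_right (by norm_num) (by omega))),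
    (card_cnf π v0).trans (Nat.mul_le_mul_right _
      (Nat.pow_le_pow_right (by norm_num) (hw.trans e))),
    fun C hC => (width_cnf π v0 hC).trans (hw.trans e), cnf_unsat π v0, ?_,
    ⟨(Fin n × Bool) × Fin (60 * 4 ^ (k + 1)), inferInstance, inferInstance, DD, WW_le k n,
      ?_, t0, ht1, ht2, ht3.trans (Nat.mul_le_mul_right _
      (Nat.pow_le_pow_right (by norm_num) (hext.trans e)))⟩⟩
  · intro E iE jE f hf t ht hl
    exact thr_lower (π := π) (v0 := v0) hk hn hπ hf ht hl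
  · intro w i
    refine ⟨(i, (w.1, some w.2)), ⟨mem_DD.2 rfl, rfl⟩, ?_⟩
    rintro ⟨j, u⟩ ⟨h1, h2⟩
    rw [mem_DD] at h1
    have h3 : u = (w.1, some w.2) := h1
    have h4 : j = i := h2
    rw [h3, h4]

end Pool.Agent.TH699.TS
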