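import Pool.Agent.TH699.TS.Reuse
import Pool.Agent.TH699.TS.ThrFin
import Pool.Agent.TH699.TS.ExtFin

/-!
Dag-like refutations with extension variables in which few lines are used more than once.
-/

set_option autoImplicit false
set_option synthInstance.maxSize 1000

namespace Pool.Agent.TH699.TS

open Finset Pool.Agent.TH699.TD Pool.Agent.Helper600R2 Pool.Agent.H642R2.Dual

/-- substituting the definitions of the extension variables -/
lemma IsDag.pull {V E : Type} {Φ : Finset (Clause V)} (hΦ : Φ.Nonempty)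
    {f : E → (V → Bool) → Bool} {T : ℕ} {L : ℕ → Line (V ⊕ E)} {P : ℕ → Finset ℕ}
    (hD : IsDag (DefAx Φ f) T L P) :
    IsDag (ClauseAx Φ) T (fun i x => L i (Sum.elim x (fun e => f e x))) P := by
  refine ⟨hD.lt, fun i hi => ?_, ?_⟩
  · rcases hD.step i hi with h | h
    · left
      rcases h with ⟨C, hC, h⟩ | h
      · exact ⟨C, hC, fun x hx => h _ hx⟩
      · obtain ⟨C, hC⟩ := hΦ
        exact ⟨C, hC, fun x _ => h x⟩
    · exact Or.inr fun x hx => h _ hx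
  · obtain ⟨j, hj, h⟩ := hD.final
    exact ⟨j, hj, fun x => h _⟩

lemma DefAx.pull_line {V E : Type} {Φ : Finset (Clause V)} (hΦ : Φ.Nonempty)
    {f : E → (V → Bool) → Bool} {L : Line (V ⊕ E)} (h : DefAx Φ f L) :
    ClauseAx Φ (fun x => L (Sum.elim x (fun e => f e x))) := by
  rcases h with ⟨C, hC, h⟩ | h
  · exact ⟨C, hC, fun x hx => h _ hx⟩
  · obtain ⟨C, hC⟩ := hΦ
    exact ⟨C, hC, fun x _ => h x⟩

lemma Combo.pull {V E : Type} {f : E → (V → Bool) → Bool} {r : ℕ} {Q : Line (V ⊕ E) → Prop}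
    {Q' : Line V → Prop} (hQ : ∀ L, Q L → Q' (fun x => L (Sum.elim x (fun e => f e x))))
    {L : Line (V ⊕ E)} (h : Combo r Q L) :
    Combo r Q' (fun x => L (Sum.elim x (fun e => f e x))) := by
  obtain ⟨M, F, h1, h2⟩ := h
  exact ⟨fun i x => M i (Sum.elim x (fun e => f e x)), F, fun i => hQ _ (h1 i), fun x => h2 _⟩

lemma reuse_num {N n a x R ℓ D : ℝ} {m : ℕ} (hN : N ≤ 2 ^ m * n) (hR : 0 < R)
    (ha : 0 ≤ a) (hx : 0 ≤ x) (key : n ≤ (a + 2 * x + 5) * (R * ℓ)) (hℓ : 0 ≤ ℓ)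
    (hD0 : 0 < D) (hD : 2 ^ m * (5 * ℓ) ≤ D) : N / (D * R) ≤ a + x + 1 := by
  rw [div_le_iff₀ (by positivity)]
  have h1 : (a + 2 * x + 5) * (R * ℓ) ≤ (5 * (a + x + 1)) * (R * ℓ) :=
    mul_le_mul_of_nonneg_right (by linarith) (mul_nonneg hR.le hℓ)
  calc N ≤ 2 ^ m * n := hN
    _ ≤ 2 ^ m * ((5 * (a + x + 1)) * (R * ℓ)) :=
        mul_le_mul_of_nonneg_left (key.trans h1) (by positivity)
    _ = (2 ^ m * (5 * ℓ)) * ((a + x + 1) * R) := by ring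
    _ ≤ D * ((a + x + 1) * R) := mul_le_mul_of_nonneg_right hD (by positivity)
    _ = (a + x + 1) * (D * R) := by ring

lemma fin_reuse' {x s T : ℝ} (hT : 1 ≤ T) (h : x ≤ s + Real.logb 2 T + 1) :
    (2 : ℝ) ^ (x - s - 1 : ℝ) ≤ T := by
  calc (2 : ℝ) ^ (x - s - 1 : ℝ) ≤ 2 ^ Real.logb 2 T :=
        Real.rpow_le_rpow_of_exponent_le (by norm_num) (by linarith)
    _ = T := Real.rpow_logb (by norm_num) (by norm_num) (by linarith)

section low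

variable {k n : ℕ} {π : Equiv.Perm (Fin n)} {v0 : Fin n}

lemma reuse_lower' {p : ℕ} (hp : 2 ≤ p) (hn : 25 ≤ n)
    (hπ : ∀ U : Finset (Fin n), U.card + 1 = n / 2 → n ≤ 60 * (cut π U).card) {g : ℝ}
    (hg : 1 ≤ g) {T : ℕ} {L : ℕ → Line (Fin p × Wt n (60 * 4 ^ p))} {P : ℕ → Finset ℕ}
    (hD : IsDag (Local (fun v : Fin n => viol (p := p) (b := 60 * 4 ^ p) π v0 v)) T L P)
    (htwo : ∀ i < T, (P i).card ≤ 2) (hL : ∀ i < T, NofLine g (L i)) {U : Finset ℕ}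
    (hU : ∀ u, u ∉ U → ¬ Local (fun v : Fin n => viol (p := p) (b := 60 * 4 ^ p) π v0 v) (L u) →
      ∀ i < T, ∀ i' < T, u ∈ P i → u ∈ P i' → i = i') :
    (n : ℝ) ≤ (U.card + 2 * Real.logb 2 T + 5) * Real.logb 2 (1 + 2 * g) := by
  have : Nonempty (Fin n) := ⟨v0⟩
  have hT : 1 ≤ T := by
    obtain ⟨j, hj, -⟩ := hD.final
    omega
  obtain ⟨c, hc⟩ : ∃ c, c = Nat.clog 2 (2 * T) := ⟨_, rfl⟩
  have h1 : 2 * T ≤ 2 ^ c := hc ▸ Nat.le_pow_clog (by norm_num) _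
  have hh : 2 * T * 2 ^ (2 * c) ≤ 3 ^ (2 * c) := by
    calc 2 * T * 2 ^ (2 * c) ≤ 2 ^ c * 2 ^ (2 * c) := Nat.mul_le_mul_right _ h1
      _ = (2 ^ 3) ^ c := by
          rw [← pow_add, ← pow_mul]
          congr 1
          ring
      _ ≤ (3 ^ 2) ^ c := Nat.pow_le_pow_left (by norm_num) c
      _ = 3 ^ (2 * c) := by rw [← pow_mul]
  have h2 := dec_lower v0 hp (by omega) (by omega) hπ
    (reuse_one hD htwo (by linarith) hL hU hh)
  have h3 : (2 : ℝ) ^ n ≤ (1 + 2 * g) ^ (2 * c + U.card + 1) := by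
    refine h2.trans ?_
    rw [pow_succ _ (2 * c + U.card), mul_comm]
    exact mul_le_mul_of_nonneg_left (by linarith) (pow_nonneg (by linarith) _)
  have h4 := Real.logb_le_logb_of_le (b := 2) (by norm_num) (by positivity) h3
  rw [Real.logb_pow, Real.logb_pow, Real.logb_self_eq_one (by norm_num)] at h4
  push_cast at h4
  have h5 := clog_le (2 * T) (by omega)
  rw [← hc] at h5
  have hT0 : (0 : ℝ) < T := by exact_mod_cast hT
  have h6 : Real.logb 2 ((2 * T : ℕ) : ℝ) = 1 + Real.logb 2 T := by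
    push_cast
    rw [Real.logb_mul (by norm_num) hT0.ne', Real.logb_self_eq_one (by norm_num)]
  rw [h6] at h5
  have h7 : 0 ≤ Real.logb 2 (1 + 2 * g) := Real.logb_nonneg (by norm_num) (by linarith)
  rw [mul_one] at h4
  refine h4.trans (mul_le_mul_of_nonneg_right ?_ h7)
  linarith

/-- the general bound -/
lemma gen_reuse (hk : 1 ≤ k) (hn : 25 ≤ n)
    (hπ : ∀ U : Finset (Fin n), U.card + 1 = n / 2 → n ≤ 60 * (cut π U).card) {g : ℝ}
    (hg : 1 ≤ g) {r T : ℕ} {L : ℕ → Line (Fin (k + 1) × Wt n (60 * 4 ^ (k + 1)))}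
    {P : ℕ → Finset ℕ} (hD : IsDag (ClauseAx (cnf π v0)) T L P)
    (htwo : ∀ i < T, (P i).card ≤ 2) (hL : ∀ i < T, Combo r (NofLine g) (L i)) {U : Finset ℕ}
    (hU : ∀ u, u ∉ U → ¬ ClauseAx (cnf π v0) (L u) →
      ∀ i < T, ∀ i' < T, u ∈ P i → u ∈ P i' → i = i') {D : ℝ} (hD0 : 0 < D)
    (hDD : 2 ^ (3 * k + 9) * (5 * Real.logb 2 (1 + 2 * g)) ≤ D) :
    (2 : ℝ) ^ (Fintype.card (Fin (k + 1) × Wt n (60 * 4 ^ (k + 1))) / (D * (r + 1)) -
      U.card - 1 : ℝ) ≤ T := by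
  have hgr : (1 : ℝ) ≤ (1 + 2 * g) ^ r := one_le_pow₀ (by linarith)
  have hr0 : (0 : ℝ) < r + 1 := by positivity
  have key := reuse_lower' (v0 := v0) (show 2 ≤ k + 1 by omega) hn hπ hgr
    (IsDag.mono (fun L h => ClauseAx.loc π v0 h) hD) htwo
    (fun i hi => (hL i hi).norm (by linarith))
    (fun u hu hA => hU u hu fun h => hA (ClauseAx.loc π v0 h))
  obtain ⟨j, hj, -⟩ := hD.final
  have hT : (1 : ℝ) ≤ T := by exact_mod_cast (show 1 ≤ T by omega)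
  have hT0 : 0 ≤ Real.logb 2 T := Real.logb_nonneg (by norm_num) hT
  have hU0 : (0 : ℝ) ≤ U.card := Nat.cast_nonneg _
  have hN1' : (Fintype.card (Fin (k + 1) × Wt n (60 * 4 ^ (k + 1))) : ℝ) ≤
      2 ^ (3 * k + 9) * n := by exact_mod_cast N_upper k n
  have hd0 : (0 : ℝ) ≤ U.card + 2 * Real.logb 2 T + 5 := by positivity
  exact fin_reuse' hT (reuse_num hN1' hr0 hU0 hT0
    (key.trans (mul_le_mul_of_nonneg_left (logb_combo hg r) hd0))
    (Real.logb_nonneg (by norm_num) (by linarith)) hD0 hDD)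

lemma log_five : Real.logb 2 (1 + 2 * 2) ≤ 7 / 3 := by
  rw [Real.logb_le_iff_le_rpow (by norm_num) (by norm_num)]
  have h6 : ((5 : ℝ) ^ (3 : ℕ)) ≤ ((2 : ℝ) ^ (7 / 3 : ℝ)) ^ (3 : ℕ) := by
    rw [← Real.rpow_natCast ((2 : ℝ) ^ (7 / 3 : ℝ)), ← Real.rpow_mul (by norm_num)]
    norm_num
  have h7 := le_of_pow_le_pow_left₀ (by norm_num) (by positivity) h6
  linarith

lemma block_const (k : ℕ) :
    (2 : ℝ) ^ (3 * k + 9) * (5 * Real.logb 2 (1 + 2 * 2)) ≤ 2 ^ (3 * k + 13) := by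
  have h1 : 5 * Real.logb 2 (1 + 2 * 2) ≤ 16 :=
    (mul_le_mul_of_nonneg_left log_five (by norm_num)).trans (by norm_num)
  have h2 : (2 : ℝ) ^ (3 * k + 13) = 2 ^ (3 * k + 9) * 16 := by
    rw [show (16 : ℝ) = 2 ^ 4 by norm_num, ← pow_add]
  rw [h2]
  exact mul_le_mul_of_nonneg_left h1 (by positivity)

lemma thr_const (k : ℕ) {x y : ℝ} (hy : 0 ≤ y) (h : x ≤ 2 ^ (k + 1) * y) :
    (2 : ℝ) ^ (3 * k + 9) * (5 * x) ≤ 2 ^ (4 * k + 13) * y := by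
  have h2 : (2 : ℝ) ^ (4 * k + 13) = 2 ^ (3 * k + 9) * (8 * 2 ^ (k + 1)) := by
    rw [show (8 : ℝ) = 2 ^ 3 by norm_num, ← pow_add, ← pow_add]
    congr 1
    ring
  rw [h2, mul_assoc]
  refine mul_le_mul_of_nonneg_left ?_ (by positivity)
  have h3 : (0 : ℝ) ≤ 2 ^ (k + 1) * y := by positivity
  linarith

/-- polynomial inequalities, without extension variables -/
lemma poly_reuse (hk : 1 ≤ k) (hn : 25 ≤ n)
    (hπ : ∀ U : Finset (Fin n), U.card + 1 = n / 2 → n ≤ 60 * (cut π U).card)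
    {r T : ℕ} {L : ℕ → Line (Fin (k + 1) × Wt n (60 * 4 ^ (k + 1)))}
    {P : ℕ → Finset ℕ} (hD : IsDag (ClauseAx (cnf π v0)) T L P)
    (htwo : ∀ i < T, (P i).card ≤ 2)
    (hL : ∀ i < T, Combo r (fun L => PolyLine k L ∨ ModLine k L) (L i)) {U : Finset ℕ}
    (hU : ∀ u, u ∉ U → ¬ ClauseAx (cnf π v0) (L u) →
      ∀ i < T, ∀ i' < T, u ∈ P i → u ∈ P i' → i = i') :
    (2 : ℝ) ^ (Fintype.card (Fin (k + 1) × Wt n (60 * 4 ^ (k + 1))) / (2 ^ (4 * k + 13) *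
      Real.logb 2 (Fintype.card (Fin (k + 1) × Wt n (60 * 4 ^ (k + 1)))) * (r + 1)) -
      U.card - 1 : ℝ) ≤ T := by
  obtain ⟨N, hN⟩ : ∃ N, N = Fintype.card (Fin (k + 1) × Wt n (60 * 4 ^ (k + 1))) := ⟨_, rfl⟩
  have hN1 := N_upper k n
  have hN3 := N_big hk hn
  obtain ⟨g, hg⟩ : ∃ g : ℝ, g = 1 +
      ((6 * (2 * (Fintype.card (Fin (k + 1) × Wt n (60 * 4 ^ (k + 1))) + 1) ^ k) ^ 3 : ℕ) : ℝ) *
        ((k + 1 : ℕ) * 2 ^ (k + 1)) := ⟨_, rfl⟩
  rw [← hN] at hN1 hN3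
  have hgN : 1 + 2 * g ≤ (N : ℝ) ^ (4 * k) := by
    have h1 := G_upper hk hN3
    have h2 : ((3 + 2 * (6 * (2 * (N + 1) ^ k) ^ 3 * ((k + 1) * 2 ^ (k + 1))) : ℕ) : ℝ) ≤
        ((N ^ (4 * k) : ℕ) : ℝ) := by exact_mod_cast h1
    rw [hg, ← hN]
    push_cast at h2 ⊢
    linarith
  have hG1 : (1 : ℝ) ≤
      ((6 * (2 * (Fintype.card (Fin (k + 1) × Wt n (60 * 4 ^ (k + 1))) + 1) ^ k) ^ 3 : ℕ) : ℝ) *
        ((k + 1 : ℕ) * 2 ^ (k + 1)) := by
    have : 1 ≤ (6 * (2 * (Fintype.card (Fin (k + 1) × Wt n (60 * 4 ^ (k + 1))) + 1) ^ k) ^ 3) *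
        ((k + 1) * 2 ^ (k + 1)) := Nat.one_le_iff_ne_zero.2 (by positivity)
    exact_mod_cast this
  have hg1 : 1 ≤ g := by
    rw [hg]
    linarith
  have hN0 : (0 : ℝ) < N := by
    have : 0 < N := lt_of_lt_of_le (by norm_num) hN3
    exact_mod_cast this
  have hN1' : (N : ℝ) ≤ 2 ^ (3 * k + 9) * n := by exact_mod_cast hN1
  have hlN : 0 < Real.logb 2 N := by
    refine Real.logb_pos (by norm_num) ?_
    have : 1 < N := lt_of_lt_of_le (by norm_num) hN3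
    exact_mod_cast this
  have hk4 : (4 * k : ℝ) ≤ 2 ^ (k + 1) := by exact_mod_cast four_k_le hk
  have hlg2 : Real.logb 2 (1 + 2 * g) ≤ 2 ^ (k + 1) * Real.logb 2 N := by
    calc Real.logb 2 (1 + 2 * g) ≤ Real.logb 2 ((N : ℝ) ^ (4 * k)) :=
          Real.logb_le_logb_of_le (by norm_num) (by linarith) hgN
      _ = (4 * k : ℝ) * Real.logb 2 N := by
          rw [Real.logb_pow]
          push_cast
          rfl
      _ ≤ _ := mul_le_mul_of_nonneg_right hk4 hlN.le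
  have hlines : ∀ L : Line (Fin (k + 1) × Wt n (60 * 4 ^ (k + 1))),
      PolyLine k L ∨ ModLine k L → NofLine g L := by
    rintro L (hL | hL)
    · have := hL.norm (p := k + 1) (Nat.lt_succ_self k)
      rw [hg]
      exact this
    · refine NofLine.mono (hL.norm (p := k + 1) (Nat.lt_succ_self k)) ?_
      rw [hg]
      linarith
  have key := gen_reuse hk hn hπ hg1 hD htwo (fun i hi => (hL i hi).mono hlines) hU
    (D := 2 ^ (4 * k + 13) * Real.logb 2 N) (by positivity) (thr_const k hlN.le hlg2)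
  rw [← hN] at key ⊢
  exact key

/-- inequalities and systems in extension variables which miss a block -/
lemma thr_reuse (hk : 1 ≤ k) (hn : 25 ≤ n)
    (hπ : ∀ U : Finset (Fin n), U.card + 1 = n / 2 → n ≤ 60 * (cut π U).card)
    {E : Type} [Fintype E] [DecidableEq E]
    {f : E → (Fin (k + 1) × Wt n (60 * 4 ^ (k + 1)) → Bool) → Bool}
    (hf : ∀ e, ∃ i : Fin (k + 1), ∀ x y : Fin (k + 1) × Wt n (60 * 4 ^ (k + 1)) → Bool,
      (∀ v, v.1 ≠ i → x v = y v) → f e x = f e y)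
    {r T : ℕ} {L : ℕ → Line ((Fin (k + 1) × Wt n (60 * 4 ^ (k + 1))) ⊕ E)}
    {P : ℕ → Finset ℕ} (hD : IsDag (DefAx (cnf π v0) f) T L P)
    (htwo : ∀ i < T, (P i).card ≤ 2)
    (hL : ∀ i < T, Combo r (fun L => PolyLine 1 L ∨ ModLine 1 L) (L i)) {U : Finset ℕ}
    (hU : ∀ u, u ∉ U → ¬ DefAx (cnf π v0) f (L u) →
      ∀ i < T, ∀ i' < T, u ∈ P i → u ∈ P i' → i = i') :
    (2 : ℝ) ^ (Fintype.card (Fin (k + 1) × Wt n (60 * 4 ^ (k + 1))) / (2 ^ (4 * k + 13) *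
      Real.logb 2 (Fintype.card (Fin (k + 1) × Wt n (60 * 4 ^ (k + 1))) + Fintype.card E) *
      (r + 1)) - U.card - 1 : ℝ) ≤ T := by
  obtain ⟨N, hN⟩ : ∃ N, N = Fintype.card (Fin (k + 1) × Wt n (60 * 4 ^ (k + 1))) := ⟨_, rfl⟩
  obtain ⟨M, hM⟩ : ∃ M, M = Fintype.card ((Fin (k + 1) × Wt n (60 * 4 ^ (k + 1))) ⊕ E) := ⟨_, rfl⟩
  have hMN : M = N + Fintype.card E := by rw [hM, Fintype.card_sum, hN]
  have hN1 := N_upper k n
  have hN3 := N_big hk hn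
  rw [← hN] at hN1 hN3
  have hM3 : 2 ^ 16 ≤ M := by omega
  obtain ⟨g, hg⟩ : ∃ g : ℝ, g = 1 + ((6 * (M + 1) ^ 3 : ℕ) : ℝ) *
      ((k + 1 : ℕ) * 2 ^ (k + 1)) := ⟨_, rfl⟩
  have hgN : 1 + 2 * g ≤ (M : ℝ) ^ (4 * k) := by
    have h1 := thr_G hk hM3
    have h2 : ((3 + 2 * (6 * (M + 1) ^ 3 * ((k + 1) * 2 ^ (k + 1))) : ℕ) : ℝ) ≤
        ((M ^ (4 * k) : ℕ) : ℝ) := by exact_mod_cast h1
    rw [hg]
    push_cast at h2 ⊢
    linarith
  have hG1 : (1 : ℝ) ≤ ((6 * (M + 1) ^ 3 : ℕ) : ℝ) * ((k + 1 : ℕ) * 2 ^ (k + 1)) := by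
    have : 1 ≤ (6 * (M + 1) ^ 3) * ((k + 1) * 2 ^ (k + 1)) :=
      Nat.one_le_iff_ne_zero.2 (by positivity)
    exact_mod_cast this
  have hg1 : 1 ≤ g := by
    rw [hg]
    linarith
  have hN1' : (N : ℝ) ≤ 2 ^ (3 * k + 9) * n := by exact_mod_cast hN1
  have hlM : 0 < Real.logb 2 M := by
    refine Real.logb_pos (by norm_num) ?_
    have : 1 < M := lt_of_lt_of_le (by norm_num) hM3
    exact_mod_cast this
  have hk4 : (4 * k : ℝ) ≤ 2 ^ (k + 1) := by exact_mod_cast four_k_le hk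
  have hlg2 : Real.logb 2 (1 + 2 * g) ≤ 2 ^ (k + 1) * Real.logb 2 M := by
    calc Real.logb 2 (1 + 2 * g) ≤ Real.logb 2 ((M : ℝ) ^ (4 * k)) :=
          Real.logb_le_logb_of_le (by norm_num) (by linarith) hgN
      _ = (4 * k : ℝ) * Real.logb 2 M := by
          rw [Real.logb_pow]
          push_cast
          rfl
      _ ≤ _ := mul_le_mul_of_nonneg_right hk4 hlM.le
  have hlines : ∀ L : Line ((Fin (k + 1) × Wt n (60 * 4 ^ (k + 1))) ⊕ E),
      PolyLine 1 L ∨ ModLine 1 L → NofLine g (fun x => L (Sum.elim x (fun e => f e x))) := by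
    rintro L (hL | hL)
    · have := ext_poly_norm (show 2 ≤ k + 1 by omega) hf hL
      rw [← hM] at this
      rw [hg]
      exact this
    · refine NofLine.mono (ext_norm (show 2 ≤ k + 1 by omega) hf hL) ?_
      rw [hg]
      linarith
  have hne : (cnf π v0 : Finset (Clause (Fin (k + 1) × Wt n (60 * 4 ^ (k + 1))))).Nonempty := by
    obtain ⟨C, hC, -⟩ := cnf_unsat (p := k + 1) (b := 60 * 4 ^ (k + 1)) π v0 (fun _ => true)
    exact ⟨C, hC⟩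
  have key := gen_reuse hk hn hπ hg1 (hD.pull hne) htwo (fun i hi => (hL i hi).pull hlines)
    (fun u hu hA => hU u hu fun h => hA (h.pull_line hne))
    (D := 2 ^ (4 * k + 13) * Real.logb 2 M) (by positivity) (thr_const k hlM.le hlg2)
  have hcast : (Fintype.card (Fin (k + 1) × Wt n (60 * 4 ^ (k + 1))) : ℝ) + Fintype.card E = M := by
    rw [hMN, hN]
    push_cast
    rfl
  rw [hcast]
  exact key

/-- systems of linear equations in extension variables which miss a block -/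
lemma block_reuse (hk : 1 ≤ k) (hn : 25 ≤ n)
    (hπ : ∀ U : Finset (Fin n), U.card + 1 = n / 2 → n ≤ 60 * (cut π U).card)
    {E : Type} [Fintype E] [DecidableEq E]
    {f : E → (Fin (k + 1) × Wt n (60 * 4 ^ (k + 1)) → Bool) → Bool}
    (hf : ∀ e, ∃ i : Fin (k + 1), ∀ x y : Fin (k + 1) × Wt n (60 * 4 ^ (k + 1)) → Bool,
      (∀ v, v.1 ≠ i → x v = y v) → f e x = f e y)
    {r T : ℕ} {L : ℕ → Line ((Fin (k + 1) × Wt n (60 * 4 ^ (k + 1))) ⊕ E)}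
    {P : ℕ → Finset ℕ} (hD : IsDag (DefAx (cnf π v0) f) T L P)
    (htwo : ∀ i < T, (P i).card ≤ 2) (hL : ∀ i < T, Combo r (ModLine 1) (L i)) {U : Finset ℕ}
    (hU : ∀ u, u ∉ U → ¬ DefAx (cnf π v0) f (L u) →
      ∀ i < T, ∀ i' < T, u ∈ P i → u ∈ P i' → i = i') :
    (2 : ℝ) ^ (Fintype.card (Fin (k + 1) × Wt n (60 * 4 ^ (k + 1))) / (2 ^ (3 * k + 13) *
      (r + 1)) - U.card - 1 : ℝ) ≤ T := by
  have hne : (cnf π v0 : Finset (Clause (Fin (k + 1) × Wt n (60 * 4 ^ (k + 1))))).Nonempty := by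
    obtain ⟨C, hC, -⟩ := cnf_unsat (p := k + 1) (b := 60 * 4 ^ (k + 1)) π v0 (fun _ => true)
    exact ⟨C, hC⟩
  exact gen_reuse hk hn hπ (g := 2) (by norm_num) (hD.pull hne) htwo
    (fun i hi => (hL i hi).pull fun L hL => ext_norm (show 2 ≤ k + 1 by omega) hf hL)
    (fun u hu hA => hU u hu fun h => hA (h.pull_line hne)) (by positivity) (block_const k)

end low

/-- All bounds. -/
lemma exists_ext_reuse {k n : ℕ} (hk : 1 ≤ k) (hn : 25 ≤ n) :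
    ∃ (V : Type) (_ : Fintype V) (_ : DecidableEq V) (Φ : Finset (Clause V))
      (blk : V → Fin (k + 1)) (W : Type) (_ : Fintype W) (_ : DecidableEq W) (D : W → Finset V),
      n ≤ Fintype.card V ∧ Fintype.card V ≤ 2 ^ (3 * k + 13) * n ∧
      Φ.card ≤ 2 ^ 2 ^ (3 * k + 13) * n ∧ (∀ C ∈ Φ, C.card ≤ 2 ^ (3 * k + 13)) ∧
      (∀ x, ∃ C ∈ Φ, ¬ Sat C x) ∧ Fintype.card W ≤ Fintype.card V ∧
      (∀ w i, ∃! v, v ∈ D w ∧ blk v = i) ∧ (∀ w, (D w).card = k + 1) ∧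
      (∃ t : Der (V ⊕ W), t.IsRefutation (ExtAx Φ D) ∧ t.All (Mod2Line 1) ∧
        nodes t ≤ 2 ^ 2 ^ (3 * k + 13) * n) ∧
      (∀ (E : Type) (_ : Fintype E) (_ : DecidableEq E) (f : E → (V → Bool) → Bool),
        (∀ e, ∃ i, ∀ x y : V → Bool, (∀ v, blk v ≠ i → x v = y v) → f e x = f e y) →
        ∀ (r T : ℕ) (L : ℕ → Line (V ⊕ E)) (P : ℕ → Finset ℕ) (U : Finset ℕ),
          IsDag (DefAx Φ f) T L P → (∀ i < T, (P i).card ≤ 2) →
          (∀ u, u ∉ U → ¬ DefAx Φ f (L u) →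
            ∀ i < T, ∀ i' < T, u ∈ P i → u ∈ P i' → i = i') →
          ((∀ i < T, Combo r (ModLine 1) (L i)) →
            (2 : ℝ) ^ (Fintype.card V / (2 ^ (3 * k + 13) * (r + 1)) - U.card - 1 : ℝ) ≤ T) ∧
          ((∀ i < T, Combo r (fun L => PolyLine 1 L ∨ ModLine 1 L) (L i)) →
            (2 : ℝ) ^ (Fintype.card V / (2 ^ (4 * k + 13) *
              Real.logb 2 (Fintype.card V + Fintype.card E) * (r + 1)) - U.card - 1 : ℝ) ≤ T)) ∧
      (∀ (r T : ℕ) (L : ℕ → Line V) (P : ℕ → Finset ℕ) (U : Finset ℕ),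
        IsDag (ClauseAx Φ) T L P → (∀ i < T, (P i).card ≤ 2) →
        (∀ i < T, Combo r (fun L => PolyLine k L ∨ ModLine k L) (L i)) →
        (∀ u, u ∉ U → ¬ ClauseAx Φ (L u) →
          ∀ i < T, ∀ i' < T, u ∈ P i → u ∈ P i' → i = i') →
        (2 : ℝ) ^ (Fintype.card V / (2 ^ (4 * k + 13) *
          Real.logb 2 (Fintype.card V) * (r + 1)) - U.card - 1 : ℝ) ≤ T) := by
  obtain ⟨π, hπ⟩ := exists_perm hn
  have v0 : Fin n := ⟨0, by omega⟩
  have hw : 4 * ((k + 1) * (60 * 4 ^ (k + 1) + 1)) ≤ 2 ^ (3 * k + 13) := by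
    have h1 := ext_size k
    have h2 : 4 * ((k + 1) * (60 * 4 ^ (k + 1) + 1)) ≤
        4 * ((k + 1 + 1) * (60 * 4 ^ (k + 1) + 1)) :=
      Nat.mul_le_mul_left _ (Nat.mul_le_mul_right _ (Nat.le_succ _))
    omega
  obtain ⟨t0, ht1, ht2, ht3, ht4⟩ := ext_short (p := k + 1) (b := 60 * 4 ^ (k + 1)) π v0
  refine ⟨Fin (k + 1) × Wt n (60 * 4 ^ (k + 1)), inferInstance, inferInstance, cnf π v0,
    Prod.fst, (Fin n × Bool) × Fin (60 * 4 ^ (k + 1)), inferInstance, inferInstance, DD,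
    N_lower k n, (N_upper k n).trans (Nat.mul_le_mul_right _
      (Nat.pow_le_pow_right (by norm_num) (by omega))),
    (card_cnf π v0).trans (Nat.mul_le_mul_right _ (Nat.pow_le_pow_right (by norm_num) hw)),
    fun C hC => (width_cnf π v0 hC).trans hw, cnf_unsat π v0, WW_le k n, ?_, card_DD,
    ⟨t0, ht1, ht2, ht3.trans (Nat.mul_le_mul_right _
      (Nat.pow_le_pow_right (by norm_num) (ext_size k)))⟩, ?_, ?_⟩
  · intro w i
    refine ⟨(i, (w.1, some w.2)), ⟨mem_DD.2 rfl, rfl⟩, ?_⟩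
    rintro ⟨j, u⟩ ⟨h1, h2⟩
    rw [mem_DD] at h1
    have h3 : u = (w.1, some w.2) := h1
    have h4 : j = i := h2
    rw [h3, h4]
  · intro E iE jE f hf r T L P U hD htwo hU
    exact ⟨fun hL => block_reuse (π := π) (v0 := v0) hk hn hπ hf hD htwo hL hU,
      fun hL => thr_reuse (π := π) (v0 := v0) hk hn hπ hf hD htwo hL hU⟩
  · intro r T L P U hD htwo hL hU
    exact poly_reuse (π := π) (v0 := v0) hk hn hπ hD htwo hL hU

end Pool.Agent.TH699.TS
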