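import Pool.Agent.TH699.TS.ExtFin

/-!
Length and space with extension variables.
-/

set_option autoImplicit false
set_option synthInstance.maxSize 1000

namespace Pool.Agent.TH699.TS

open Finset Pool.Agent.TH699.TD Pool.Agent.Helper600R2 Pool.Agent.H642R2.Dual

section low

variable {k n : ℕ} {π : Equiv.Perm (Fin n)} {v0 : Fin n}

lemma poly_board (hk : 1 ≤ k) (hn : 25 ≤ n)
    (hπ : ∀ U : Finset (Fin n), U.card + 1 = n / 2 → n ≤ 60 * (cut π U).card) {s l : ℕ}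
    {cfg : ℕ → List (Line (Fin (k + 1) × Wt n (60 * 4 ^ (k + 1))))}
    (hb : IsBoard (ClauseAx (cnf π v0)) s l cfg)
    (hl : ∀ i ≤ l, ∀ L ∈ cfg i, PolyLine k L ∨ ModLine k L) :
    (Fintype.card (Fin (k + 1) × Wt n (60 * 4 ^ (k + 1))) : ℝ) / (2 ^ (4 * k + 13) *
      Real.logb 2 (Fintype.card (Fin (k + 1) × Wt n (60 * 4 ^ (k + 1))))) ≤
      (s + 2) * (Real.logb 2 l + 3) := by
  obtain ⟨N, hN⟩ : ∃ N, N = Fintype.card (Fin (k + 1) × Wt n (60 * 4 ^ (k + 1))) := ⟨_, rfl⟩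
  have hN1 := N_upper k n
  have hN3 := N_big hk hn
  obtain ⟨g, hg⟩ : ∃ g : ℝ, g = 1 +
      ((6 * (2 * (Fintype.card (Fin (k + 1) × Wt n (60 * 4 ^ (k + 1))) + 1) ^ k) ^ 3 : ℕ) : ℝ) *
        ((k + 1 : ℕ) * 2 ^ (k + 1)) := ⟨_, rfl⟩
  rw [← hN] at hN1 hN3
  have hgN : 1 + 2 * g ≤ (N : ℝ) ^ (4 * k) := by
    have h1 := G_upper hk hN3
    have h2 : ((3 + 2 * (6 * (2 * (N + 1) ^ k) ^ 3 * ((k + 1) * 2 ^ (k + 1))) : ℕ) : ℝ) ≤
        ((N ^ (4 * k) : ℕ) : ℝ) := by exact_mod_cast h1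
    rw [hg, ← hN]
    push_cast at h2 ⊢
    linarith
  have hG1 : (1 : ℝ) ≤
      ((6 * (2 * (Fintype.card (Fin (k + 1) × Wt n (60 * 4 ^ (k + 1))) + 1) ^ k) ^ 3 : ℕ) : ℝ) *
        ((k + 1 : ℕ) * 2 ^ (k + 1)) := by
    have : 1 ≤ (6 * (2 * (Fintype.card (Fin (k + 1) × Wt n (60 * 4 ^ (k + 1))) + 1) ^ k) ^ 3) *
        ((k + 1) * 2 ^ (k + 1)) := Nat.one_le_iff_ne_zero.2 (by positivity)
    exact_mod_cast this
  have hg1 : 1 ≤ g := by
    rw [hg]
    linarith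
  have hN1' : (N : ℝ) ≤ 2 ^ (3 * k + 9) * n := by exact_mod_cast hN1
  have hlN : 0 < Real.logb 2 N := by
    refine Real.logb_pos (by norm_num) ?_
    have : 1 < N := lt_of_lt_of_le (by norm_num) hN3
    exact_mod_cast this
  have hk4 : (4 * k : ℝ) ≤ 2 ^ (k + 1) := by exact_mod_cast four_k_le hk
  have hlg1 : Real.logb 2 (1 + g) ≤ 2 ^ (k + 1) * Real.logb 2 N := by
    calc Real.logb 2 (1 + g) ≤ Real.logb 2 ((N : ℝ) ^ (4 * k)) :=
          Real.logb_le_logb_of_le (by norm_num) (by linarith) (by linarith)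
      _ = (4 * k : ℝ) * Real.logb 2 N := by
          rw [Real.logb_pow]
          push_cast
          rfl
      _ ≤ _ := mul_le_mul_of_nonneg_right hk4 hlN.le
  have hlines : ∀ L : Line (Fin (k + 1) × Wt n (60 * 4 ^ (k + 1))),
      PolyLine k L ∨ ModLine k L → NofLine g L := by
    rintro L (hL | hL)
    · have := hL.norm (p := k + 1) (Nat.lt_succ_self k)
      rw [hg]
      exact this
    · refine NofLine.mono (hL.norm (p := k + 1) (Nat.lt_succ_self k)) ?_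
      rw [hg]
      linarith
  rw [← hN]
  have key := board_lower (show 2 ≤ k + 1 by omega) hn hπ hg1
    (IsBoard.mono (fun L h => ClauseAx.loc π v0 h) hb)
    (fun i hi L hL => hlines L (hl i hi L hL))
  have h50 : 0 < Real.logb 2 (1 + g) := Real.logb_pos (by norm_num) (by linarith)
  have hpos : 0 ≤ (s + 2 : ℝ) * (Real.logb 2 l + 3) := by
    have h6 : (0 : ℝ) ≤ n := Nat.cast_nonneg n
    exact nonneg_of_mul_nonneg_left (h6.trans key) h50
  rw [div_le_iff₀ (by positivity)]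
  have h8 : (2 : ℝ) ^ (4 * k + 13) = 2 ^ (3 * k + 9) * (8 * 2 ^ (k + 1)) := by
    rw [show (8 : ℝ) = 2 ^ 3 by norm_num, ← pow_add, ← pow_add]
    congr 1
    ring
  rw [h8]
  have h9 : (0 : ℝ) ≤ (s + 2 : ℝ) * (Real.logb 2 l + 3) * (2 ^ (k + 1) * Real.logb 2 N) :=
    mul_nonneg hpos (mul_nonneg (by positivity) hlN.le)
  calc (N : ℝ) ≤ 2 ^ (3 * k + 9) * n := hN1'
    _ ≤ 2 ^ (3 * k + 9) * ((s + 2) * (Real.logb 2 l + 3) * (2 ^ (k + 1) * Real.logb 2 N)) := by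
        refine mul_le_mul_of_nonneg_left (key.trans ?_) (by positivity)
        exact mul_le_mul_of_nonneg_left hlg1 hpos
    _ ≤ 2 ^ (3 * k + 9) * (8 * ((s + 2) * (Real.logb 2 l + 3) *
          (2 ^ (k + 1) * Real.logb 2 N))) := by
        refine mul_le_mul_of_nonneg_left ?_ (by positivity)
        linarith
    _ = _ := by ring

end low

/-- The bounds on length and space. -/
lemma exists_ext_space {k n : ℕ} (hk : 1 ≤ k) (hn : 25 ≤ n) :
    ∃ (V : Type) (_ : Fintype V) (_ : DecidableEq V) (Φ : Finset (Clause V)),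
      n ≤ Fintype.card V ∧ Fintype.card V ≤ 2 ^ (4 * k + 13) * n ∧
      Φ.card ≤ 2 ^ 2 ^ (4 * k + 13) * n ∧ (∀ C ∈ Φ, C.card ≤ 2 ^ (4 * k + 13)) ∧
      (∀ x, ∃ C ∈ Φ, ¬ Sat C x) ∧
      (∃ (W : Type) (_ : Fintype W) (_ : DecidableEq W) (D : W → Finset V),
        Fintype.card W ≤ Fintype.card V ∧ (∀ w, (D w).card = k + 1) ∧
        ∃ (l : ℕ) (cfg : ℕ → List (Line (V ⊕ W))), l ≤ 2 ^ 2 ^ (4 * k + 13) * n ∧
          IsBoard (ExtAx Φ D) (2 ^ (4 * k + 13)) l cfg ∧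
          ∀ i ≤ l, ∀ L ∈ cfg i, Mod2Line 1 L) ∧
      (∀ (s l : ℕ) (cfg : ℕ → List (Line V)), IsBoard (ClauseAx Φ) s l cfg →
        (∀ i ≤ l, ∀ L ∈ cfg i, PolyLine k L ∨ ModLine k L) →
        (Fintype.card V : ℝ) / (2 ^ (4 * k + 13) * Real.logb 2 (Fintype.card V)) ≤
          (s + 2) * (Real.logb 2 l + 3)) := by
  obtain ⟨π, hπ⟩ := exists_perm hn
  have v0 : Fin n := ⟨0, by omega⟩
  have hext := ext_size k
  have hw : 4 * ((k + 1) * (60 * 4 ^ (k + 1) + 1)) ≤ 2 ^ (3 * k + 13) := by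
    have h2 : 4 * ((k + 1) * (60 * 4 ^ (k + 1) + 1)) ≤
        4 * ((k + 1 + 1) * (60 * 4 ^ (k + 1) + 1)) :=
      Nat.mul_le_mul_left _ (Nat.mul_le_mul_right _ (Nat.le_succ _))
    omega
  have e : 2 ^ (3 * k + 13) ≤ 2 ^ (4 * k + 13) := Nat.pow_le_pow_right (by norm_num) (by omega)
  obtain ⟨t0, ht1, ht2, ht3, ht4⟩ := ext_short (p := k + 1) (b := 60 * 4 ^ (k + 1)) π v0
  obtain ⟨C, hC, -⟩ := cnf_unsat (p := k + 1) (b := 60 * 4 ^ (k + 1)) π v0 (fun _ => true)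
  obtain ⟨cfg, hc1, hc2⟩ := tree_board (s := 2 ^ (4 * k + 13))
    (show ExtAx (cnf π v0) DD (fun _ => true) from Or.inl ⟨C, hC, fun _ _ => rfl⟩) ht1 ht2
    (ht4.trans (hext.trans e))
  refine ⟨Fin (k + 1) × Wt n (60 * 4 ^ (k + 1)), inferInstance, inferInstance, cnf π v0,
    N_lower k n, (N_upper k n).trans (Nat.mul_le_mul_right _
      (Nat.pow_le_pow_right (by norm_num) (by omega))),
    (card_cnf π v0).trans (Nat.mul_le_mul_right _
      (Nat.pow_le_pow_right (by norm_num) (hw.trans e))),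
    fun C hC => (width_cnf π v0 hC).trans (hw.trans e), cnf_unsat π v0,
    ⟨(Fin n × Bool) × Fin (60 * 4 ^ (k + 1)), inferInstance, inferInstance, DD, WW_le k n,
      card_DD, nodes t0, cfg, ht3.trans (Nat.mul_le_mul_right _
      (Nat.pow_le_pow_right (by norm_num) (hext.trans e))), hc1, hc2⟩, fun s l cfg hb hl => ?_⟩
  exact poly_board (π := π) (v0 := v0) hk hn hπ hb hl

end Pool.Agent.TH699.TS
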