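import Mathlib

/-!
The search game on a directed acyclic graph (a false vertex all of whose premises are true is
looked for by asking for truth values): `T / log T` questions are enough for graphs with `T`
vertices.
-/

set_option autoImplicit false

namespace Pool.Agent.TH699.TS

open Finset

/-- `Play P S j d`: let `j` be a false line, and let all lines outside of `S` be true. Then `d`
questions (is line `v` true?) are enough to find a false line all of whose premises `P` are true.
(`stop`: all the premises of `j` are known to be true; `ask`: line `v` is asked, and the search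
goes on from `j` if it is true, and from `v` if it is false.) -/
inductive Play (P : ℕ → Finset ℕ) : Finset ℕ → ℕ → ℕ → Prop
  | stop {S : Finset ℕ} {j : ℕ} (d : ℕ) (h : Disjoint (P j) S) : Play P S j d
  | ask {S : Finset ℕ} {j d : ℕ} (v : ℕ) (hv : v ∈ S) (h1 : Play P (S.erase v) j d)
      (h2 : Play P S v d) : Play P S j (d + 1)

variable {P : ℕ → Finset ℕ}

lemma Play.mono {S : Finset ℕ} {j d : ℕ} (h : Play P S j d) : ∀ {e : ℕ}, d ≤ e → Play P S j e := by
  induction h with
  | stop d h => exact fun {e} _ => Play.stop e h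
  | ask v hv h1 h2 ih1 ih2 =>
    intro e he
    obtain ⟨e', rfl⟩ : ∃ e', e = e' + 1 := ⟨e - 1, by omega⟩
    exact Play.ask v hv (ih1 (by omega)) (ih2 (by omega))

lemma Play.anti {S : Finset ℕ} {j d : ℕ} (h : Play P S j d) : ∀ {S' : Finset ℕ}, S' ⊆ S →
    Play P S' j d := by
  induction h with
  | stop d h => exact fun {S'} hS => Play.stop d (disjoint_of_subset_right hS h)
  | @ask S j d v hv h1 h2 ih1 ih2 =>
    intro S' hS
    by_cases hv' : v ∈ S'
    · exact Play.ask v hv' (ih1 (erase_subset_erase v hS)) (ih2 hS)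
    · refine (ih1 (S' := S') fun x hx => mem_erase.2 ⟨fun h => hv' (h ▸ hx), hS hx⟩).mono
        (Nat.le_succ d)

/-- vertices which are not reached play no role -/
lemma Play.embed {R : Finset ℕ} {j d : ℕ} (h : Play P R j d) {W : ℕ → Prop} {Z : Finset ℕ}
    (hW : ∀ v, W v → Disjoint (P v) Z) (hj : W j) (hR : ∀ v ∈ R, W v) : Play P (R ∪ Z) j d := by
  induction h with
  | stop d h => exact Play.stop d (disjoint_union_right.2 ⟨h, hW _ hj⟩)
  | @ask R j d v hv h1 h2 ih1 ih2 =>
    refine Play.ask v (mem_union_left _ hv)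
      ((ih1 hj fun w hw => hR w (mem_of_mem_erase hw)).anti fun x hx => ?_)
      (ih2 (hR v hv) hR)
    obtain ⟨h3, h4⟩ := mem_erase.1 hx
    rcases mem_union.1 h4 with h5 | h5
    · exact mem_union_left _ (mem_erase.2 ⟨h3, h5⟩)
    · exact mem_union_right _ h5

/-- asking for all vertices of `U` -/
lemma Play.asks {j d : ℕ} (U : Finset ℕ) : ∀ {S : Finset ℕ}, U ⊆ S → Play P (S \ U) j d →
    (∀ u ∈ U, Play P S u d) → Play P S j (d + U.card) := by
  induction U using Finset.induction_on with
  | empty =>
    intro S _ h _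
    simpa using h
  | insert u U hu ih =>
    intro S hS h hU
    rw [card_insert_of_notMem hu, ← Nat.add_assoc]
    have h1 : Play P (S.erase u) j (d + U.card) := by
      refine ih (fun x hx => mem_erase.2 ⟨fun h => hu (h ▸ hx), hS (mem_insert_of_mem hx)⟩)
        (h.anti fun x hx => ?_) fun v hv => (hU v (mem_insert_of_mem hv)).anti (erase_subset _ _)
      obtain ⟨h3, h4⟩ := mem_sdiff.1 hx
      obtain ⟨h5, h6⟩ := mem_erase.1 h3
      exact mem_sdiff.2 ⟨h6, fun h7 => (mem_insert.1 h7).elim h5 h4⟩
    exact Play.ask u (hS (mem_insert_self _ _)) h1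
      ((hU u (mem_insert_self _ _)).mono (Nat.le_add_right _ _))

/-- the number of edges inside of `S` -/
def edg (P : ℕ → Finset ℕ) (S : Finset ℕ) : ℕ := ∑ i ∈ S, (P i ∩ S).card

lemma edg_mono {S S' : Finset ℕ} (h : S' ⊆ S) : edg P S' ≤ edg P S := by
  unfold edg
  refine (sum_le_sum fun i _ => card_le_card (inter_subset_inter_left h)).trans ?_
  exact sum_le_sum_of_subset h

lemma edg_lt {S S' : Finset ℕ} (h : S' ⊆ S) {i u : ℕ} (hi : i ∈ S) (hu : u ∈ P i) (huS : u ∈ S)
    (hn : i ∉ S' ∨ u ∉ S') : edg P S' < edg P S := by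
  unfold edg
  rcases hn with hn | hn
  · refine (sum_le_sum fun i _ => card_le_card (inter_subset_inter_left h)).trans_lt ?_
    exact sum_lt_sum_of_subset h hi hn (card_pos.2 ⟨u, mem_inter.2 ⟨hu, huS⟩⟩) fun _ _ _ =>
      Nat.zero_le _
  · by_cases hi' : i ∈ S'
    · refine (sum_lt_sum (fun i _ => card_le_card (inter_subset_inter_left h)) ⟨i, hi', ?_⟩).trans_le
        (sum_le_sum_of_subset h)
      refine card_lt_card ⟨inter_subset_inter_left h, fun hsub => hn ?_⟩
      exact (mem_inter.1 (hsub (mem_inter.2 ⟨hu, huS⟩))).2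
    · refine (sum_le_sum fun i _ => card_le_card (inter_subset_inter_left h)).trans_lt ?_
      exact sum_lt_sum_of_subset h hi hi' (card_pos.2 ⟨u, mem_inter.2 ⟨hu, huS⟩⟩) fun _ _ _ =>
        Nat.zero_le _

section dag

variable {T : ℕ} (hlt : ∀ i < T, ∀ j ∈ P i, j < i)

include hlt

/-- one question for every edge -/
lemma play_edg (n : ℕ) : ∀ (S : Finset ℕ), S ⊆ range T → edg P S ≤ n → ∀ j ∈ S,
    Play P S j n := by
  induction n with
  | zero =>
    intro S hS he j hj
    refine Play.stop 0 ?_
    rw [disjoint_left]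
    intro u hu huS
    have := edg_lt (P := P) (S' := ∅) (empty_subset S) hj hu huS (Or.inl (notMem_empty _))
    omega
  | succ n ih =>
    intro S hS he j hj
    by_cases hd : Disjoint (P j) S
    · exact Play.stop _ hd
    · rw [not_disjoint_iff] at hd
      obtain ⟨u, hu, huS⟩ := hd
      have huj : u < j := hlt j (mem_range.1 (hS hj)) u hu
      refine Play.ask u huS ?_ ?_
      · have h1 := edg_lt (P := P) (erase_subset u S) hj hu huS (Or.inr (notMem_erase u S))
        exact ih _ ((erase_subset _ _).trans hS) (by omega) j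
          (mem_erase.2 ⟨by omega, hj⟩)
      · have h1 := edg_lt (P := P) (filter_subset (· ≤ u) S) hj hu huS
          (Or.inl fun h => by have := (mem_filter.1 h).2; omega)
        have h2 := ih (S.filter (· ≤ u)) ((filter_subset _ _).trans hS) (by omega) u
          (mem_filter.2 ⟨huS, le_rfl⟩)
        have h3 := h2.embed (W := fun v => v ≤ u ∧ v < T) (Z := S.filter fun x => ¬ x ≤ u)
          (fun v hv => by
            rw [disjoint_left]
            intro x hx hx'
            have h4 := (mem_filter.1 hx').2
            have h5 := hlt v hv.2 x hx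
            omega)
          ⟨le_rfl, mem_range.1 (hS huS)⟩
          (fun v hv => ⟨(mem_filter.1 hv).2, mem_range.1 (hS (mem_filter.1 hv).1)⟩)
        rwa [filter_union_filter_not_eq] at h3

/-- splitting the edges at the vertex `t` -/
lemma edg_split {S : Finset ℕ} (hS : S ⊆ range T) (t : ℕ) :
    edg P S = edg P (S.filter (· < t)) + edg P (S.filter fun x => ¬ x < t) +
      ∑ i ∈ S.filter (fun x => ¬ x < t), (P i ∩ S.filter (· < t)).card := by
  unfold edg
  rw [← sum_filter_add_sum_filter_not S (· < t), add_assoc, ← sum_add_distrib]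
  congr 1
  · refine sum_congr rfl fun i hi => ?_
    congr 1
    ext x
    simp only [mem_inter, mem_filter]
    constructor
    · rintro ⟨h1, h2⟩
      refine ⟨h1, h2, ?_⟩
      have h3 := hlt i (mem_range.1 (hS (mem_filter.1 hi).1)) x h1
      have h4 := (mem_filter.1 hi).2
      omega
    · rintro ⟨h1, h2, -⟩
      exact ⟨h1, h2⟩
  · refine sum_congr rfl fun i hi => ?_
    rw [← card_union_of_disjoint]
    · congr 1
      ext x
      simp only [mem_inter, mem_filter, mem_union]
      tauto
    · rw [disjoint_left]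
      intro x hx hx'
      simp only [mem_inter, mem_filter] at hx hx'
      exact hx.2.2 hx'.2.2

lemma edg_step (htwo : ∀ i < T, (P i).card ≤ 2) {S : Finset ℕ} (hS : S ⊆ range T) (t : ℕ) :
    edg P (S.filter (· < t + 1)) ≤ edg P (S.filter (· < t)) + 2 := by
  have h1 : S.filter (· < t + 1) ⊆ range T := (filter_subset _ _).trans hS
  rw [edg_split hlt h1 t]
  have h2 : (S.filter (· < t + 1)).filter (· < t) = S.filter (· < t) := by
    ext x
    simp only [mem_filter]
    constructor
    · rintro ⟨⟨h3, -⟩, h4⟩
      exact ⟨h3, h4⟩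
    · rintro ⟨h3, h4⟩
      exact ⟨⟨h3, by omega⟩, h4⟩
  have h3 : (S.filter (· < t + 1)).filter (fun x => ¬ x < t) ⊆ {t} := by
    intro x hx
    simp only [mem_filter] at hx
    rw [mem_singleton]
    omega
  rw [h2]
  have h4 : edg P ((S.filter (· < t + 1)).filter fun x => ¬ x < t) = 0 := by
    unfold edg
    refine sum_eq_zero fun i hi => ?_
    rw [card_eq_zero, eq_empty_iff_forall_notMem]
    intro x hx
    have h5 := mem_singleton.1 (h3 hi)
    have h6 := mem_singleton.1 (h3 (mem_inter.1 hx).2)
    have h7 : i < T := by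
      have := h1 (mem_filter.1 hi).1
      exact mem_range.1 this
    have h8 := hlt i h7 x (mem_inter.1 hx).1
    omega
  have h5 : ∑ i ∈ (S.filter (· < t + 1)).filter (fun x => ¬ x < t),
      (P i ∩ S.filter (· < t)).card ≤ 2 := by
    rcases Finset.subset_singleton_iff.1 h3 with h | h
    · rw [h]
      simp
    · rw [h, sum_singleton]
      have h6 : t ∈ S.filter (· < t + 1) := by
        have : t ∈ (S.filter (· < t + 1)).filter (fun x => ¬ x < t) := by
          rw [h]
          exact mem_singleton_self t
        exact (mem_filter.1 this).1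
      exact (card_le_card inter_subset_left).trans (htwo t (mem_range.1 (h1 h6)))
  omega

/-- a balanced splitting -/
lemma edg_balance (htwo : ∀ i < T, (P i).card ≤ 2) {S : Finset ℕ} (hS : S ⊆ range T)
    (hpos : 0 < edg P S) : ∃ t, 2 * edg P (S.filter (· < t)) ≤ edg P S ∧
      edg P S ≤ 2 * edg P (S.filter (· < t)) + 3 := by
  classical
  have hex : ∃ t, edg P S < 2 * edg P (S.filter (· < t)) := by
    refine ⟨T, ?_⟩
    rw [filter_true_of_mem fun x hx => mem_range.1 (hS hx)]
    omega
  have h0 := Nat.find_spec hex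
  have hne : Nat.find hex ≠ 0 := by
    intro h
    rw [h] at h0
    simp [edg] at h0
  obtain ⟨t, ht⟩ : ∃ t, Nat.find hex = t + 1 := ⟨Nat.find hex - 1, by omega⟩
  have h1 := Nat.find_min hex (m := t) (by omega)
  rw [ht] at h0
  have h2 := edg_step hlt htwo hS t
  exact ⟨t, by omega, by omega⟩

end dag

end Pool.Agent.TH699.TS
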