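import Pool.Agent.TH699.TS.Board

/-!
Short tree-like refutations of Tseitin systems with arbitrary edge labels.
-/

set_option autoImplicit false

namespace Pool.Agent.TH699.TS

open Finset Pool.Agent.TH699.TD Pool.Agent.Helper600R2 Pool.Agent.H642R2.Dual

section gen

variable {V : Type} [Fintype V] [DecidableEq V] {n k : ℕ} (π : Equiv.Perm (Fin n)) (v0 : Fin n)
  (lab : Fin n × Bool → (V → Bool) → ZMod 2)

/-- the sum around the vertex `v` -/
def gpar (v : Fin n) (y : V → Bool) : ZMod 2 :=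
  ∑ e : Fin n × Bool, ((if e.1 = v then lab e y else 0) + (if hd π e = v then lab e y else 0))

omit [Fintype V] [DecidableEq V] in
lemma sum_gpar (U : Finset (Fin n)) (y : V → Bool) :
    ∑ v ∈ U, gpar π lab v y = ∑ e ∈ cut π U, lab e y := by
  unfold gpar
  rw [Finset.sum_comm]
  have e1 : ∀ e : Fin n × Bool, ∑ v ∈ U, ((if e.1 = v then lab e y else 0) +
      (if hd π e = v then lab e y else 0)) = if e ∈ cut π U then lab e y else 0 := by
    intro e
    rw [Finset.sum_add_distrib, Finset.sum_ite_eq, Finset.sum_ite_eq]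
    have h2 : lab e y + lab e y = 0 := by
      have : ∀ a : ZMod 2, a + a = 0 := by decide
      exact this _
    by_cases h3 : e.1 ∈ U <;> by_cases h4 : hd π e ∈ U <;> simp [cut, h3, h4, h2]
  rw [Finset.sum_congr rfl fun e _ => e1 e, Finset.sum_ite_mem, Finset.univ_inter]

omit [Fintype V] [DecidableEq V] in
lemma gpar_eq (v : Fin n) (y : V → Bool) : gpar π lab v y = ∑ e ∈ cut π {v}, lab e y := by
  have := sum_gpar π lab {v} y
  rwa [Finset.sum_singleton] at this

omit [DecidableEq V] in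
lemma polyF_gpar {lab : Fin n × Bool → (V → Bool) → ZMod 2} (hlab : ∀ e, PolyF k (lab e))
    (v : Fin n) : PolyF k (fun y : V → Bool => gpar π lab v y) := by
  have e : (fun y : V → Bool => gpar π lab v y) = fun y => ∑ e ∈ cut π {v}, lab e y := by
    funext y
    exact gpar_eq π lab v y
  rw [e]
  exact PolyF.sum _ _ fun e _ => hlab e

/-- the line which says that `y` does not violate the constraint at `v` if it agrees with `x`
on `U` -/
def gdl (v : Fin n) (U : Finset V) (x : V → Bool) : Line V :=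
  fun y => !(decide (∀ w ∈ U, y w = x w) && decide (gpar π lab v y ≠ if v = v0 then 1 else 0))

lemma gdl_false {v : Fin n} {U : Finset V} {x y : V → Bool} :
    gdl π v0 lab v U x y = false ↔
      (∀ w ∈ U, y w = x w) ∧ gpar π lab v y ≠ if v = v0 then 1 else 0 := by
  unfold gdl
  rw [Bool.not_eq_false', Bool.and_eq_true_iff, decide_eq_true_eq, decide_eq_true_eq]

lemma ne_iff_eq_add (a c : ZMod 2) : a ≠ c ↔ a = c + 1 := by
  revert a c
  decide

variable {lab}

lemma modLine_gdl (hk : 1 ≤ k) (hlab : ∀ e, PolyF k (lab e)) (v : Fin n) (U : Finset V)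
    (x : V → Bool) : Mod2Line k (gdl π v0 lab v U x) := by
  refine modLine_of (J := Option {w // w ∈ U}) (f := fun j y => match j with
      | none => gpar π lab v y
      | some w => bz (y w)) (b := fun j => match j with
      | none => (if v = v0 then 1 else 0) + 1
      | some w => bz (x w)) (c := false) ?_ ?_ ?_
  · rw [Fintype.card_option]
    refine Nat.succ_le_succ ?_
    rw [Fintype.card_coe]
    exact card_le_univ U
  · rintro (_ | w)
    · exact polyF_gpar π hlab v
    · exact PolyF.bit hk _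
  · intro y
    rw [gdl_false, ne_iff_eq_add]
    constructor
    · rintro ⟨h1, h2⟩ (_ | ⟨w, hw⟩)
      · exact h2
      · exact bz_inj.2 (h1 w hw)
    · intro h
      exact ⟨fun w hw => bz_inj.1 (h (some ⟨w, hw⟩)), h none⟩

variable {A : Line V → Prop} {vs : Fin n → Finset V}

lemma gtree_vertex_aux (hk : 1 ≤ k) (hlab : ∀ e, PolyF k (lab e)) (v : Fin n)
    (hax : ∀ x : V → Bool, (∃ y, gdl π v0 lab v (vs v) x y = false) → A (gdl π v0 lab v (vs v) x))
    (m : ℕ) : ∀ (U : Finset V) (x : V → Bool), U ⊆ vs v → (vs v \ U).card = m →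
    ∃ t : Der V, t.Sound A ∧ t.All (Mod2Line k) ∧
      t.line = gdl π v0 lab v U x ∧ nodes t + 1 ≤ 2 ^ (m + 1) ∧ peb t ≤ m + 1 := by
  induction m with
  | zero =>
    intro U x hU hc
    obtain rfl : U = vs v := by
      rw [card_eq_zero, sdiff_eq_empty_iff_subset] at hc
      exact Subset.antisymm hU hc
    by_cases hx : ∃ y, gdl π v0 lab v (vs v) x y = false
    · exact ⟨.ax (gdl π v0 lab v (vs v) x), hax x hx, modLine_gdl π v0 hk hlab v _ x, rfl, le_rfl,
        le_rfl⟩
    · refine ⟨.triv (gdl π v0 lab v (vs v) x), fun y => ?_, modLine_gdl π v0 hk hlab v _ x, rfl,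
        le_rfl, le_rfl⟩
      by_contra hne
      rw [Bool.not_eq_true] at hne
      exact hx ⟨y, hne⟩
  | succ m ih =>
    intro U x hU hc
    obtain ⟨w, hw⟩ : (vs v \ U).Nonempty := by
      rw [← card_pos]
      omega
    rw [mem_sdiff] at hw
    have hU' : insert w U ⊆ vs v := insert_subset hw.1 hU
    have hc' : (vs v \ insert w U).card = m := by
      have h1 : vs v \ insert w U = (vs v \ U).erase w := by
        ext u
        simp only [mem_sdiff, mem_insert, mem_erase, not_or]
        tauto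
      rw [h1, card_erase_of_mem (mem_sdiff.2 hw), hc]
      omega
    obtain ⟨t0, h1, h2, h3, h4, h4'⟩ := ih (insert w U) (Function.update x w false) hU' hc'
    obtain ⟨t1, h5, h6, h7, h8, h8'⟩ := ih (insert w U) (Function.update x w true) hU' hc'
    refine ⟨.inf (gdl π v0 lab v U x) t0 t1, ⟨fun y hy0 hy1 => ?_, h1, h5⟩,
      ⟨modLine_gdl π v0 hk hlab v U x, h2, h6⟩, rfl, ?_, ?_⟩
    · by_contra hne
      rw [Bool.not_eq_true, gdl_false] at hne
      have key : ∀ β : Bool, y w = β → gdl π v0 lab v (insert w U) (Function.update x w β) y =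
          false := by
        intro β hβ
        rw [gdl_false]
        refine ⟨fun u hu => ?_, hne.2⟩
        by_cases huw : u = w
        · subst huw
          rw [Function.update_self]
          exact hβ
        · rw [Function.update_of_ne huw]
          exact hne.1 u (mem_of_mem_insert_of_ne hu huw)
      cases hyw : y w with
      | false =>
        rw [h3, key false hyw] at hy0
        cases hy0
      | true =>
        rw [h7, key true hyw] at hy1
        cases hy1
    · show nodes t0 + nodes t1 + 1 + 1 ≤ 2 ^ (m + 1 + 1)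
      rw [pow_succ]
      omega
    · show max (peb t0) (peb t1 + 1) ≤ m + 1 + 1
      omega

lemma gtree_vertex (hk : 1 ≤ k) (hlab : ∀ e, PolyF k (lab e)) {M : ℕ}
    (hvs : ∀ v, (vs v).card ≤ M)
    (hax : ∀ v (x : V → Bool), (∃ y, gdl π v0 lab v (vs v) x y = false) →
      A (gdl π v0 lab v (vs v) x)) (v : Fin n) :
    ∃ t : Der V, t.Sound A ∧ t.All (Mod2Line k) ∧
      (∀ y, t.line y = true → gpar π lab v y = if v = v0 then 1 else 0) ∧
      nodes t + 1 ≤ 2 ^ (M + 1) ∧ peb t ≤ M + 1 := by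
  obtain ⟨t, h1, h2, h3, h4, h4'⟩ := gtree_vertex_aux π v0 hk hlab v (hax v) (vs v).card ∅
    (fun _ => true) (empty_subset _) (by rw [sdiff_empty])
  refine ⟨t, h1, h2, fun y hy => ?_, h4.trans ?_, h4'.trans ?_⟩
  · by_contra hne
    have h5 : gdl π v0 lab v ∅ (fun _ => true) y = false := by
      rw [gdl_false]
      exact ⟨fun w hw => absurd hw (notMem_empty _), hne⟩
    rw [h3, h5] at hy
    cases hy
  · exact Nat.pow_le_pow_right (by norm_num) (Nat.succ_le_succ (hvs v))
  · exact Nat.succ_le_succ (hvs v)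

lemma gtree_chain (hk : 1 ≤ k) (hlab : ∀ e, PolyF k (lab e)) {M : ℕ}
    (hvs : ∀ v, (vs v).card ≤ M)
    (hax : ∀ v (x : V → Bool), (∃ y, gdl π v0 lab v (vs v) x y = false) →
      A (gdl π v0 lab v (vs v) x)) (U : Finset (Fin n)) :
    ∃ t : Der V, t.Sound A ∧ t.All (Mod2Line k) ∧
      (∀ y, t.line y = true ↔ ∑ v ∈ U, gpar π lab v y = ∑ v ∈ U, if v = v0 then 1 else 0) ∧
      nodes t ≤ 2 ^ (M + 1) * U.card + 1 ∧ peb t ≤ M + 2 := by
  have hmod : ∀ U : Finset (Fin n), Mod2Line k (fun y : V → Bool =>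
      decide (∑ v ∈ U, gpar π lab v y = ∑ v ∈ U, if v = v0 then 1 else 0)) := by
    intro U
    refine modLine_of (J := Unit) (f := fun _ y => ∑ v ∈ U, gpar π lab v y)
      (b := fun _ => ∑ v ∈ U, if v = v0 then 1 else 0) (c := true)
      (by rw [Fintype.card_unit]; omega)
      (fun _ => PolyF.sum _ _ fun v _ => polyF_gpar π hlab v) (fun y => ?_)
    rw [decide_eq_true_eq]
    exact ⟨fun h _ => h, fun h => h ()⟩
  induction U using Finset.induction_on with
  | empty =>
    refine ⟨.triv (fun y => decide (∑ v ∈ ∅, gpar π lab v y =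
      ∑ v ∈ (∅ : Finset (Fin n)), if v = v0 then 1 else 0)), fun y => ?_, hmod ∅,
      fun y => ?_, Nat.succ_le_succ (Nat.zero_le _), Nat.succ_le_succ (Nat.zero_le _)⟩
    · have h0 : (∑ v ∈ (∅ : Finset (Fin n)), gpar π lab v y =
          ∑ v ∈ (∅ : Finset (Fin n)), if v = v0 then 1 else 0) := by simp
      exact decide_eq_true h0
    · exact (by rw [decide_eq_true_eq] : decide (∑ v ∈ (∅ : Finset (Fin n)), gpar π lab v y =
        ∑ v ∈ (∅ : Finset (Fin n)), if v = v0 then 1 else 0) = true ↔ _)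
  | insert v U hv ih =>
    obtain ⟨t, h1, h2, h3, h4, h4'⟩ := ih
    obtain ⟨t', h5, h6, h7, h8, h8'⟩ := gtree_vertex π v0 hk hlab hvs hax v
    refine ⟨.inf (fun y => decide (∑ v ∈ insert v U, gpar π lab v y =
      ∑ v ∈ insert v U, if v = v0 then 1 else 0)) t t', ⟨fun y hy hy' => ?_, h1, h5⟩,
      ⟨hmod _, h2, h6⟩, fun y => ?_, ?_, ?_⟩
    · show decide _ = true
      rw [decide_eq_true_eq, Finset.sum_insert hv, Finset.sum_insert hv, h7 y hy', (h3 y).1 hy]
    · exact decide_eq_true_iff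
    · show nodes t + nodes t' + 1 ≤ _
      rw [card_insert_of_notMem hv, mul_add, mul_one]
      omega
    · show max (peb t) (peb t' + 1) ≤ _
      omega

/-- short tree-like refutations -/
lemma gtree_short (hk : 1 ≤ k) (hlab : ∀ e, PolyF k (lab e)) {M : ℕ}
    (hvs : ∀ v, (vs v).card ≤ M)
    (hax : ∀ v (x : V → Bool), (∃ y, gdl π v0 lab v (vs v) x y = false) →
      A (gdl π v0 lab v (vs v) x)) :
    ∃ t : Der V, t.IsRefutation A ∧ t.All (Mod2Line k) ∧
      nodes t ≤ 2 ^ (M + 2) * n ∧ peb t ≤ M + 2 := by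
  obtain ⟨t, h1, h2, h3, h4, h4'⟩ := gtree_chain π v0 hk hlab hvs hax univ
  rw [card_univ, Fintype.card_fin] at h4
  have h4'' : nodes t ≤ 2 ^ (M + 2) * n := by
    have hn : 1 ≤ n := v0.pos
    have h5 : 1 * 1 ≤ 2 ^ (M + 1) * n := Nat.mul_le_mul Nat.one_le_two_pow hn
    rw [show M + 2 = M + 1 + 1 from rfl, pow_succ, mul_assoc, mul_comm 2 n, ← mul_assoc, mul_two]
    omega
  refine ⟨t, ⟨h1, fun y => ?_⟩, h2, h4'', h4'⟩
  by_contra hne
  rw [Bool.not_eq_false] at hne
  have h5 := (h3 y).1 hne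
  have h6 : cut π (univ : Finset (Fin n)) = ∅ := by
    ext e
    rw [mem_cut]
    simp
  rw [sum_gpar, h6, Finset.sum_empty, Finset.sum_ite_eq' univ v0] at h5
  simp at h5

end gen

end Pool.Agent.TH699.TS
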