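import Pool.Agent.TH699.TS.ExtFin

/-!
Tree-like refutations with the permutation rule.
-/

set_option autoImplicit false
set_option synthInstance.maxSize 1000

namespace Pool.Agent.TH699.TS

open Finset Pool.Agent.TH699.TD Pool.Agent.Helper600R2 Pool.Agent.H642R2.Dual

/-- The line `L` with its variables permuted by `σ`. -/
def permLine {V : Type} (σ : Equiv.Perm V) (L : Line V) : Line V := fun x => L (fun v => x (σ v))

/-- Binary trees of lines with one more rule: `perm σ t` infers from the last line of `t` the line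
in which all variables are permuted by `σ`. -/
inductive PDer (V : Type) : Type
  | ax (L : Line V) : PDer V
  | triv (L : Line V) : PDer V
  | inf (L : Line V) (l r : PDer V) : PDer V
  | perm (σ : Equiv.Perm V) (t : PDer V) : PDer V

/-- the line at the root -/
def PDer.line {V : Type} : PDer V → Line V
  | .ax L => L
  | .triv L => L
  | .inf L _ _ => L
  | .perm σ t => permLine σ t.line

/-- the number of axiom leaves -/
def PDer.leaves {V : Type} : PDer V → ℕ
  | .ax _ => 1
  | .triv _ => 0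
  | .inf _ l r => l.leaves + r.leaves
  | .perm _ t => t.leaves

/-- all lines of the tree satisfy `p` -/
def PDer.All {V : Type} (p : Line V → Prop) : PDer V → Prop
  | .ax L => p L
  | .triv L => p L
  | .inf L l r => p L ∧ l.All p ∧ r.All p
  | .perm σ t => p (permLine σ t.line) ∧ t.All p

/-- soundness with respect to a set `A` of axioms; the permutation rule is allowed for all
permutations of the variables which map axioms to axioms -/
def PDer.Sound {V : Type} (A : Line V → Prop) : PDer V → Prop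
  | .ax L => A L
  | .triv L => ∀ x, L x = true
  | .inf L l r => (∀ x, l.line x = true → r.line x = true → L x = true) ∧ l.Sound A ∧ r.Sound A
  | .perm σ t => (∀ L, A L → A (permLine σ L)) ∧ t.Sound A

/-- `t` is a tree-like semantic refutation of the set `A` of axioms with the permutation rule -/
def PDer.IsRefutation {V : Type} (A : Line V → Prop) (t : PDer V) : Prop :=
  t.Sound A ∧ ∀ x, t.line x = false

section push

variable {V : Type} {A P : Line V → Prop}

lemma PDer.push (hP : ∀ σ L, P L → P (permLine σ L)) : ∀ t : PDer V, t.Sound A → t.All P →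
    ∀ σ : Equiv.Perm V, (∀ L, A L → A (permLine σ L)) →
      ∃ t' : Der V, t'.Sound A ∧ t'.All P ∧ t'.line = permLine σ t.line ∧ t'.leaves = t.leaves
  | .ax L, hs, hp, σ, hσ => ⟨.ax _, hσ L hs, hP σ L hp, rfl, rfl⟩
  | .triv L, hs, hp, σ, hσ => ⟨.triv _, fun x => hs _, hP σ L hp, rfl, rfl⟩
  | .inf L l r, hs, hp, σ, hσ => by
    obtain ⟨l', h1, h2, h3, h4⟩ := PDer.push hP l hs.2.1 hp.2.1 σ hσ
    obtain ⟨r', h5, h6, h7, h8⟩ := PDer.push hP r hs.2.2 hp.2.2 σ hσ
    refine ⟨.inf (permLine σ L) l' r', ⟨fun x hx hx' => ?_, h1, h5⟩,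
      ⟨hP σ L hp.1, h2, h6⟩, rfl, ?_⟩
    · rw [h3] at hx
      rw [h7] at hx'
      exact hs.1 _ hx hx'
    · show l'.leaves + r'.leaves = l.leaves + r.leaves
      rw [h4, h8]
  | .perm τ t, hs, hp, σ, hσ => by
    obtain ⟨t', h1, h2, h3, h4⟩ := PDer.push hP t hs.2 hp.2 (σ * τ)
      (fun L hL => hσ _ (hs.1 L hL))
    exact ⟨t', h1, h2, h3, h4⟩

end push

lemma ModLine.perm {V : Type} [Fintype V] [DecidableEq V] {k : ℕ} (σ : Equiv.Perm V) (L : Line V)
    (h : ModLine k L) : ModLine k (permLine σ L) := by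
  obtain ⟨q, m, a, b, c, hq, ha, hL⟩ := h
  refine ⟨q, m, fun j S => a j (S.map σ.symm.toEmbedding), b, c, hq, fun j S hS => ha j _ ?_,
    fun x => ?_⟩
  · rwa [card_map]
  · show L _ = c ↔ _
    rw [hL]
    refine forall_congr' fun j => ?_
    have e : ∑ S : Finset V, a j (S.map σ.symm.toEmbedding) *
        ∏ v ∈ S, (if x v then (1 : ZMod q) else 0) =
        ∑ S : Finset V, a j S * ∏ v ∈ S, (if x (σ v) then (1 : ZMod q) else 0) := by
      rw [← Equiv.sum_comp (Equiv.finsetCongr σ)]
      refine Finset.sum_congr rfl fun S _ => ?_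
      rw [Equiv.finsetCongr_apply, Finset.prod_map, Finset.map_map]
      congr 2
      have h1 : σ.toEmbedding.trans σ.symm.toEmbedding = Function.Embedding.refl V := by
        ext v
        simp
      rw [h1, Finset.map_refl]
    rw [e]

/-- The bounds for the lifted Tseitin systems which are needed for the permutation rule. -/
lemma exists_perm_ext {k n : ℕ} (hk : 1 ≤ k) (hn : 25 ≤ n) :
    ∃ (V : Type) (_ : Fintype V) (_ : DecidableEq V) (Φ : Finset (Clause V))
      (W : Type) (_ : Fintype W) (_ : DecidableEq W) (D : W → Finset V),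
      n ≤ Fintype.card V ∧ Fintype.card V ≤ 2 ^ (3 * k + 13) * n ∧
      Φ.card ≤ 2 ^ 2 ^ (3 * k + 13) * n ∧ (∀ C ∈ Φ, C.card ≤ 2 ^ (3 * k + 13)) ∧
      (∀ x, ∃ C ∈ Φ, ¬ Sat C x) ∧ Fintype.card W ≤ Fintype.card V ∧
      (∀ w, (D w).card = k + 1) ∧
      (∃ t : Der (V ⊕ W), t.IsRefutation (ExtAx Φ D) ∧ t.All (Mod2Line 1) ∧
        nodes t ≤ 2 ^ 2 ^ (3 * k + 13) * n) ∧
      (∀ t : Der V, t.IsRefutation (ClauseAx Φ) → t.All (ModLine k) →
        (2 : ℝ) ^ (Fintype.card V / 2 ^ (3 * k + 13) : ℝ) ≤ t.leaves) := by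
  obtain ⟨π, hπ⟩ := exists_perm hn
  have v0 : Fin n := ⟨0, by omega⟩
  have hw : 4 * ((k + 1) * (60 * 4 ^ (k + 1) + 1)) ≤ 2 ^ (3 * k + 13) := by
    have h1 := ext_size k
    have h2 : 4 * ((k + 1) * (60 * 4 ^ (k + 1) + 1)) ≤
        4 * ((k + 1 + 1) * (60 * 4 ^ (k + 1) + 1)) :=
      Nat.mul_le_mul_left _ (Nat.mul_le_mul_right _ (Nat.le_succ _))
    omega
  obtain ⟨t0, ht1, ht2, ht3, ht4⟩ := ext_short (p := k + 1) (b := 60 * 4 ^ (k + 1)) π v0
  refine ⟨Fin (k + 1) × Wt n (60 * 4 ^ (k + 1)), inferInstance, inferInstance, cnf π v0,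
    (Fin n × Bool) × Fin (60 * 4 ^ (k + 1)), inferInstance, inferInstance, DD,
    N_lower k n, (N_upper k n).trans (Nat.mul_le_mul_right _
      (Nat.pow_le_pow_right (by norm_num) (by omega))),
    (card_cnf π v0).trans (Nat.mul_le_mul_right _ (Nat.pow_le_pow_right (by norm_num) hw)),
    fun C hC => (width_cnf π v0 hC).trans hw, cnf_unsat π v0, WW_le k n, card_DD,
    ⟨t0, ht1, ht2, ht3.trans (Nat.mul_le_mul_right _
      (Nat.pow_le_pow_right (by norm_num) (ext_size k)))⟩, fun t ht hl => ?_⟩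
  exact nof_lower (π := π) (v0 := v0) hk hn hπ ht
    (hl.imp fun L hL => hL.norm (p := k + 1) (Nat.lt_succ_self k))

end Pool.Agent.TH699.TS
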