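import Pool.Agent.TH699.TS.Combo

/-!
Dag-like refutations in which few lines are used more than once.
-/

set_option autoImplicit false
set_option synthInstance.maxSize 1000

namespace Pool.Agent.TH699.TS

open Finset Pool.Agent.TH699.TD Pool.Agent.Helper600R2 Pool.Agent.H642R2.Dual

/-- the size of the unfolding of line `i`, stopping at the lines in `X` -/
def nd (P : ℕ → Finset ℕ) (X : ℕ → Prop) [DecidablePred X] : ℕ → ℕ
  | i => 2 + ∑ a ∈ ((P i).filter fun a => ¬ X a ∧ a < i).attach, nd P X a.1
termination_by i => i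
decreasing_by exact (mem_filter.1 a.2).2.2

lemma nd_eq {P : ℕ → Finset ℕ} {X : ℕ → Prop} [DecidablePred X] (i : ℕ) :
    nd P X i = 2 + ∑ a ∈ (P i).filter (fun a => ¬ X a ∧ a < i), nd P X a := by
  conv_lhs => rw [nd]
  rw [Finset.sum_attach _ (fun a => nd P X a)]

/-- the unfoldings of lines which are not used below `t` have total size at most `2 t` -/
lemma sum_nd {T : ℕ} {P : ℕ → Finset ℕ} {X : ℕ → Prop} [DecidablePred X]
    (hX : ∀ u, ¬ X u → ∀ i < T, ∀ i' < T, u ∈ P i → u ∈ P i' → i = i') :
    ∀ t ≤ T, ∀ A : Finset ℕ, (∀ a ∈ A, a < t) → (∀ a ∈ A, ∀ i < t, a ∉ P i) →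
      ∑ a ∈ A, nd P X a ≤ 2 * t := by
  intro t
  induction t with
  | zero =>
    intro _ A hA _
    have : A = ∅ := eq_empty_iff_forall_notMem.2 fun a ha => absurd (hA a ha) (Nat.not_lt_zero a)
    rw [this]
    simp
  | succ t ih =>
    intro ht A hA hn
    by_cases htA : t ∈ A
    · obtain ⟨B, hB⟩ : ∃ B, B = (P t).filter fun a => ¬ X a ∧ a < t := ⟨_, rfl⟩
      have hdisj : Disjoint (A.erase t) B := by
        rw [disjoint_left]
        intro a ha ha'
        rw [hB] at ha'
        exact hn a (mem_of_mem_erase ha) t (Nat.lt_succ_self t) (mem_filter.1 ha').1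
      have h1 := ih (by omega) (A.erase t ∪ B) (fun a ha => by
        rcases mem_union.1 ha with h | h
        · have h2 := hA a (mem_of_mem_erase h)
          have h3 := ne_of_mem_erase h
          omega
        · rw [hB] at h
          exact (mem_filter.1 h).2.2) (fun a ha i hi h => by
        rcases mem_union.1 ha with h' | h'
        · exact hn a (mem_of_mem_erase h') i (by omega) h
        · rw [hB] at h'
          have h2 := hX a (mem_filter.1 h').2.1 i (by omega) t (by omega) h (mem_filter.1 h').1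
          omega)
      rw [sum_union hdisj] at h1
      have h2 : ∑ a ∈ A, nd P X a = nd P X t + ∑ a ∈ A.erase t, nd P X a :=
        (Finset.add_sum_erase A _ htA).symm
      rw [h2, nd_eq, ← hB]
      omega
    · have h1 := ih (by omega) A (fun a ha => by
        have h2 := hA a ha
        have h3 : a ≠ t := fun h => htA (h ▸ ha)
        omega) (fun a ha i hi => hn a ha i (by omega))
      omega

section dec

variable {p : ℕ} {W ι : Type} [Fintype ι] {K : ι → Line (Fin p × W)}

lemma nofLine_top {g : ℝ} (hg : 0 ≤ g) : NofLine g (fun _ : Fin p × W → Bool => true) :=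
  (NBp.zero.mono hg).congr fun y => by simp

/-- the unfolding of a line; all reused lines are true on the region `r` -/
lemma unfold_tree {T : ℕ} {L : ℕ → Line (Fin p × W)} {P : ℕ → Finset ℕ}
    (hD : IsDag (Local K) T L P) (htwo : ∀ i < T, (P i).card ≤ 2) {g : ℝ} (hg : 0 ≤ g)
    (hL : ∀ i < T, NofLine g (L i)) {X : ℕ → Prop} [DecidablePred X] {r : Line (Fin p × W)}
    (i : ℕ) : i < T → (∀ u < i, X u → ¬ Local K (L u) → ∀ x, r x = true → L u x = true) →
    ∃ t : Der (Fin p × W), t.line = L i ∧ t.All (NofLine g) ∧ OKs K r t ∧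
      t.leaves ≤ nd P X i := by
  classical
  induction i using Nat.strong_induction_on with
  | _ i ih =>
  intro hi hU
  by_cases hA : Local K (L i)
  · obtain ⟨c, hc⟩ := hA
    refine ⟨.ax (L i), rfl, hL i hi, ⟨c, fun x _ hx => hc x hx⟩, ?_⟩
    rw [nd_eq]
    show 1 ≤ _
    omega
  · have hstep := (hD.step i hi).resolve_left hA
    have hprem : ∀ a ∈ P i, ∃ t : Der (Fin p × W), t.line = L a ∧ t.All (NofLine g) ∧
        OKs K r t ∧ t.leaves ≤ 1 + if ¬ X a ∧ a < i then nd P X a else 0 := by
      intro a ha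
      have hai := hD.lt i hi a ha
      by_cases hAa : Local K (L a)
      · obtain ⟨c, hc⟩ := hAa
        refine ⟨.ax (L a), rfl, hL a (by omega), ⟨c, fun x _ hx => hc x hx⟩, ?_⟩
        show 1 ≤ _
        omega
      · by_cases hXa : X a
        · exact ⟨.triv (L a), rfl, hL a (by omega), hU a hai hXa hAa, Nat.zero_le _⟩
        · obtain ⟨t, h1, h2, h3, h4⟩ := ih a hai (by omega) fun u hu => hU u (by omega)
          refine ⟨t, h1, h2, h3, ?_⟩
          rw [if_pos ⟨hXa, hai⟩]
          omega
    have hsum : nd P X i = 2 + ∑ a ∈ P i, if ¬ X a ∧ a < i then nd P X a else 0 := by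
      rw [nd_eq, sum_filter]
    have h2 := htwo i hi
    have hcases : (P i).card = 0 ∨ (P i).card = 1 ∨ (P i).card = 2 := by omega
    rcases hcases with h | h | h
    · rw [card_eq_zero] at h
      refine ⟨.triv (L i), rfl, hL i hi, fun x _ => hstep x fun j hj => ?_, Nat.zero_le _⟩
      rw [h] at hj
      exact absurd hj (notMem_empty j)
    · obtain ⟨a, ha⟩ := card_eq_one.1 h
      obtain ⟨t, h3, h4, h5, h6⟩ := hprem a (by rw [ha]; exact mem_singleton_self a)
      refine ⟨.inf (L i) t (.triv fun _ => true), rfl, ⟨hL i hi, h4, nofLine_top hg⟩,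
        ⟨fun x _ h7 _ => hstep x fun j hj => ?_, h5, fun _ _ => rfl⟩, ?_⟩
      · rw [ha, mem_singleton] at hj
        rw [hj, ← h3]
        exact h7
      · rw [hsum, ha, sum_singleton]
        show t.leaves + 0 ≤ _
        omega
    · obtain ⟨a, b, hab, hP⟩ := card_eq_two.1 h
      obtain ⟨t, h3, h4, h5, h6⟩ := hprem a (by rw [hP]; exact mem_insert_self a _)
      obtain ⟨t', h3', h4', h5', h6'⟩ := hprem b (by
        rw [hP]
        exact mem_insert_of_mem (mem_singleton_self b))
      refine ⟨.inf (L i) t t', rfl, ⟨hL i hi, h4, h4'⟩,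
        ⟨fun x _ h7 h8 => hstep x fun j hj => ?_, h5, h5'⟩, ?_⟩
      · rw [hP, mem_insert, mem_singleton] at hj
        rcases hj with rfl | rfl
        · rw [← h3]
          exact h7
        · rw [← h3']
          exact h8
      · rw [hsum, hP, sum_insert (by simpa using hab), sum_singleton]
        show t.leaves + t'.leaves ≤ _
        omega

/-- asking for all the reused lines -/
lemma reuse_dec [Nonempty ι] {T : ℕ} {L : ℕ → Line (Fin p × W)} {P : ℕ → Finset ℕ}
    (hD : IsDag (Local K) T L P) (htwo : ∀ i < T, (P i).card ≤ 2) {g : ℝ} (hg : 0 ≤ g)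
    (hL : ∀ i < T, NofLine g (L i)) {U : Finset ℕ}
    (hU : ∀ u, u ∉ U → ¬ Local K (L u) → ∀ i < T, ∀ i' < T, u ∈ P i → u ∈ P i' → i = i')
    {h : ℕ} (hh : 2 * T * 2 ^ h ≤ 3 ^ h) (m : ℕ) : ∀ (r : Line (Fin p × W)) (ρ : ℝ)
    (U' : Finset ℕ) (j : ℕ), NBp (pm r) ρ → j < T →
    (∀ u ∈ U, u < j → u ∉ U' → ∀ x, r x = true → L u x = true) → U'.card ≤ m →
    (∀ u ∈ U', u < j) → Dec K (fun y => pm r y * (1 - pm (L j) y)) (ρ * g * (1 + 2 * g) ^ (h + m))
    := by
  classical
  induction m with
  | zero =>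
    intro r ρ U' j hr hj hr' hc _
    have hU'e : U' = ∅ := card_eq_zero.1 (by omega)
    obtain ⟨t, h1, h2, h3, h4⟩ := unfold_tree (X := fun u => u ∈ U ∨ Local K (L u)) (r := r) hD
      htwo hg hL j hj (fun u hu hX hA => hr' u (hX.resolve_right hA) hu (by
        rw [hU'e]
        exact notMem_empty u))
    have h5 := sum_nd (T := T) (P := P) (X := fun u => u ∈ U ∨ Local K (L u))
      (fun u hu i hi i' hi' => by
        rw [not_or] at hu
        exact hU u hu.1 hu.2 i hi i' hi') (j + 1) (by omega) {j}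
      (fun a ha => by
        rw [mem_singleton] at ha
        omega)
      (fun a ha i hi hai => by
        rw [mem_singleton] at ha
        have := hD.lt i (by omega) a hai
        omega)
    rw [sum_singleton] at h5
    have h6 : t.leaves * 2 ^ h ≤ 3 ^ h :=
      (Nat.mul_le_mul_right _ (h4.trans (h5.trans (Nat.mul_le_mul_left 2 hj)))).trans hh
    have h7 := bals h t r ρ h3 h2 hr h6
    rw [h1] at h7
    exact h7
  | succ m ih =>
    intro r ρ U' j hr hj hr' hc hlt
    rcases U'.eq_empty_or_nonempty with he | ⟨u, hu⟩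
    · refine (ih r ρ U' j hr hj hr' (by rw [he]; simp) hlt).mono ?_
      have h1 : (1 + 2 * g) ^ (h + m) ≤ (1 + 2 * g) ^ (h + (m + 1)) :=
        pow_le_pow_right₀ (by linarith) (by omega)
      exact mul_le_mul_of_nonneg_left h1 (mul_nonneg hr.nonneg hg)
    · have huj := hlt u hu
      have hrR : NBp (pm (fun x => r x && L u x)) (ρ * (1 + g)) :=
        (hr.mul (pm_true (hL u (by omega)))).congr fun y => cv_and _ _
      have e1 := ih (fun x => r x && L u x) _ (U'.erase u) j hrR hj
        (fun v hv hvj hvU x hx => by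
          obtain ⟨h3, h4⟩ := Bool.and_eq_true_iff.1 hx
          by_cases hvu : v = u
          · rw [hvu]
            exact h4
          · exact hr' v hv hvj (fun h5 => hvU (mem_erase.2 ⟨hvu, h5⟩)) x h3)
        (by rw [card_erase_of_mem hu]; omega) (fun v hv => hlt v (mem_of_mem_erase hv))
      have e2 := ih r ρ (U'.filter (· < u)) u hr (by omega)
        (fun v hv hvu hvU => hr' v hv (by omega) fun h5 => hvU (mem_filter.2 ⟨h5, hvu⟩))
        (by
          have h1 : U'.filter (· < u) ⊆ U'.erase u := fun v hv =>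
            mem_erase.2 ⟨(mem_filter.1 hv).2.ne, (mem_filter.1 hv).1⟩
          have h2 := card_le_card h1
          rw [card_erase_of_mem hu] at h2
          omega) (fun v hv => (mem_filter.1 hv).2)
      have e3 := e1.add (e2.mul (pm_false (hL j hj)))
      refine (e3.mono (le_of_eq (by ring))).congr fun y => ?_
      have e4 : pm (fun x => r x && L u x) y = pm r y * pm (L u) y := cv_and _ _
      rw [e4]
      ring

/-- refutations in which only the lines in `U` (and axioms) are used more than once -/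
lemma reuse_one [Nonempty ι] {T : ℕ} {L : ℕ → Line (Fin p × W)} {P : ℕ → Finset ℕ}
    (hD : IsDag (Local K) T L P) (htwo : ∀ i < T, (P i).card ≤ 2) {g : ℝ} (hg : 0 ≤ g)
    (hL : ∀ i < T, NofLine g (L i)) {U : Finset ℕ}
    (hU : ∀ u, u ∉ U → ¬ Local K (L u) → ∀ i < T, ∀ i' < T, u ∈ P i → u ∈ P i' → i = i')
    {h : ℕ} (hh : 2 * T * 2 ^ h ≤ 3 ^ h) : Dec K (fun _ => 1) (g * (1 + 2 * g) ^ (h + U.card)) := by
  obtain ⟨j, hj, hf⟩ := hD.final
  have h1 : NBp (pm (fun _ : Fin p × W → Bool => true)) 1 := by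
    refine NBp.one.congr fun y => ?_
    simp [pm, cv]
  refine ((reuse_dec hD htwo hg hL hU hh U.card _ 1 (U.filter (· < j)) j h1 hj
    (fun u hu huj hn => absurd (mem_filter.2 ⟨hu, huj⟩) hn) (card_filter_le _ _)
    (fun u hu => (mem_filter.1 hu).2)).mono (le_of_eq (by ring))).congr fun y => ?_
  have h2 := hf (fun v => y v.1 v.2)
  simp [pm, cv, h2]

end dec

end Pool.Agent.TH699.TS
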