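import Pool.Agent.TH699.TS.Reuse

/-!
Dag-like refutations of the lifted Tseitin systems in which few lines are used more than once.
-/

set_option autoImplicit false
set_option synthInstance.maxSize 1000

namespace Pool.Agent.TH699.TS

open Finset Pool.Agent.TH699.TD Pool.Agent.Helper600R2 Pool.Agent.H642R2.Dual

section lower

variable {p n : ℕ} {π : Equiv.Perm (Fin n)} (v0 : Fin n)

lemma reuse_lower (hp : 2 ≤ p) (hn : 25 ≤ n)
    (hπ : ∀ U : Finset (Fin n), U.card + 1 = n / 2 → n ≤ 60 * (cut π U).card) {g : ℝ}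
    (hg : 1 ≤ g) {T : ℕ} {L : ℕ → Line (Fin p × Wt n (60 * 4 ^ p))} {P : ℕ → Finset ℕ}
    (hD : IsDag (Local (fun v : Fin n => viol (p := p) (b := 60 * 4 ^ p) π v0 v)) T L P)
    (htwo : ∀ i < T, (P i).card ≤ 2) (hL : ∀ i < T, NofLine g (L i)) {U : Finset ℕ}
    (hU : ∀ u, u ∉ U → ¬ Local (fun v : Fin n => viol (p := p) (b := 60 * 4 ^ p) π v0 v) (L u) →
      ∀ i < T, ∀ i' < T, u ∈ P i → u ∈ P i' → i = i') :
    (n : ℝ) ≤ (U.card + 2 * Real.logb 2 T + 5) * Real.logb 2 (1 + 2 * g) := by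
  have : Nonempty (Fin n) := ⟨v0⟩
  have hT : 1 ≤ T := by
    obtain ⟨j, hj, -⟩ := hD.final
    omega
  obtain ⟨c, hc⟩ : ∃ c, c = Nat.clog 2 (2 * T) := ⟨_, rfl⟩
  have h1 : 2 * T ≤ 2 ^ c := hc ▸ Nat.le_pow_clog (by norm_num) _
  have hh : 2 * T * 2 ^ (2 * c) ≤ 3 ^ (2 * c) := by
    calc 2 * T * 2 ^ (2 * c) ≤ 2 ^ c * 2 ^ (2 * c) := Nat.mul_le_mul_right _ h1
      _ = (2 ^ 3) ^ c := by
          rw [← pow_add, ← pow_mul]
          congr 1
          ring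
      _ ≤ (3 ^ 2) ^ c := Nat.pow_le_pow_left (by norm_num) c
      _ = 3 ^ (2 * c) := by rw [← pow_mul]
  have h2 := dec_lower v0 hp (by omega) (by omega) hπ
    (reuse_one hD htwo (by linarith) hL hU hh)
  have h3 : (2 : ℝ) ^ n ≤ (1 + 2 * g) ^ (2 * c + U.card + 1) := by
    refine h2.trans ?_
    rw [pow_succ _ (2 * c + U.card), mul_comm]
    exact mul_le_mul_of_nonneg_left (by linarith) (pow_nonneg (by linarith) _)
  have h4 := Real.logb_le_logb_of_le (b := 2) (by norm_num) (by positivity) h3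
  rw [Real.logb_pow, Real.logb_pow, Real.logb_self_eq_one (by norm_num)] at h4
  push_cast at h4
  have h5 := clog_le (2 * T) (by omega)
  rw [← hc] at h5
  have hT0 : (0 : ℝ) < T := by exact_mod_cast hT
  have h6 : Real.logb 2 ((2 * T : ℕ) : ℝ) = 1 + Real.logb 2 T := by
    push_cast
    rw [Real.logb_mul (by norm_num) hT0.ne', Real.logb_self_eq_one (by norm_num)]
  rw [h6] at h5
  have h7 : 0 ≤ Real.logb 2 (1 + 2 * g) := Real.logb_nonneg (by norm_num) (by linarith)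
  rw [mul_one] at h4
  refine h4.trans (mul_le_mul_of_nonneg_right ?_ h7)
  linarith

end lower

lemma fin_reuse {x s T : ℝ} (hT : 1 ≤ T) (h : x ≤ s + Real.logb 2 T + 1) :
    (2 : ℝ) ^ (x - s - 1 : ℝ) ≤ T := by
  calc (2 : ℝ) ^ (x - s - 1 : ℝ) ≤ 2 ^ Real.logb 2 T :=
        Real.rpow_le_rpow_of_exponent_le (by norm_num) (by linarith)
    _ = T := Real.rpow_logb (by norm_num) (by norm_num) (by linarith)

/-- Dag-like refutations with few reused lines. -/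
lemma exists_reuse {k n : ℕ} (hk : 1 ≤ k) (hn : 25 ≤ n) :
    ∃ (V : Type) (_ : Fintype V) (_ : DecidableEq V) (Φ : Finset (Clause V)),
      n ≤ Fintype.card V ∧ Fintype.card V ≤ 2 ^ (3 * k + 9) * n ∧ 2 ^ 16 ≤ Fintype.card V ∧
      Φ.card ≤ 2 ^ 2 ^ (3 * k + 10) * n ∧ (∀ C ∈ Φ, C.card ≤ 2 ^ (3 * k + 10)) ∧
      (∀ x, ∃ C ∈ Φ, ¬ Sat C x) ∧
      (∃ t : Der V, t.IsRefutation (ClauseAx Φ) ∧ t.All (Mod2Line (k + 1)) ∧
        nodes t ≤ 2 ^ 2 ^ (3 * k + 13) * n) ∧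
      (∀ (r T : ℕ) (L : ℕ → Line V) (P : ℕ → Finset ℕ) (U : Finset ℕ),
        IsDag (ClauseAx Φ) T L P → (∀ i < T, (P i).card ≤ 2) →
        (∀ i < T, Combo r (ModLine k) (L i)) →
        (∀ u, u ∉ U → ¬ ClauseAx Φ (L u) →
          ∀ i < T, ∀ i' < T, u ∈ P i → u ∈ P i' → i = i') →
        (2 : ℝ) ^ (Fintype.card V / (2 ^ (3 * k + 13) * (r + 1)) - U.card - 1 : ℝ) ≤ T) ∧
      (∀ (r T : ℕ) (L : ℕ → Line V) (P : ℕ → Finset ℕ) (U : Finset ℕ),
        IsDag (ClauseAx Φ) T L P → (∀ i < T, (P i).card ≤ 2) →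
        (∀ i < T, Combo r (fun L => PolyLine k L ∨ ModLine k L) (L i)) →
        (∀ u, u ∉ U → ¬ ClauseAx Φ (L u) →
          ∀ i < T, ∀ i' < T, u ∈ P i → u ∈ P i' → i = i') →
        (2 : ℝ) ^ (Fintype.card V / (2 ^ (4 * k + 13) * (r + 1) *
          Real.logb 2 (Fintype.card V)) - U.card - 1 : ℝ) ≤ T) := by
  obtain ⟨π, hπ⟩ := exists_perm hn
  have v0 : Fin n := ⟨0, by omega⟩
  obtain ⟨N, hN⟩ : ∃ N, N = Fintype.card (Fin (k + 1) × Wt n (60 * 4 ^ (k + 1))) := ⟨_, rfl⟩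
  have hN1 := N_upper k n
  have hN2 := N_lower k n
  have hN3 := N_big hk hn
  have hw : 4 * ((k + 1) * (60 * 4 ^ (k + 1) + 1)) ≤ 2 ^ (3 * k + 10) := by
    calc 4 * ((k + 1) * (60 * 4 ^ (k + 1) + 1)) ≤ 4 * 2 ^ (3 * k + 8) :=
          Nat.mul_le_mul_left _ (base_size k)
      _ = 2 ^ (3 * k + 10) := by
          rw [show 4 = 2 ^ 2 from rfl, ← pow_add]
          congr 1
          ring
  have h2w : 2 ^ (4 * ((k + 1) * (60 * 4 ^ (k + 1) + 1))) * n ≤ 2 ^ 2 ^ (3 * k + 10) * n :=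
    Nat.mul_le_mul_right _ (Nat.pow_le_pow_right (by norm_num) hw)
  have h13 : 2 ^ (3 * k + 13) = 8 * 2 ^ (3 * k + 10) := by
    rw [show 3 * k + 13 = (3 * k + 10) + 3 from rfl, pow_add]
    ring
  have h10 : 1 ≤ 2 ^ (3 * k + 10) := Nat.one_le_two_pow
  have h3w : 2 ^ (4 * ((k + 1) * (60 * 4 ^ (k + 1) + 1)) + 2) * n ≤ 2 ^ 2 ^ (3 * k + 13) * n :=
    Nat.mul_le_mul_right _ (Nat.pow_le_pow_right (by norm_num) (by omega))
  have h4w : 4 * ((k + 1) * (60 * 4 ^ (k + 1) + 1)) + 2 ≤ 2 ^ (3 * k + 13) := by omega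
  obtain ⟨t0, ht1, ht2, ht3, ht4⟩ :=
    tree_short (b := 60 * 4 ^ (k + 1)) π v0 (show 1 ≤ k + 1 by omega)
  -- the norm of inequalities
  obtain ⟨g, hg⟩ : ∃ g : ℝ, g = 1 +
      ((6 * (2 * (Fintype.card (Fin (k + 1) × Wt n (60 * 4 ^ (k + 1))) + 1) ^ k) ^ 3 : ℕ) : ℝ) *
        ((k + 1 : ℕ) * 2 ^ (k + 1)) := ⟨_, rfl⟩
  rw [← hN] at hN1 hN2 hN3
  have hgN : 1 + 2 * g ≤ (N : ℝ) ^ (4 * k) := by
    have h1 := G_upper hk hN3
    have h2 : ((3 + 2 * (6 * (2 * (N + 1) ^ k) ^ 3 * ((k + 1) * 2 ^ (k + 1))) : ℕ) : ℝ) ≤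
        ((N ^ (4 * k) : ℕ) : ℝ) := by exact_mod_cast h1
    rw [hg, ← hN]
    push_cast at h2 ⊢
    linarith
  have hg1 : 1 ≤ g := by
    rw [hg]
    have : (0 : ℝ) ≤
      ((6 * (2 * (Fintype.card (Fin (k + 1) × Wt n (60 * 4 ^ (k + 1))) + 1) ^ k) ^ 3 : ℕ) : ℝ) *
        ((k + 1 : ℕ) * 2 ^ (k + 1)) := by positivity
    linarith
  have hN0 : (0 : ℝ) < N := by
    have : 0 < N := lt_of_lt_of_le (by norm_num) hN3
    exact_mod_cast this
  have hN1' : (N : ℝ) ≤ 2 ^ (3 * k + 9) * n := by exact_mod_cast hN1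
  have hlN : 0 < Real.logb 2 N := by
    refine Real.logb_pos (by norm_num) ?_
    have : 1 < N := lt_of_lt_of_le (by norm_num) hN3
    exact_mod_cast this
  have hk4 : (4 * k : ℝ) ≤ 2 ^ (k + 1) := by exact_mod_cast four_k_le hk
  have hlg2 : Real.logb 2 (1 + 2 * g) ≤ 2 ^ (k + 1) * Real.logb 2 N := by
    calc Real.logb 2 (1 + 2 * g) ≤ Real.logb 2 ((N : ℝ) ^ (4 * k)) :=
          Real.logb_le_logb_of_le (by norm_num) (by linarith) hgN
      _ = (4 * k : ℝ) * Real.logb 2 N := by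
          rw [Real.logb_pow]
          push_cast
          rfl
      _ ≤ _ := mul_le_mul_of_nonneg_right hk4 hlN.le
  have hlg1 : Real.logb 2 (1 + g) ≤ 2 ^ (k + 1) * Real.logb 2 N :=
    (Real.logb_le_logb_of_le (by norm_num) (by linarith) (by linarith)).trans hlg2
  have hlines : ∀ L : Line (Fin (k + 1) × Wt n (60 * 4 ^ (k + 1))),
      PolyLine k L ∨ ModLine k L → NofLine g L := by
    rintro L (hL | hL)
    · have := hL.norm (p := k + 1) (Nat.lt_succ_self k)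
      rw [hg]
      exact this
    · refine NofLine.mono (hL.norm (p := k + 1) (Nat.lt_succ_self k)) ?_
      have h1 : (1 : ℝ) ≤
        ((6 * (2 * (Fintype.card (Fin (k + 1) × Wt n (60 * 4 ^ (k + 1))) + 1) ^ k) ^ 3 : ℕ) : ℝ) *
          ((k + 1 : ℕ) * 2 ^ (k + 1)) := by
        have : 1 ≤ (6 * (2 * (Fintype.card (Fin (k + 1) × Wt n (60 * 4 ^ (k + 1))) + 1) ^ k) ^ 3) *
            ((k + 1) * 2 ^ (k + 1)) := Nat.one_le_iff_ne_zero.2 (by positivity)
        exact_mod_cast this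
      rw [hg]
      linarith
  have hp : 2 ≤ k + 1 := by omega
  have hloc := fun (L : Line (Fin (k + 1) × Wt n (60 * 4 ^ (k + 1))))
    (h : ClauseAx (cnf π v0) L) => ClauseAx.loc π v0 h
  have h8k : (2 : ℝ) ^ (3 * k + 13) = 2 ^ (3 * k + 9) * 16 := by
    rw [show (16 : ℝ) = 2 ^ 4 by norm_num, ← pow_add]
  have hlog5 : Real.logb 2 (1 + 2 * 2) ≤ 7 / 3 := by
    rw [Real.logb_le_iff_le_rpow (by norm_num) (by norm_num)]
    have h6 : ((5 : ℝ) ^ (3 : ℕ)) ≤ ((2 : ℝ) ^ (7 / 3 : ℝ)) ^ (3 : ℕ) := by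
      rw [← Real.rpow_natCast ((2 : ℝ) ^ (7 / 3 : ℝ)), ← Real.rpow_mul (by norm_num)]
      norm_num
    have h7 := le_of_pow_le_pow_left₀ (by norm_num) (by positivity) h6
    linarith
  refine ⟨Fin (k + 1) × Wt n (60 * 4 ^ (k + 1)), inferInstance, inferInstance, cnf π v0, ?_, ?_,
    ?_, (card_cnf π v0).trans h2w, fun C hC => (width_cnf π v0 hC).trans hw, cnf_unsat π v0, ?_,
    ?_, ?_⟩
  · rw [← hN]; exact hN2
  · rw [← hN]; exact hN1
  · rw [← hN]; exact hN3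
  · exact ⟨t0, ht1, ht2, ht3.trans h3w⟩
  · intro r T L P U hD htwo hL hU
    rw [← hN]
    have hr0 : (0 : ℝ) < r + 1 := by positivity
    have hg5 : (1 : ℝ) ≤ (1 + 2 * 2) ^ r := one_le_pow₀ (by norm_num)
    have key := reuse_lower v0 hp hn hπ hg5 (IsDag.mono hloc hD) htwo
      (fun i hi => ((hL i hi).mono fun M hM =>
        hM.norm (p := k + 1) (Nat.lt_succ_self k)).norm (by norm_num))
      (fun u hu hA => hU u hu fun h => hA (hloc _ h))
    obtain ⟨j, hj, -⟩ := hD.final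
    have hT : (1 : ℝ) ≤ T := by exact_mod_cast (show 1 ≤ T by omega)
    clear hU hL htwo hD
    have hT0 : 0 ≤ Real.logb 2 T := Real.logb_nonneg (by norm_num) hT
    have hU0 : (0 : ℝ) ≤ U.card := Nat.cast_nonneg _
    have hd0 : (0 : ℝ) ≤ U.card + 2 * Real.logb 2 T + 5 := by positivity
    have hc := (logb_combo (g := 2) (by norm_num) r).trans
      (mul_le_mul_of_nonneg_left hlog5 hr0.le)
    refine fin_reuse hT ?_
    rw [div_le_iff₀ (by positivity), h8k]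
    calc (N : ℝ) ≤ 2 ^ (3 * k + 9) * n := hN1'
      _ ≤ 2 ^ (3 * k + 9) * ((U.card + 2 * Real.logb 2 T + 5) * ((r + 1) * (7 / 3))) := by
          refine mul_le_mul_of_nonneg_left (key.trans ?_) (by positivity)
          exact mul_le_mul_of_nonneg_left hc hd0
      _ = 2 ^ (3 * k + 9) * ((r + 1) * ((U.card + 2 * Real.logb 2 T + 5) * (7 / 3))) := by ring
      _ ≤ 2 ^ (3 * k + 9) * ((r + 1) * ((U.card + Real.logb 2 T + 1) * 16)) := by
          refine mul_le_mul_of_nonneg_left (mul_le_mul_of_nonneg_left ?_ hr0.le) (by positivity)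
          linarith
      _ = _ := by ring
  · intro r T L P U hD htwo hL hU
    rw [← hN]
    have hr0 : (0 : ℝ) < r + 1 := by positivity
    have hgr : (1 : ℝ) ≤ (1 + 2 * g) ^ r := one_le_pow₀ (by linarith)
    have key := reuse_lower v0 hp hn hπ hgr (IsDag.mono hloc hD) htwo
      (fun i hi => ((hL i hi).mono hlines).norm (by linarith))
      (fun u hu hA => hU u hu fun h => hA (hloc _ h))
    obtain ⟨j, hj, -⟩ := hD.final
    have hT : (1 : ℝ) ≤ T := by exact_mod_cast (show 1 ≤ T by omega)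
    clear hU hL htwo hD
    have hT0 : 0 ≤ Real.logb 2 T := Real.logb_nonneg (by norm_num) hT
    have hU0 : (0 : ℝ) ≤ U.card := Nat.cast_nonneg _
    have hd0 : (0 : ℝ) ≤ U.card + 2 * Real.logb 2 T + 5 := by positivity
    have hc := (logb_combo hg1 r).trans (mul_le_mul_of_nonneg_left hlg2 hr0.le)
    refine fin_reuse hT ?_
    have h8 : (2 : ℝ) ^ (4 * k + 13) = 2 ^ (3 * k + 9) * (8 * 2 ^ (k + 1)) := by
      rw [show (8 : ℝ) = 2 ^ 3 by norm_num, ← pow_add, ← pow_add]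
      congr 1
      ring
    have hq : (0 : ℝ) ≤ 2 ^ (3 * k + 9) * ((r + 1) * (2 ^ (k + 1) * Real.logb 2 N)) := by
      positivity
    rw [div_le_iff₀ (by positivity), h8]
    calc (N : ℝ) ≤ 2 ^ (3 * k + 9) * n := hN1'
      _ ≤ 2 ^ (3 * k + 9) * ((U.card + 2 * Real.logb 2 T + 5) *
          ((r + 1) * (2 ^ (k + 1) * Real.logb 2 N))) := by
          refine mul_le_mul_of_nonneg_left (key.trans ?_) (by positivity)
          exact mul_le_mul_of_nonneg_left hc hd0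
      _ = 2 ^ (3 * k + 9) * ((r + 1) * (2 ^ (k + 1) * Real.logb 2 N)) *
          (U.card + 2 * Real.logb 2 T + 5) := by ring
      _ ≤ 2 ^ (3 * k + 9) * ((r + 1) * (2 ^ (k + 1) * Real.logb 2 N)) *
          ((U.card + Real.logb 2 T + 1) * 8) := by
          refine mul_le_mul_of_nonneg_left ?_ hq
          linarith
      _ = _ := by ring

end Pool.Agent.TH699.TS
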