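import Pool.Agent.TH699.TS.ExtFin

/-!
Linear inequalities in extension variables which miss a block.
-/

set_option autoImplicit false
set_option synthInstance.maxSize 1000

namespace Pool.Agent.TH699.TS

open Finset Pool.Agent.TH699.TD Pool.Agent.Helper600R2 Pool.Agent.H642R2.Dual

/-- thresholds of weighted sums of Boolean functions each of which misses a party -/
lemma thr_norm {p : ℕ} {X ι : Type} [Fintype ι] (m : ι → (Fin p → X) → Bool) (μ : ι → Fin p)
    (hm : ∀ a, Indep (μ a) (m a)) (w : ι → ℝ) (c : ℝ) :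
    NBp (fun y : Fin p → X => if ∑ a, w a * (if m a y then 1 else 0) < c then (1 : ℂ) else 0)
      (1 + ((6 * (Fintype.card ι + 1) ^ 3 : ℕ) : ℝ) * (p * 2 ^ p)) := by
  classical
  obtain ⟨M, hM⟩ : ∃ M, M = Fintype.card (Option ι) := ⟨_, rfl⟩
  have hM1 : 1 ≤ M := by
    rw [hM, Fintype.card_option]
    omega
  obtain ⟨b, hb1, hb2⟩ := frank_tardos (ι := Option ι) M M
    (fun o => match o with
      | none => c
      | some S => -w S) (by
      rw [hM, ← card_univ]
      exact card_filter_le _ _)
  rw [← hM] at hb1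
  obtain ⟨B, hB⟩ : ∃ B : ℕ, B = (4 * (M + 1) ^ (M + 1)) ^ M := ⟨_, rfl⟩
  have hb1' : ∀ o, |b o| ≤ (B : ℤ) := by
    intro o
    rw [hB]
    push_cast
    exact hb1 o
  have hfalse : ∀ y : Fin p → X, (∑ a, w a * (if m a y then (1 : ℝ) else 0) < c) ↔
      0 < b none + ∑ S : ι, b (some S) * (if m S y then 1 else 0) := by
    intro y
    have h1 := (hb2 (fun o => match o with
      | none => 1
      | some S => (if m S y then 1 else 0)) (by
        calc _ ≤ ∑ _o : Option ι, (1 : ℤ) := by
              refine Finset.sum_le_sum fun o _ => ?_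
              cases o with
              | none => simp
              | some S =>
                simp only
                split_ifs <;> simp
          _ = M := by
              rw [Finset.sum_const, card_univ, ← hM]
              simp)).1
    rw [Fintype.sum_option, Fintype.sum_option] at h1
    simp only [mul_one] at h1
    rw [← h1]
    have h3 : ∑ S : ι, -w S * (((if m S y then (1 : ℤ) else 0) : ℤ) : ℝ) =
        -∑ S : ι, w S * (if m S y then (1 : ℝ) else 0) := by
      rw [← Finset.sum_neg_distrib]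
      refine Finset.sum_congr rfl fun S _ => ?_
      split_ifs <;> simp
    rw [h3]
    simp only [Int.cast_one, mul_one]
    constructor <;> intro h <;> linarith
  obtain ⟨T, hT⟩ : ∃ T : Fin p → (Fin p → X) → ℤ, T = fun i y =>
    ∑ S ∈ (univ : Finset ι).filter (fun S => μ S = i), b (some S) * (if m S y then 1 else 0) :=
    ⟨_, rfl⟩
  have hTI : ∀ i, Indep i (T i) := by
    intro i y z
    rw [hT]
    simp only
    refine Finset.sum_congr rfl fun S hS => ?_
    rw [mem_filter] at hS
    have h1 := hm S y z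
    rw [hS.2] at h1
    rw [h1]
  have hTb : ∀ i y, |T i y| ≤ M * B := by
    intro i y
    rw [hT]
    simp only
    calc |∑ S ∈ (univ : Finset ι).filter (fun S => μ S = i), b (some S) * (if m S y then 1 else 0)|
        ≤ ∑ S ∈ (univ : Finset ι).filter (fun S => μ S = i),
        |b (some S) * (if m S y then 1 else 0)| := Finset.abs_sum_le_sum_abs _ _
      _ ≤ ∑ _S ∈ (univ : Finset ι).filter (fun S => μ S = i), (B : ℤ) := by
          refine Finset.sum_le_sum fun S _ => ?_
          split_ifs
          · rw [mul_one]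
            exact hb1' _
          · simp
      _ ≤ M * B := by
          rw [Finset.sum_const, nsmul_eq_mul]
          refine mul_le_mul_of_nonneg_right ?_ (Int.natCast_nonneg _)
          have h1 : ((univ : Finset ι).filter (fun S => μ S = i)).card ≤ M := by
            refine (card_filter_le _ _).trans ?_
            rw [card_univ, hM, Fintype.card_option]
            omega
          exact_mod_cast h1
  have hTs : ∀ y, ∑ i, T i y = ∑ S : ι, b (some S) * (if m S y then 1 else 0) := by
    intro y
    rw [hT]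
    exact Finset.sum_fiberwise _ _ _
  have h5 := NBp.thr (6 * M ^ 3) (fun i y => (T i y + M * B).toNat)
    ((p : ℤ) * (M * B) - b none + 1).toNat (fun i y z => by simp only; rw [hTI]) (fun i y => by
      have h1 := abs_le.1 (hTb i y)
      have h2 := bits_bound M hM1
      rw [← hB] at h2
      have h3 : (T i y + M * B).toNat ≤ 2 * (M * B) := by
        rw [Int.toNat_le]
        push_cast
        linarith [h1.2]
      exact lt_of_le_of_lt h3 h2)
  refine (h5.mono ?_).congr fun y => ?_
  · rw [hM, Fintype.card_option]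
  · have hiff : (∑ a, w a * (if m a y then (1 : ℝ) else 0) < c) ↔
        ((p : ℤ) * (M * B) - b none + 1).toNat ≤ ∑ i, (T i y + M * B).toNat := by
      rw [hfalse, ← hTs, Int.toNat_le]
      have h6 : ((∑ i, (T i y + M * B).toNat : ℕ) : ℤ) = ∑ i, T i y + p * (M * B) := by
        have h7 : ∀ i, (((T i y + M * B).toNat : ℕ) : ℤ) = T i y + M * B := by
          intro i
          have h1 := abs_le.1 (hTb i y)
          exact Int.toNat_of_nonneg (by linarith [h1.1])
        rw [Nat.cast_sum]
        simp_rw [h7]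
        rw [Finset.sum_add_distrib]
        simp
      rw [h6]
      constructor <;> intro h <;> linarith
    by_cases h8 : ∑ a, w a * (if m a y then (1 : ℝ) else 0) < c
    · rw [if_pos h8, if_pos (hiff.1 h8)]
    · rw [if_neg h8, if_neg (fun h => h8 (hiff.2 h))]

/-- a polynomial of degree one -/
lemma sum_deg_one {V : Type} [Fintype V] [DecidableEq V] {a : Finset V → ℝ}
    (ha : ∀ S, 1 < S.card → a S = 0) (x : V → Bool) :
    ∑ S, a S * ∏ v ∈ S, (if x v then (1 : ℝ) else 0) =
      a ∅ + ∑ v, a {v} * (if x v then (1 : ℝ) else 0) := by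
  have h0 : (∅ : Finset V) ∉ univ.image (fun v : V => ({v} : Finset V)) := by
    intro h
    obtain ⟨v, -, hv⟩ := mem_image.1 h
    exact singleton_ne_empty v hv
  rw [← Finset.sum_subset (Finset.subset_univ (insert ∅ (univ.image fun v : V => ({v} : Finset V)))),
    Finset.sum_insert h0, Finset.sum_image]
  · simp
  · intro u _ v _ h
    exact singleton_injective h
  · intro S _ hS
    rw [ha S, zero_mul]
    by_contra hne
    rw [not_lt] at hne
    apply hS
    rw [mem_insert, mem_image]
    rcases Nat.lt_or_ge S.card 1 with h1 | h1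
    · left
      rw [← card_eq_zero]
      omega
    · right
      obtain ⟨v, hv⟩ := card_eq_one.1 (le_antisymm hne h1)
      exact ⟨v, mem_univ _, hv.symm⟩

section norm

variable {p : ℕ} {W E : Type} [Fintype W] [DecidableEq W] [Fintype E] [DecidableEq E]

lemma ext_poly_norm (hp : 2 ≤ p) {f : E → (Fin p × W → Bool) → Bool}
    (hf : ∀ e, ∃ i : Fin p, ∀ x y : Fin p × W → Bool, (∀ v, v.1 ≠ i → x v = y v) →
      f e x = f e y) {L : Line ((Fin p × W) ⊕ E)} (h : PolyLine 1 L) :
    NofLine (1 + ((6 * (Fintype.card ((Fin p × W) ⊕ E) + 1) ^ 3 : ℕ) : ℝ) * (p * 2 ^ p))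
      (fun x => L (Sum.elim x (fun e => f e x))) := by
  classical
  obtain ⟨a, c, ha, hL⟩ := h
  choose ν hν using hf
  obtain ⟨ex, hex⟩ : ∃ ex : (Fin p → (W → Bool)) → ((Fin p × W) ⊕ E → Bool), ex = fun y =>
      Sum.elim (fun v => y v.1 v.2) (fun e => f e (fun v => y v.1 v.2)) := ⟨_, rfl⟩
  have hmiss : ∀ u : (Fin p × W) ⊕ E, ∃ i : Fin p,
      ∀ (y : Fin p → (W → Bool)) (z : W → Bool), ex (Function.update y i z) u = ex y u := by
    rintro (v | e)
    · obtain ⟨i, hi⟩ : ∃ i : Fin p, v.1 ≠ i := by
        by_cases h0 : v.1 = ⟨0, by omega⟩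
        · refine ⟨⟨1, by omega⟩, ?_⟩
          rw [h0]
          intro h1
          have := congrArg Fin.val h1
          simp at this
        · exact ⟨_, h0⟩
      refine ⟨i, fun y z => ?_⟩
      rw [hex]
      simp only [Sum.elim_inl]
      rw [Function.update_of_ne hi]
    · refine ⟨ν e, fun y z => ?_⟩
      rw [hex]
      simp only [Sum.elim_inr]
      refine hν e _ _ fun v hv => ?_
      rw [Function.update_of_ne hv]
  choose μ hμ using hmiss
  have h1 := thr_norm (X := W → Bool) (p := p) (fun u y => ex y u) μ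
    (fun u y z => hμ u y z) (fun u => a {u}) (c - a ∅)
  refine h1.congr fun y => ?_
  have hiff : L (Sum.elim (fun v => y v.1 v.2) (fun e => f e (fun v => y v.1 v.2))) = false ↔
      ∑ u, a {u} * (if ex y u then (1 : ℝ) else 0) < c - a ∅ := by
    have h2 : Sum.elim (fun v => y v.1 v.2) (fun e => f e (fun v => y v.1 v.2)) = ex y := by
      rw [hex]
    rw [h2, ← Bool.not_eq_true, hL, not_le, sum_deg_one ha]
    constructor <;> intro h <;> linarith
  by_cases h8 : ∑ u, a {u} * (if ex y u then (1 : ℝ) else 0) < c - a ∅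
  · rw [if_pos h8, if_pos (hiff.2 h8)]
  · rw [if_neg h8, if_neg (fun h => h8 (hiff.1 h))]

end norm

lemma thr_G {k M : ℕ} (hk : 1 ≤ k) (hM : 2 ^ 16 ≤ M) :
    3 + 2 * (6 * (M + 1) ^ 3 * ((k + 1) * 2 ^ (k + 1))) ≤ M ^ (4 * k) := by
  obtain ⟨G, hG⟩ : ∃ G, G = 6 * (M + 1) ^ 3 * ((k + 1) * 2 ^ (k + 1)) := ⟨_, rfl⟩
  have hG1 : 1 ≤ G := by
    rw [hG]
    exact Nat.one_le_iff_ne_zero.2 (by positivity)
  rw [← hG]
  calc 3 + 2 * G ≤ 5 * G := by omega
    _ ≤ 5 * (6 * (2 * M) ^ 3 * (2 ^ k * 2 ^ (k + 1))) := by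
        refine Nat.mul_le_mul_left _ ?_
        rw [hG]
        refine Nat.mul_le_mul (Nat.mul_le_mul_left _ (Nat.pow_le_pow_left (by omega) 3))
          (Nat.mul_le_mul_right _ (succ_le_two_pow k))
    _ = 240 * (2 ^ (2 * k + 1) * M ^ 3) := by
        rw [mul_pow 2 M 3, show 2 * k + 1 = k + (k + 1) by ring, pow_add 2 k (k + 1)]
        ring
    _ ≤ 2 ^ 8 * (2 ^ (2 * k + 1) * M ^ 3) := Nat.mul_le_mul_right _ (by norm_num)
    _ = 2 ^ (2 * k + 9) * M ^ 3 := by
        rw [← mul_assoc, ← pow_add]
        congr 2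
        ring
    _ ≤ M ^ k * M ^ (3 * k) := by
        refine Nat.mul_le_mul ?_ (Nat.pow_le_pow_right (by omega) (by omega))
        calc 2 ^ (2 * k + 9) ≤ 2 ^ (16 * k) := Nat.pow_le_pow_right (by norm_num) (by omega)
          _ = (2 ^ 16) ^ k := pow_mul _ _ _
          _ ≤ M ^ k := Nat.pow_le_pow_left hM k
    _ = M ^ (4 * k) := by
        rw [← pow_add]
        congr 1
        ring

end Pool.Agent.TH699.TS
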