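import Pool.Agent.TH699.TS.Dec
import Pool.Agent.Helper600R2.Expander

/-!
Tseitin systems on an expander, lifted by generalised inner products of `p` parties: every
decomposition of 1 has norm at least `2^n`.
-/

set_option autoImplicit false

namespace Pool.Agent.TH699.TS

open Finset Pool.Agent.TH699.TD Pool.Agent.Helper600R2

/-! ### Signs -/

/-- the sign of a bit -/
noncomputable def sgz (a : ZMod 2) : ℝ := if a = 0 then 1 else -1

lemma sgz_zero : sgz 0 = 1 := by simp [sgz]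

lemma sgz_add (a b : ZMod 2) : sgz (a + b) = sgz a * sgz b := by
  have key : ∀ a b : ZMod 2, (a = 0 ∧ b = 0 ∧ a + b = 0) ∨ (a = 0 ∧ b ≠ 0 ∧ a + b ≠ 0) ∨
      (a ≠ 0 ∧ b = 0 ∧ a + b ≠ 0) ∨ (a ≠ 0 ∧ b ≠ 0 ∧ a + b = 0) := by decide
  unfold sgz
  rcases key a b with ⟨h1, h2, h3⟩ | ⟨h1, h2, h3⟩ | ⟨h1, h2, h3⟩ | ⟨h1, h2, h3⟩
  · rw [if_pos h1, if_pos h2, if_pos h3]
    norm_num
  · rw [if_pos h1, if_neg h2, if_neg h3]
    norm_num
  · rw [if_neg h1, if_pos h2, if_neg h3]
    norm_num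
  · rw [if_neg h1, if_neg h2, if_pos h3]
    norm_num

lemma sgz_sum {σ : Type} (s : Finset σ) (f : σ → ZMod 2) :
    sgz (∑ i ∈ s, f i) = ∏ i ∈ s, sgz (f i) := by
  classical
  induction s using Finset.induction_on with
  | empty => simp [sgz_zero]
  | insert a s ha ih => rw [Finset.sum_insert ha, Finset.prod_insert ha, sgz_add, ih]

lemma sgz_mul_self (a : ZMod 2) : sgz a * sgz a = 1 := by
  unfold sgz
  split_ifs <;> norm_num

lemma sgz_cases (a : ZMod 2) : sgz a = 1 ∨ sgz a = -1 := by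
  unfold sgz
  split_ifs <;> simp

lemma sgz_abs (a : ZMod 2) : |sgz a| = 1 := by
  rcases sgz_cases a with h | h <;> rw [h] <;> simp

/-- the bit as an element of `ZMod 2` -/
def bz (b : Bool) : ZMod 2 := if b then 1 else 0

lemma sq_eq {p : ℕ} (x : Fin p → Bool) : TD.sq p x = sgz (∏ i, bz (x i)) := by
  unfold TD.sq sgz bz
  by_cases h : ∀ i, x i = true
  · rw [if_pos h, Finset.prod_eq_one (fun i _ => by rw [if_pos (h i)])]
    simp
  · rw [if_neg h]
    push Not at h
    obtain ⟨i, hi⟩ := h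
    rw [Finset.prod_eq_zero (mem_univ i) (by rw [if_neg hi]), if_pos rfl]

lemma av_sgz_bz : av (fun b : Bool => sgz (bz b)) = 0 := by
  rw [av_bool]
  simp [sgz, bz]

/-- the parity of `p` bits has box norm one -/
lemma Box_par (p : ℕ) (hp : 2 ≤ p) :
    Box p (fun x : Fin p → Bool => ∏ i, sgz (bz (x i))) = 1 := by
  obtain ⟨q, rfl⟩ : ∃ q, p = q + 2 := ⟨p - 2, by omega⟩
  show av (fun a : Bool => av (fun b : Bool => Box (q + 1) (fun x =>
    (∏ i, sgz (bz ((Fin.cons a x : Fin (q + 2) → Bool) i))) *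
      ∏ i, sgz (bz ((Fin.cons b x : Fin (q + 2) → Bool) i))))) = 1
  have e : ∀ a b : Bool, Box (q + 1) (fun x : Fin (q + 1) → Bool =>
      (∏ i, sgz (bz ((Fin.cons a x : Fin (q + 2) → Bool) i))) *
      ∏ i, sgz (bz ((Fin.cons b x : Fin (q + 2) → Bool) i))) = 1 := by
    intro a b
    have e1 : (fun x : Fin (q + 1) → Bool =>
        (∏ i, sgz (bz ((Fin.cons a x : Fin (q + 2) → Bool) i))) *
        ∏ i, sgz (bz ((Fin.cons b x : Fin (q + 2) → Bool) i))) =
        fun _ => (sgz (bz a) * sgz (bz b)) * 1 := by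
      funext x
      rw [Fin.prod_univ_succ (fun i => sgz (bz ((Fin.cons a x : Fin (q + 2) → Bool) i))),
        Fin.prod_univ_succ (fun i => sgz (bz ((Fin.cons b x : Fin (q + 2) → Bool) i)))]
      simp only [Fin.cons_zero, Fin.cons_succ]
      have e2 : (∏ i : Fin (q + 1), sgz (bz (x i))) * ∏ i : Fin (q + 1), sgz (bz (x i)) = 1 := by
        rw [← Finset.prod_mul_distrib]
        exact Finset.prod_eq_one fun i _ => sgz_mul_self _
      calc _ = (sgz (bz a) * sgz (bz b)) *
          ((∏ i : Fin (q + 1), sgz (bz (x i))) * ∏ i : Fin (q + 1), sgz (bz (x i))) := by ring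
        _ = _ := by rw [e2]
    rw [e1, Box_smul, Box_one, mul_one, pow_succ' 2 q, pow_mul, ← sgz_add]
    have e3 : sgz (bz a + bz b) ^ 2 = 1 := by
      rw [pow_two]
      exact sgz_mul_self _
    rw [e3, one_pow]
  simp_rw [e, av_const]

/-! ### The graph -/

section graph

variable {n : ℕ} (π : Equiv.Perm (Fin n))

/-- heads of the edges; the tail of `e` is `e.1` -/
def hd (e : Fin n × Bool) : Fin n := if e.2 then π e.1 else finRotate n e.1

/-- the edges with exactly one end in `U` -/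
def cut (U : Finset (Fin n)) : Finset (Fin n × Bool) :=
  univ.filter (fun e => ¬ (e.1 ∈ U ↔ hd π e ∈ U))

lemma hd_false (i : Fin n) : hd π (i, false) = finRotate n i := by simp [hd]

lemma hd_true (i : Fin n) : hd π (i, true) = π i := by simp [hd]

lemma mem_cut {U : Finset (Fin n)} {e : Fin n × Bool} :
    e ∈ cut π U ↔ ¬ (e.1 ∈ U ↔ hd π e ∈ U) := by
  simp [cut]

lemma cut_ge1 (U : Finset (Fin n)) : (bd (finRotate n) U).card ≤ (cut π U).card := by
  refine card_le_card_of_injOn (fun i => (i, false)) ?_ (fun i _ j _ h => congrArg Prod.fst h)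
  intro i hi
  rw [mem_coe] at hi ⊢
  rw [mem_cut, hd_false]
  exact (mem_filter.1 hi).2

lemma cut_ge2 (U : Finset (Fin n)) : (bd π U).card ≤ (cut π U).card := by
  refine card_le_card_of_injOn (fun i => (i, true)) ?_ (fun i _ j _ h => congrArg Prod.fst h)
  intro i hi
  rw [mem_coe] at hi ⊢
  rw [mem_cut, hd_true]
  exact (mem_filter.1 hi).2

lemma cut_nonempty {U : Finset (Fin n)} (h0 : U.Nonempty) (h1 : U.card < n) :
    (cut π U).Nonempty := by
  by_contra hne
  rw [not_nonempty_iff_eq_empty] at hne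
  obtain ⟨v, hv⟩ := h0
  obtain ⟨m, rfl⟩ : ∃ m, n = m + 1 := ⟨n - 1, by omega⟩
  have hstep : ∀ i : Fin (m + 1), (finRotate (m + 1) i ∈ U ↔ i ∈ U) := by
    intro i
    by_contra hc
    have : (i, false) ∈ cut π U := by
      rw [mem_cut, hd_false]
      exact fun h => hc ⟨fun h2 => h.2 h2, fun h2 => h.1 h2⟩
    rw [hne] at this
    exact notMem_empty _ this
  have hconst : ∀ k : ℕ, ∀ hk : k < m + 1, ((⟨k, hk⟩ : Fin (m + 1)) ∈ U ↔ 0 ∈ U) := by
    intro k
    induction k with
    | zero => intro _; exact Iff.rfl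
    | succ k ih =>
      intro hk
      have hrot : finRotate (m + 1) (⟨k, by omega⟩ : Fin (m + 1)) = ⟨k + 1, hk⟩ := by
        rw [finRotate_apply]
        apply Fin.ext
        rw [Fin.val_add_one_of_lt']
        exact hk
      rw [← hrot, hstep]
      exact ih (by omega)
  have h2 : U = univ := by
    ext j
    have h3 := (hconst j.val j.isLt).trans (hconst v.val v.isLt).symm
    simp only [Fin.eta] at h3
    simp only [mem_univ, iff_true]
    exact h3.2 hv
  rw [h2, card_univ, Fintype.card_fin] at h1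
  exact lt_irrefl _ h1

end graph

/-! ### The lifted system -/

/-- the coordinates of one party: for every edge `b` bits of the gadget and one more bit -/
abbrev Wt (n b : ℕ) : Type := (Fin n × Bool) × Option (Fin b)

section lift

variable {p n b : ℕ} (π : Equiv.Perm (Fin n)) (v0 : Fin n)

/-- the value of the gadget of the edge `e` -/
def gam (x : Fin p × Wt n b → Bool) (e : Fin n × Bool) : ZMod 2 :=
  ∑ i : Fin p, bz (x (i, (e, none))) + ∑ j : Fin b, ∏ i : Fin p, bz (x (i, (e, some j)))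

/-- the sum around the vertex `v` -/
def par (v : Fin n) (x : Fin p × Wt n b → Bool) : ZMod 2 :=
  ∑ e : Fin n × Bool, ((if e.1 = v then gam x e else 0) + (if hd π e = v then gam x e else 0))

/-- the constraint at `v` (the sum is 1 at `v0` and 0 elsewhere) is violated -/
def viol (v : Fin n) (x : Fin p × Wt n b → Bool) : Bool :=
  decide (par π v x ≠ if v = v0 then 1 else 0)

/-- the sign of the violation -/
noncomputable def sB (v : Fin n) (x : Fin p × Wt n b → Bool) : ℝ :=
  sgz (par π v x + if v = v0 then 1 else 0)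

lemma sB_of_viol {v : Fin n} {x : Fin p × Wt n b → Bool} (h : viol π v0 v x = true) :
    sB π v0 v x = -1 := by
  unfold viol at h
  rw [decide_eq_true_eq] at h
  unfold sB sgz
  rw [if_neg]
  intro h2
  apply h
  have h3 : ∀ a c : ZMod 2, a + c = 0 → a = c := by decide
  exact h3 _ _ h2

/-- the product of the signs of the gadgets in a cut -/
noncomputable def chi (U : Finset (Fin n)) (x : Fin p × Wt n b → Bool) : ℝ :=
  ∏ e ∈ cut π U, sgz (gam x e)

lemma sum_par (U : Finset (Fin n)) (x : Fin p × Wt n b → Bool) :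
    ∑ v ∈ U, par π v x = ∑ e ∈ cut π U, gam x e := by
  unfold par
  rw [Finset.sum_comm]
  have e1 : ∀ e : Fin n × Bool, ∑ v ∈ U, ((if e.1 = v then gam x e else 0) +
      (if hd π e = v then gam x e else 0)) = if e ∈ cut π U then gam x e else 0 := by
    intro e
    rw [Finset.sum_add_distrib, Finset.sum_ite_eq, Finset.sum_ite_eq]
    have h2 : gam x e + gam x e = 0 := by
      have : ∀ a : ZMod 2, a + a = 0 := by decide
      exact this _
    by_cases h3 : e.1 ∈ U <;> by_cases h4 : hd π e ∈ U <;> simp [cut, h3, h4, h2]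
  rw [Finset.sum_congr rfl fun e _ => e1 e, Finset.sum_ite_mem, Finset.univ_inter]

lemma prod_sB (U : Finset (Fin n)) (x : Fin p × Wt n b → Bool) :
    ∏ v ∈ U, sB π v0 v x = (if v0 ∈ U then -1 else 1) * chi π U x := by
  unfold sB chi
  rw [← sgz_sum, ← sgz_sum, Finset.sum_add_distrib, sgz_add, sum_par, mul_comm]
  congr 1
  rw [Finset.sum_ite_eq' U v0 (fun _ => (1 : ZMod 2))]
  split_ifs <;> simp [sgz]

/-- the factors -/
noncomputable def qf (U : Finset (Fin n)) (w : Wt n b) (c : Fin p → Bool) : ℝ :=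
  if w.1 ∈ cut π U then (match w.2 with
    | none => ∏ i, sgz (bz (c i))
    | some _ => TD.sq p c) else 1

lemma chi_eq (U : Finset (Fin n)) (y : Fin p → (Wt n b → Bool)) :
    chi π U (fun v => y v.1 v.2) = ∏ w : Wt n b, qf π U w (fun i => y i w) := by
  rw [Fintype.prod_prod_type]
  unfold chi
  rw [← Finset.prod_subset (Finset.subset_univ (cut π U))]
  · refine Finset.prod_congr rfl fun e he => ?_
    rw [Fintype.prod_option]
    unfold gam qf
    simp only [he, if_true]
    rw [sgz_add, sgz_sum, sgz_sum]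
    congr 1
    exact Finset.prod_congr rfl fun j _ => (sq_eq _).symm
  · intro e _ he
    refine Finset.prod_eq_one fun j _ => ?_
    unfold qf
    simp only [he, if_false]

/-- the box norm of one gadget -/
noncomputable def eta (p b : ℕ) : ℝ := (1 - 2 * (1 / 2) ^ p) ^ b

lemma Box_chi (hp : 2 ≤ p) (U : Finset (Fin n)) :
    Box p (fun y : Fin p → (Wt n b → Bool) => chi π U (fun v => y v.1 v.2)) =
      eta p b ^ (cut π U).card := by
  have h1 : (fun y : Fin p → (Wt n b → Bool) => chi π U (fun v => y v.1 v.2)) =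
      fun y => ∏ w : Wt n b, qf π U w (fun i => y i w) := by
    funext y
    exact chi_eq π U y
  rw [h1, Box_bits p (qf π U), Fintype.prod_prod_type,
    ← Finset.prod_subset (Finset.subset_univ (cut π U))]
  · rw [← Finset.prod_const]
    refine Finset.prod_congr rfl fun e he => ?_
    rw [Fintype.prod_option]
    have e1 : qf (p := p) (b := b) π U (e, none) = fun x => ∏ i, sgz (bz (x i)) := by
      funext x
      unfold qf
      simp only [he, if_true]
    have e2 : ∀ j : Fin b, qf (p := p) (b := b) π U (e, some j) = TD.sq p := by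
      intro j
      funext x
      unfold qf
      simp only [he, if_true]
    rw [e1, Box_par p hp, one_mul]
    simp_rw [e2]
    rw [Finset.prod_const, card_univ, Fintype.card_fin, Box_sq]
    rfl
  · intro e _ he
    refine Finset.prod_eq_one fun j _ => ?_
    have e1 : qf (p := p) (b := b) π U (e, j) = fun _ => 1 := by
      funext x
      unfold qf
      simp only [he, if_false]
    rw [e1, Box_one]

lemma av_chi (hp : 1 ≤ p) {U : Finset (Fin n)} (hU : (cut π U).Nonempty) :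
    av (fun y : Fin p → (Wt n b → Bool) => chi π U (fun v => y v.1 v.2)) = 0 := by
  have h1 := av_equiv (Equiv.piComm (fun (_ : Fin p) (_ : Wt n b) => Bool))
    (fun a : Wt n b → (Fin p → Bool) => ∏ w, qf π U w (a w))
  have h2 : av (fun y : Fin p → (Wt n b → Bool) => chi π U (fun v => y v.1 v.2)) =
      av (fun a : Wt n b → (Fin p → Bool) => ∏ w, qf π U w (a w)) := by
    rw [← h1]
    congr 1
    funext y
    exact chi_eq π U y
  rw [h2, av_pi (fun w => qf π U w)]
  obtain ⟨e, he⟩ := hU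
  refine Finset.prod_eq_zero (mem_univ ((e, none) : Wt n b)) ?_
  have e1 : qf (p := p) (b := b) π U (e, none) = fun x => ∏ i, sgz (bz (x i)) := by
    funext x
    unfold qf
    simp only [he, if_true]
  rw [e1, av_pi (fun _ : Fin p => fun b : Bool => sgz (bz b))]
  exact Finset.prod_eq_zero (mem_univ (⟨0, by omega⟩ : Fin p)) av_sgz_bz

/-- the dual witness -/
noncomputable def Qd (s : ℕ) (x : Fin p × Wt n b → Bool) : ℝ :=
  ∑ U : Finset (Fin n), if U.card < s then ∏ v ∈ U, sB π v0 v x else 0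

lemma sum_pairs (v : Fin n) (F : Finset (Fin n) → ℝ) :
    ∑ U, F U = ∑ U ∈ univ.filter (fun U : Finset (Fin n) => v ∉ U), (F U + F (insert v U)) := by
  rw [Finset.sum_add_distrib, ← Finset.sum_filter_add_sum_filter_not univ
    (fun U : Finset (Fin n) => v ∉ U)]
  congr 1
  refine Finset.sum_nbij' (fun U => U.erase v) (fun U => insert v U) ?_ ?_ ?_ ?_ ?_
  · intro U _
    simp
  · intro U _
    simp
  · intro U hU
    simp only [mem_filter, mem_univ, true_and, not_not] at hU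
    exact insert_erase hU
  · intro U hU
    simp only [mem_filter, mem_univ, true_and] at hU
    exact erase_insert hU
  · intro U hU
    simp only [mem_filter, mem_univ, true_and, not_not] at hU
    rw [insert_erase hU]

lemma Qd_viol {s : ℕ} {v : Fin n} {x : Fin p × Wt n b → Bool} (h : viol π v0 v x = true) :
    Qd π v0 s x = ∑ U ∈ univ.filter (fun U : Finset (Fin n) => v ∉ U ∧ U.card + 1 = s),
      ∏ v ∈ U, sB π v0 v x := by
  unfold Qd
  rw [sum_pairs v]
  have e1 : ∀ U ∈ univ.filter (fun U : Finset (Fin n) => v ∉ U),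
      ((if U.card < s then ∏ v ∈ U, sB π v0 v x else 0) +
        (if (insert v U).card < s then ∏ v ∈ insert v U, sB π v0 v x else 0)) =
      if U.card + 1 = s then ∏ v ∈ U, sB π v0 v x else 0 := by
    intro U hU
    rw [mem_filter] at hU
    rw [card_insert_of_notMem hU.2, Finset.prod_insert hU.2, sB_of_viol π v0 h]
    by_cases h1 : U.card + 1 < s
    · rw [if_pos (by omega), if_pos h1, if_neg (by omega)]
      ring
    · by_cases h2 : U.card + 1 = s
      · rw [if_pos (by omega), if_neg h1, if_pos h2]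
        ring
      · rw [if_neg (by omega), if_neg h1, if_neg h2]
        ring
  rw [Finset.sum_congr rfl e1, ← Finset.sum_filter, Finset.filter_filter]

lemma av_sum' {ι σ : Type} [Fintype ι] (s : Finset σ) (f : σ → ι → ℝ) :
    av (fun i => ∑ j ∈ s, f j i) = ∑ j ∈ s, av (f j) := by
  unfold av
  rw [Finset.sum_comm, Finset.sum_div]

lemma av_Qd (hp : 1 ≤ p) {s : ℕ} (hs1 : 1 ≤ s) (hs : s ≤ n) :
    av (fun y : Fin p → (Wt n b → Bool) => Qd π v0 s (fun v => y v.1 v.2)) = 1 := by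
  unfold Qd
  rw [av_sum', Finset.sum_eq_single ∅]
  · have h0 : (∅ : Finset (Fin n)).card < s := by
      rw [card_empty]
      omega
    simp only [h0, if_true, Finset.prod_empty]
    exact av_const 1
  · intro U _ hU
    by_cases h : U.card < s
    · simp only [h, if_true]
      simp_rw [prod_sB]
      rw [av_mul_left, av_chi π hp (cut_nonempty π (nonempty_iff_ne_empty.2 hU) (by omega)),
        mul_zero]
    · simp only [h, if_false]
      exact av_const 0
  · intro h
    exact absurd (mem_univ _) h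

end lift

/-! ### The lower bound -/

lemma half_pow (q : ℕ) : (1 - 1 / 2 ^ q : ℝ) ^ (2 ^ q) ≤ 1 / 2 := by
  have hx : (1 : ℝ) / 2 ^ q ≤ 1 := by
    rw [div_le_one (by positivity)]
    exact one_le_pow₀ (by norm_num)
  have h2 : (1 - 1 / 2 ^ q : ℝ) ≤ Real.exp (-(1 / 2 ^ q)) := by
    have := Real.add_one_le_exp (-(1 / 2 ^ q : ℝ))
    linarith
  calc (1 - 1 / 2 ^ q : ℝ) ^ (2 ^ q) ≤ Real.exp (-(1 / 2 ^ q)) ^ (2 ^ q) :=
        pow_le_pow_left₀ (by linarith) h2 _
    _ = Real.exp (-1) := by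
        rw [← Real.exp_nat_mul]
        congr 1
        push_cast
        field_simp
    _ ≤ 1 / 2 := by
        have := Real.exp_neg_one_lt_d9
        linarith

lemma eta_le {p : ℕ} (hp : 2 ≤ p) : 0 ≤ eta p (60 * 4 ^ p) ∧
    eta p (60 * 4 ^ p) ≤ (1 / 2) ^ (120 * 2 ^ p) := by
  obtain ⟨q, rfl⟩ : ∃ q, p = q + 1 := ⟨p - 1, by omega⟩
  have e0 : (1 - 2 * (1 / 2) ^ (q + 1) : ℝ) = 1 - 1 / 2 ^ q := by
    rw [pow_succ, one_div_pow]
    ring
  have hx : (0 : ℝ) ≤ 1 - 1 / 2 ^ q := by
    rw [sub_nonneg, div_le_one (by positivity)]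
    exact one_le_pow₀ (by norm_num)
  unfold eta
  rw [e0]
  refine ⟨pow_nonneg hx _, ?_⟩
  have e1 : 60 * 4 ^ (q + 1) = 2 ^ q * (120 * 2 ^ (q + 1)) := by
    have : (4 : ℕ) ^ (q + 1) = 2 ^ (q + 1) * 2 ^ (q + 1) := by
      rw [← mul_pow]
      norm_num
    rw [this, pow_succ]
    ring
  rw [e1, pow_mul]
  exact pow_le_pow_left₀ (pow_nonneg hx _) (half_pow q) _

section main

variable {p n : ℕ} {π : Equiv.Perm (Fin n)} (v0 : Fin n)

lemma corr_chi (hp : 2 ≤ p) {U : Finset (Fin n)} (hU : n ≤ 60 * (cut π U).card)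
    {φ : (Fin p → (Wt n (60 * 4 ^ p) → Bool)) → ℂ} {c : ℝ} (hφ : NBp φ c) :
    ‖cav (fun y : Fin p → (Wt n (60 * 4 ^ p) → Bool) =>
      ((chi π U (fun v => y v.1 v.2) : ℝ) : ℂ) * φ y)‖ ≤ c / 4 ^ n := by
  obtain ⟨q, rfl⟩ : ∃ q, p = q + 1 := ⟨p - 1, by omega⟩
  have hbox : Box (q + 1) (fun y : Fin (q + 1) → (Wt n (60 * 4 ^ (q + 1)) → Bool) =>
      4 ^ n * chi π U (fun v => y v.1 v.2)) ≤ 1 := by
    rw [Box_smul, Box_chi π hp]
    have h1 := eta_le hp
    have h2 : eta (q + 1) (60 * 4 ^ (q + 1)) ^ (cut π U).card ≤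
        ((1 / 2) ^ (120 * 2 ^ (q + 1))) ^ (cut π U).card := pow_le_pow_left₀ h1.1 h1.2 _
    have h3 : ((1 / 2 : ℝ) ^ (120 * 2 ^ (q + 1))) ^ (cut π U).card ≤
        (1 / 2) ^ (2 * n * 2 ^ (q + 1)) := by
      rw [← pow_mul]
      refine pow_le_pow_of_le_one (by norm_num) (by norm_num) ?_
      calc 2 * n * 2 ^ (q + 1) ≤ 2 * (60 * (cut π U).card) * 2 ^ (q + 1) :=
            Nat.mul_le_mul_right _ (Nat.mul_le_mul_left _ hU)
        _ = 120 * 2 ^ (q + 1) * (cut π U).card := by ring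
    have h4 : ((4 : ℝ) ^ n) ^ 2 ^ (q + 1) = 2 ^ (2 * n * 2 ^ (q + 1)) := by
      rw [pow_mul, pow_mul]
      norm_num
    rw [h4]
    have h5 : (0 : ℝ) < 2 ^ (2 * n * 2 ^ (q + 1)) := by positivity
    calc (2 : ℝ) ^ (2 * n * 2 ^ (q + 1)) * eta (q + 1) (60 * 4 ^ (q + 1)) ^ (cut π U).card ≤
        2 ^ (2 * n * 2 ^ (q + 1)) * (1 / 2) ^ (2 * n * 2 ^ (q + 1)) :=
          mul_le_mul_of_nonneg_left (h2.trans h3) h5.le
      _ = 1 := by
          rw [← mul_pow]
          norm_num
  have h1 := hφ.le_of_box _ hbox (fun z => z)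
  have h2 : cav (fun y : Fin (q + 1) → (Wt n (60 * 4 ^ (q + 1)) → Bool) =>
      (((4 ^ n * chi π U (fun v => y v.1 v.2) : ℝ)) : ℂ) * φ (fun i => y i)) =
      ((4 ^ n : ℝ) : ℂ) * cav (fun y : Fin (q + 1) → (Wt n (60 * 4 ^ (q + 1)) → Bool) =>
        ((chi π U (fun v => y v.1 v.2) : ℝ) : ℂ) * φ y) := by
    rw [← cav_mul_left]
    congr 1
    funext y
    push_cast
    ring
  rw [h2, norm_mul, Complex.norm_real, Real.norm_of_nonneg (by positivity)] at h1
  rw [le_div_iff₀ (by positivity), mul_comm]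
  exact h1

lemma corr_Qd (hp : 2 ≤ p) {s : ℕ} (hs : ∀ U : Finset (Fin n), U.card + 1 = s →
    n ≤ 60 * (cut π U).card) {v : Fin n}
    {φ : (Fin p → (Wt n (60 * 4 ^ p) → Bool)) → ℂ} {c : ℝ} (hφ : NBp φ c)
    (hv : ∀ y, viol π v0 v (fun v => y v.1 v.2) = false → φ y = 0) :
    ‖cav (fun y : Fin p → (Wt n (60 * 4 ^ p) → Bool) =>
      ((Qd π v0 s (fun v => y v.1 v.2) : ℝ) : ℂ) * φ y)‖ ≤ c / 2 ^ n := by
  have e1 : (fun y : Fin p → (Wt n (60 * 4 ^ p) → Bool) =>
      ((Qd π v0 s (fun v => y v.1 v.2) : ℝ) : ℂ) * φ y) = fun y =>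
      ∑ U ∈ univ.filter (fun U : Finset (Fin n) => v ∉ U ∧ U.card + 1 = s),
        (((if v0 ∈ U then -1 else 1 : ℝ) : ℂ) * (((chi π U (fun v => y v.1 v.2) : ℝ) : ℂ) *
          φ y)) := by
    funext y
    by_cases h : viol π v0 v (fun v => y v.1 v.2) = true
    · rw [Qd_viol π v0 h]
      simp_rw [prod_sB]
      push_cast
      rw [Finset.sum_mul]
      exact Finset.sum_congr rfl fun U _ => by ring
    · rw [hv y (by simpa using h)]
      simp
  rw [e1, cav_sum]
  have e2 : ∀ U ∈ univ.filter (fun U : Finset (Fin n) => v ∉ U ∧ U.card + 1 = s),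
      ‖cav (fun y : Fin p → (Wt n (60 * 4 ^ p) → Bool) => (((if v0 ∈ U then -1 else 1 : ℝ) : ℂ) *
        (((chi π U (fun v => y v.1 v.2) : ℝ) : ℂ) * φ y)))‖ ≤ c / 4 ^ n := by
    intro U hU
    rw [mem_filter] at hU
    rw [cav_mul_left, norm_mul]
    have h3 : ‖((if v0 ∈ U then -1 else 1 : ℝ) : ℂ)‖ = 1 := by
      split_ifs <;> simp
    rw [h3, one_mul]
    exact corr_chi hp (hs U hU.2.2) hφ
  calc ‖∑ U ∈ univ.filter (fun U : Finset (Fin n) => v ∉ U ∧ U.card + 1 = s),
      cav (fun y : Fin p → (Wt n (60 * 4 ^ p) → Bool) => (((if v0 ∈ U then -1 else 1 : ℝ) : ℂ) *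
        (((chi π U (fun v => y v.1 v.2) : ℝ) : ℂ) * φ y)))‖ ≤
      ∑ _U ∈ univ.filter (fun U : Finset (Fin n) => v ∉ U ∧ U.card + 1 = s), c / 4 ^ n :=
        (norm_sum_le _ _).trans (Finset.sum_le_sum e2)
    _ ≤ 2 ^ n * (c / 4 ^ n) := by
        rw [Finset.sum_const, nsmul_eq_mul]
        refine mul_le_mul_of_nonneg_right ?_ (div_nonneg hφ.nonneg (by positivity))
        have : (univ.filter (fun U : Finset (Fin n) => v ∉ U ∧ U.card + 1 = s)).card ≤ 2 ^ n := by
          refine (card_filter_le _ _).trans ?_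
          rw [card_univ, Fintype.card_finset, Fintype.card_fin]
        exact_mod_cast this
    _ = c / 2 ^ n := by
        have : (4 : ℝ) ^ n = 2 ^ n * 2 ^ n := by
          rw [← mul_pow]
          norm_num
        rw [this]
        field_simp

/-- every decomposition of 1 has norm at least `2^n` -/
lemma dec_lower (hp : 2 ≤ p) {s : ℕ} (hs1 : 1 ≤ s) (hsn : s ≤ n)
    (hs : ∀ U : Finset (Fin n), U.card + 1 = s → n ≤ 60 * (cut π U).card) {c : ℝ}
    (h : Dec (fun v : Fin n => viol (p := p) (b := 60 * 4 ^ p) π v0 v) (fun _ => 1) c) :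
    2 ^ n ≤ c := by
  obtain ⟨h, C, h1, h2, h3, h4⟩ := h
  have e1 : cav (fun y : Fin p → (Wt n (60 * 4 ^ p) → Bool) =>
      ((Qd π v0 s (fun v => y v.1 v.2) : ℝ) : ℂ)) = 1 := by
    rw [cav_ofReal, av_Qd π v0 (by omega) hs1 hsn]
    simp
  have e2 : cav (fun y : Fin p → (Wt n (60 * 4 ^ p) → Bool) =>
      ((Qd π v0 s (fun v => y v.1 v.2) : ℝ) : ℂ)) =
      ∑ v, cav (fun y : Fin p → (Wt n (60 * 4 ^ p) → Bool) =>
        ((Qd π v0 s (fun v => y v.1 v.2) : ℝ) : ℂ) * h v y) := by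
    rw [← cav_sum]
    congr 1
    funext y
    rw [← Finset.mul_sum, ← h4 y, mul_one]
  have e3 : (1 : ℝ) ≤ ∑ v, C v / 2 ^ n := by
    calc (1 : ℝ) = ‖(1 : ℂ)‖ := by simp
      _ = ‖∑ v, cav (fun y : Fin p → (Wt n (60 * 4 ^ p) → Bool) =>
        ((Qd π v0 s (fun v => y v.1 v.2) : ℝ) : ℂ) * h v y)‖ := by rw [← e2, e1]
      _ ≤ ∑ v, C v / 2 ^ n := (norm_sum_le _ _).trans
          (Finset.sum_le_sum fun v _ => corr_Qd v0 hp hs (h1 v) (h3 v))
  rw [← Finset.sum_div, le_div_iff₀ (by positivity), one_mul] at e3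
  exact e3.trans h2

end main

/-- good permutations exist -/
lemma exists_perm {n : ℕ} (hn : 25 ≤ n) : ∃ π : Equiv.Perm (Fin n),
    ∀ U : Finset (Fin n), U.card + 1 = n / 2 → n ≤ 60 * (cut π U).card := by
  obtain ⟨π, hπ⟩ := exists_expander hn
  refine ⟨π, fun U hU => ?_⟩
  have h1 := cut_ge1 π U
  have h2 := cut_ge2 π U
  rcases hπ U (by omega) (by omega) with h | h <;> omega

end Pool.Agent.TH699.TS
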