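import Pool.Agent.TH699.TS.Cnf

/-!
Short tree-like refutations of the lifted Tseitin systems of `p` parties, with lines which are
systems of polynomial equations of degree `p` modulo 2 or negations of such systems.
-/

set_option autoImplicit false
set_option synthInstance.maxSize 1000

namespace Pool.Agent.TH699.TS

open Finset Pool.Agent.TH699.TD Pool.Agent.Helper600R2 Pool.Agent.H642R2.Dual

section polyf

variable {V : Type} [Fintype V] [DecidableEq V] {k : ℕ}

/-- polynomial functions of degree at most `k` -/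
def PolyF (k : ℕ) (f : (V → Bool) → ZMod 2) : Prop :=
  ∃ a : Finset V → ZMod 2, (∀ S, k < S.card → a S = 0) ∧
    ∀ x, f x = ∑ S, a S * ∏ v ∈ S, (if x v then 1 else 0)

omit [DecidableEq V] in
lemma PolyF.add {f g : (V → Bool) → ZMod 2} (hf : PolyF k f) (hg : PolyF k g) :
    PolyF k (fun x => f x + g x) := by
  obtain ⟨a, ha, hf⟩ := hf
  obtain ⟨a', ha', hg⟩ := hg
  refine ⟨fun S => a S + a' S, fun S hS => ?_, fun x => ?_⟩
  · show a S + a' S = 0
    rw [ha S hS, ha' S hS, add_zero]
  · dsimp only
    rw [hf, hg, ← Finset.sum_add_distrib]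
    exact Finset.sum_congr rfl fun S _ => by ring

lemma PolyF.mon {S : Finset V} (hS : S.card ≤ k) :
    PolyF k (fun x : V → Bool => ∏ v ∈ S, (if x v then (1 : ZMod 2) else 0)) := by
  refine ⟨fun T => if T = S then 1 else 0, fun T hT => ?_, fun x => ?_⟩
  · refine if_neg ?_
    rintro rfl
    omega
  · rw [Finset.sum_eq_single S]
    · show _ = (if S = S then (1 : ZMod 2) else 0) * _
      rw [if_pos rfl, one_mul]
    · intro T _ hT
      show (if T = S then (1 : ZMod 2) else 0) * _ = 0
      rw [if_neg hT, zero_mul]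
    · intro h
      exact absurd (mem_univ _) h

omit [DecidableEq V] in
lemma PolyF.zero : PolyF k (fun _ : V → Bool => (0 : ZMod 2)) :=
  ⟨fun _ => 0, fun _ _ => rfl, fun x => by simp⟩

omit [DecidableEq V] in
lemma PolyF.sum {σ : Type} (s : Finset σ) (f : σ → (V → Bool) → ZMod 2)
    (h : ∀ i ∈ s, PolyF k (f i)) : PolyF k (fun x => ∑ i ∈ s, f i x) := by
  classical
  induction s using Finset.induction_on with
  | empty => simpa using (PolyF.zero : PolyF k (fun _ : V → Bool => (0 : ZMod 2)))
  | insert a s ha ih =>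
    have h1 := (h a (mem_insert_self _ _)).add (ih fun b hb => h b (mem_insert_of_mem hb))
    have e : (fun x => ∑ i ∈ insert a s, f i x) = fun x => f a x + ∑ i ∈ s, f i x := by
      funext x
      rw [Finset.sum_insert ha]
    rw [e]
    exact h1

lemma PolyF.bit (hk : 1 ≤ k) (w : V) : PolyF k (fun x : V → Bool => bz (x w)) := by
  have h := PolyF.mon (V := V) (k := k) (S := {w}) (by rw [card_singleton]; exact hk)
  have e : (fun x : V → Bool => bz (x w)) =
      fun x => ∏ v ∈ ({w} : Finset V), (if x v then (1 : ZMod 2) else 0) := by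
    funext x
    rw [Finset.prod_singleton]
    rfl
  rw [e]
  exact h

/-- A system of at most `|V| + 1` polynomial equations of degree at most `k` modulo 2, or the
negation of such a system. -/
def Mod2Line (k : ℕ) (L : Line V) : Prop :=
  ∃ (m : ℕ) (a : Fin m → Finset V → ZMod 2) (b : Fin m → ZMod 2) (c : Bool),
    m ≤ Fintype.card V + 1 ∧ (∀ i S, k < S.card → a i S = 0) ∧
    ∀ x, L x = c ↔ ∀ i, ∑ S, a i S * ∏ v ∈ S, (if x v then 1 else 0) = b i

omit [DecidableEq V] in
lemma modLine_of {J : Type} [Fintype J] {f : J → (V → Bool) → ZMod 2} {b : J → ZMod 2}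
    (hJ : Fintype.card J ≤ Fintype.card V + 1)
    (hf : ∀ j, PolyF k (f j)) {c : Bool} {L : Line V} (hL : ∀ x, L x = c ↔ ∀ j, f j x = b j) :
    Mod2Line k L := by
  choose a ha hfa using hf
  refine ⟨Fintype.card J, fun i => a ((Fintype.equivFin J).symm i),
    fun i => b ((Fintype.equivFin J).symm i), c, hJ, fun i => ha _, fun x => ?_⟩
  rw [hL]
  constructor
  · intro h i
    rw [← hfa]
    exact h _
  · intro h j
    have h1 := h (Fintype.equivFin J j)
    simp only [Equiv.symm_apply_apply] at h1
    rw [hfa]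
    exact h1

end polyf

/-- the number of nodes of a tree -/
def nodes {V : Type} : Der V → ℕ
  | .ax _ => 1
  | .triv _ => 1
  | .inf _ l r => nodes l + nodes r + 1

/-- the number of lines which have to be kept at the same time if the tree is traversed -/
def peb {V : Type} : Der V → ℕ
  | .ax _ => 1
  | .triv _ => 1
  | .inf _ l r => max (peb l) (peb r + 1)

lemma bz_inj {a b : Bool} : bz a = bz b ↔ a = b := by
  unfold bz
  cases a <;> cases b <;> simp

section up

variable {p n b : ℕ} (π : Equiv.Perm (Fin n)) (v0 : Fin n)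

lemma polyF_gam (hp : 1 ≤ p) (e : Fin n × Bool) :
    PolyF p (fun x : Fin p × Wt n b → Bool => gam x e) := by
  unfold gam
  refine PolyF.add (PolyF.sum _ _ fun i _ => PolyF.bit hp _) (PolyF.sum _ _ fun j _ => ?_)
  have h := PolyF.mon (V := Fin p × Wt n b) (k := p)
    (S := univ.image fun i : Fin p => (i, (e, some j))) (by
      refine card_image_le.trans ?_
      rw [card_univ, Fintype.card_fin])
  have h2 : (fun x : Fin p × Wt n b → Bool => ∏ i : Fin p, bz (x (i, (e, some j)))) =
      fun x => ∏ v ∈ univ.image (fun i : Fin p => (i, (e, some j))),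
        (if x v then (1 : ZMod 2) else 0) := by
    funext x
    rw [Finset.prod_image]
    · rfl
    · intro i _ i' _ h
      exact congrArg Prod.fst h
  rw [h2]
  exact h

lemma polyF_par (hp : 1 ≤ p) (v : Fin n) :
    PolyF p (fun x : Fin p × Wt n b → Bool => par π v x) := by
  have e : (fun x : Fin p × Wt n b → Bool => par π v x) =
      fun x => ∑ e ∈ cut π {v}, gam x e := by
    funext x
    exact par_eq π v x
  rw [e]
  exact PolyF.sum _ _ fun e _ => polyF_gam hp e

/-- the line which says that `y` does not violate the constraint at `v` if it agrees with `x`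
on `U` -/
def dl (v : Fin n) (U : Finset (Fin p × Wt n b)) (x : Fin p × Wt n b → Bool) :
    Line (Fin p × Wt n b) :=
  fun y => !(decide (∀ w ∈ U, y w = x w) && viol π v0 v y)

lemma dl_false {v : Fin n} {U : Finset (Fin p × Wt n b)} {x y : Fin p × Wt n b → Bool} :
    dl π v0 v U x y = false ↔ (∀ w ∈ U, y w = x w) ∧ viol π v0 v y = true := by
  unfold dl
  rw [Bool.not_eq_false', Bool.and_eq_true_iff, decide_eq_true_eq]

lemma viol_iff {v : Fin n} {y : Fin p × Wt n b → Bool} :
    viol π v0 v y = true ↔ par π v y = (if v = v0 then 1 else 0) + 1 := by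
  unfold viol
  rw [decide_eq_true_eq]
  generalize par π v y = a
  generalize (if v = v0 then (1 : ZMod 2) else 0) = c
  revert a c
  decide

lemma modLine_dl (hp : 1 ≤ p) (v : Fin n) (U : Finset (Fin p × Wt n b))
    (x : Fin p × Wt n b → Bool) : Mod2Line p (dl π v0 v U x) := by
  refine modLine_of (J := Option {w // w ∈ U}) (f := fun j y => match j with
      | none => par π v y
      | some w => bz (y w)) (b := fun j => match j with
      | none => (if v = v0 then 1 else 0) + 1
      | some w => bz (x w)) (c := false) ?_ ?_ ?_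
  · rw [Fintype.card_option]
    refine Nat.succ_le_succ ?_
    rw [Fintype.card_coe]
    exact card_le_univ U
  · rintro (_ | w)
    · exact polyF_par π hp v
    · exact PolyF.bit hp _
  · intro y
    rw [dl_false, viol_iff]
    constructor
    · rintro ⟨h1, h2⟩ (_ | ⟨w, hw⟩)
      · exact h2
      · exact bz_inj.2 (h1 w hw)
    · intro h
      exact ⟨fun w hw => bz_inj.1 (h (some ⟨w, hw⟩)), h none⟩

lemma tree_vertex_aux (hp : 1 ≤ p) (v : Fin n) (m : ℕ) : ∀ (U : Finset (Fin p × Wt n b))
    (x : Fin p × Wt n b → Bool), U ⊆ vars π v → (vars π v \ U).card = m →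
    ∃ t : Der (Fin p × Wt n b), t.Sound (ClauseAx (cnf π v0)) ∧ t.All (Mod2Line p) ∧
      t.line = dl π v0 v U x ∧ nodes t + 1 ≤ 2 ^ (m + 1) ∧ peb t ≤ m + 1 := by
  induction m with
  | zero =>
    intro U x hU hc
    obtain rfl : U = vars π v := by
      rw [card_eq_zero, sdiff_eq_empty_iff_subset] at hc
      exact Subset.antisymm hU hc
    by_cases hx : viol π v0 v x = true
    · refine ⟨.ax (dl π v0 v (vars π v) x), ?_, modLine_dl π v0 hp v _ x, rfl, le_rfl, le_rfl⟩
      refine ⟨wide x (vars π v), (mem_cnf π v0).2 ⟨v, x, hx, rfl⟩, fun y hy => ?_⟩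
      by_contra hne
      rw [Bool.not_eq_true, dl_false] at hne
      exact not_sat_wide.2 (fun w hw => (hne.1 w hw).symm) hy
    · refine ⟨.triv (dl π v0 v (vars π v) x), fun y => ?_, modLine_dl π v0 hp v _ x, rfl,
        le_rfl, le_rfl⟩
      by_contra hne
      rw [Bool.not_eq_true, dl_false] at hne
      apply hx
      rw [← viol_congr π v0 hne.1]
      exact hne.2
  | succ m ih =>
    intro U x hU hc
    obtain ⟨w, hw⟩ : (vars π v \ U).Nonempty := by
      rw [← card_pos]
      omega
    rw [mem_sdiff] at hw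
    have hU' : insert w U ⊆ vars π v := insert_subset hw.1 hU
    have hc' : (vars π v \ insert w U).card = m := by
      have h1 : vars π v \ insert w U = (vars π v \ U).erase w := by
        ext u
        simp only [mem_sdiff, mem_insert, mem_erase, not_or]
        tauto
      rw [h1, card_erase_of_mem (mem_sdiff.2 hw), hc]
      omega
    obtain ⟨t0, h1, h2, h3, h4, h4'⟩ := ih (insert w U) (Function.update x w false) hU' hc'
    obtain ⟨t1, h5, h6, h7, h8, h8'⟩ := ih (insert w U) (Function.update x w true) hU' hc'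
    refine ⟨.inf (dl π v0 v U x) t0 t1, ⟨fun y hy0 hy1 => ?_, h1, h5⟩,
      ⟨modLine_dl π v0 hp v U x, h2, h6⟩, rfl, ?_, ?_⟩
    · by_contra hne
      rw [Bool.not_eq_true, dl_false] at hne
      have key : ∀ β : Bool, y w = β → dl π v0 v (insert w U) (Function.update x w β) y =
          false := by
        intro β hβ
        rw [dl_false]
        refine ⟨fun u hu => ?_, hne.2⟩
        by_cases huw : u = w
        · subst huw
          rw [Function.update_self]
          exact hβ
        · rw [Function.update_of_ne huw]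
          exact hne.1 u (mem_of_mem_insert_of_ne hu huw)
      cases hyw : y w with
      | false =>
        rw [h3, key false hyw] at hy0
        cases hy0
      | true =>
        rw [h7, key true hyw] at hy1
        cases hy1
    · show nodes t0 + nodes t1 + 1 + 1 ≤ 2 ^ (m + 1 + 1)
      rw [pow_succ]
      omega
    · show max (peb t0) (peb t1 + 1) ≤ m + 1 + 1
      omega

lemma tree_vertex (hp : 1 ≤ p) (v : Fin n) :
    ∃ t : Der (Fin p × Wt n b), t.Sound (ClauseAx (cnf π v0)) ∧ t.All (Mod2Line p) ∧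
      (∀ y, t.line y = true → par π v y = if v = v0 then 1 else 0) ∧
      nodes t + 1 ≤ 2 ^ (4 * (p * (b + 1)) + 1) ∧ peb t ≤ 4 * (p * (b + 1)) + 1 := by
  obtain ⟨t, h1, h2, h3, h4, h4'⟩ := tree_vertex_aux (b := b) π v0 hp v (vars π v).card ∅
    (fun _ => true) (empty_subset _) (by rw [sdiff_empty])
  refine ⟨t, h1, h2, fun y hy => ?_, h4.trans ?_, h4'.trans ?_⟩
  · by_contra hne
    have h5 : dl π v0 v ∅ (fun _ => true) y = false := by
      rw [dl_false]
      refine ⟨fun w hw => absurd hw (notMem_empty _), ?_⟩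
      unfold viol
      rw [decide_eq_true_eq]
      exact hne
    rw [h3, h5] at hy
    cases hy
  · exact Nat.pow_le_pow_right (by norm_num) (Nat.succ_le_succ (card_vars π v))
  · exact Nat.succ_le_succ (card_vars π v)

lemma tree_chain (hp : 1 ≤ p) (U : Finset (Fin n)) :
    ∃ t : Der (Fin p × Wt n b), t.Sound (ClauseAx (cnf π v0)) ∧ t.All (Mod2Line p) ∧
      (∀ y, t.line y = true ↔ ∑ v ∈ U, par π v y = ∑ v ∈ U, if v = v0 then 1 else 0) ∧
      nodes t ≤ 2 ^ (4 * (p * (b + 1)) + 1) * U.card + 1 ∧ peb t ≤ 4 * (p * (b + 1)) + 2 := by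
  have hmod : ∀ U : Finset (Fin n), Mod2Line p (fun y : Fin p × Wt n b → Bool =>
      decide (∑ v ∈ U, par π v y = ∑ v ∈ U, if v = v0 then 1 else 0)) := by
    intro U
    refine modLine_of (J := Unit) (f := fun _ y => ∑ v ∈ U, par π v y)
      (b := fun _ => ∑ v ∈ U, if v = v0 then 1 else 0) (c := true)
      (by rw [Fintype.card_unit]; omega) (fun _ => PolyF.sum _ _ fun v _ => polyF_par π hp v) (fun y => ?_)
    rw [decide_eq_true_eq]
    exact ⟨fun h _ => h, fun h => h ()⟩
  induction U using Finset.induction_on with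
  | empty =>
    refine ⟨.triv (fun y => decide (∑ v ∈ ∅, par π v y =
      ∑ v ∈ (∅ : Finset (Fin n)), if v = v0 then 1 else 0)), fun y => ?_, hmod ∅,
      fun y => ?_, Nat.succ_le_succ (Nat.zero_le _), Nat.succ_le_succ (Nat.zero_le _)⟩
    · have h0 : (∑ v ∈ (∅ : Finset (Fin n)), par π v y =
          ∑ v ∈ (∅ : Finset (Fin n)), if v = v0 then 1 else 0) := by simp
      exact decide_eq_true h0
    · exact (by rw [decide_eq_true_eq] : decide (∑ v ∈ (∅ : Finset (Fin n)), par π v y =
        ∑ v ∈ (∅ : Finset (Fin n)), if v = v0 then 1 else 0) = true ↔ _)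
  | insert v U hv ih =>
    obtain ⟨t, h1, h2, h3, h4, h4'⟩ := ih
    obtain ⟨t', h5, h6, h7, h8, h8'⟩ := tree_vertex (b := b) π v0 hp v
    refine ⟨.inf (fun y => decide (∑ v ∈ insert v U, par π v y =
      ∑ v ∈ insert v U, if v = v0 then 1 else 0)) t t', ⟨fun y hy hy' => ?_, h1, h5⟩,
      ⟨hmod _, h2, h6⟩, fun y => ?_, ?_, ?_⟩
    · show decide _ = true
      rw [decide_eq_true_eq, Finset.sum_insert hv, Finset.sum_insert hv, h7 y hy', (h3 y).1 hy]
    · exact decide_eq_true_iff
    · show nodes t + nodes t' + 1 ≤ _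
      rw [card_insert_of_notMem hv, mul_add, mul_one]
      omega
    · show max (peb t) (peb t' + 1) ≤ _
      omega

/-- short tree-like refutations of degree `p` -/
lemma tree_short (hp : 1 ≤ p) :
    ∃ t : Der (Fin p × Wt n b), t.IsRefutation (ClauseAx (cnf π v0)) ∧ t.All (Mod2Line p) ∧
      nodes t ≤ 2 ^ (4 * (p * (b + 1)) + 2) * n ∧ peb t ≤ 4 * (p * (b + 1)) + 2 := by
  obtain ⟨t, h1, h2, h3, h4, h4'⟩ := tree_chain (b := b) π v0 hp univ
  rw [card_univ, Fintype.card_fin] at h4
  have h4'' : nodes t ≤ 2 ^ (4 * (p * (b + 1)) + 2) * n := by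
    have hn : 1 ≤ n := v0.pos
    have h5 : 1 * 1 ≤ 2 ^ (4 * (p * (b + 1)) + 1) * n := Nat.mul_le_mul Nat.one_le_two_pow hn
    rw [show 4 * (p * (b + 1)) + 2 = 4 * (p * (b + 1)) + 1 + 1 from rfl, pow_succ, mul_assoc,
      mul_comm 2 n, ← mul_assoc, mul_two]
    omega
  refine ⟨t, ⟨h1, fun y => ?_⟩, h2, h4'', h4'⟩
  by_contra hne
  rw [Bool.not_eq_false] at hne
  have h5 := (h3 y).1 hne
  have h6 : cut π (univ : Finset (Fin n)) = ∅ := by
    ext e
    rw [mem_cut]
    simp
  rw [sum_par, h6, Finset.sum_empty, Finset.sum_ite_eq' univ v0] at h5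
  simp at h5

end up

end Pool.Agent.TH699.TS
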